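import Mathlib

set_option autoImplicit false

namespace Pool.Agent.Helper25.PF

variable {α : Type} [DecidableEq α]

/-- Length of the longest common beginning of two lists. -/
def lcp : List α → List α → ℕ
  | a :: u, b :: v => if a = b then lcp u v + 1 else 0
  | _, _ => 0

lemma lcp_nil_left (v : List α) : lcp [] v = 0 := by
  cases v <;> rfl

lemma lcp_nil_right (u : List α) : lcp u [] = 0 := by
  cases u <;> rfl

lemma lcp_cons (a b : α) (u v : List α) :
    lcp (a :: u) (b :: v) = if a = b then lcp u v + 1 else 0 := rfl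

lemma le_lcp_iff (u v : List α) (r : ℕ) :
    r ≤ lcp u v ↔ r ≤ u.length ∧ r ≤ v.length ∧ ∀ i < r, u[i]? = v[i]? := by
  induction u generalizing v r with
  | nil =>
    rw [lcp_nil_left]
    constructor
    · intro h
      have : r = 0 := by omega
      subst this
      exact ⟨by simp, by simp, by simp⟩
    · rintro ⟨h, -⟩
      simpa using h
  | cons a u ih =>
    cases v with
    | nil =>
      rw [lcp_nil_right]
      constructor
      · intro h
        have : r = 0 := by omega
        subst this
        exact ⟨by simp, by simp, by simp⟩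
      · rintro ⟨-, h, -⟩
        simpa using h
    | cons b v =>
      rw [lcp_cons]
      rcases Nat.eq_zero_or_pos r with rfl | hr
      · simp
      · obtain ⟨r', rfl⟩ : ∃ r', r = r' + 1 := ⟨r - 1, by omega⟩
        by_cases hab : a = b
        · rw [if_pos hab, Nat.add_le_add_iff_right, ih v r']
          simp only [List.length_cons, Nat.add_le_add_iff_right]
          constructor
          · rintro ⟨h1, h2, h3⟩
            refine ⟨h1, h2, ?_⟩
            intro i hi
            cases i with
            | zero => simp [hab]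
            | succ i => simpa using h3 i (by omega)
          · rintro ⟨h1, h2, h3⟩
            refine ⟨h1, h2, ?_⟩
            intro i hi
            simpa using h3 (i + 1) (by omega)
        · rw [if_neg hab]
          constructor
          · intro h; omega
          · rintro ⟨-, -, h⟩
            have := h 0 (by omega)
            simp at this
            exact absurd this hab

/-- Length of the longest beginning of `u` that recurs at distance `p`. -/
def sp (u : List α) (p : ℕ) : ℕ := lcp u (u.drop p)

lemma le_sp_iff (u : List α) (p r : ℕ) :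
    r ≤ sp u p ↔ r ≤ u.length - p ∧ ∀ i < r, u[i]? = u[p + i]? := by
  unfold sp
  rw [le_lcp_iff]
  simp only [List.length_drop, List.getElem?_drop]
  constructor
  · rintro ⟨-, h2, h3⟩; exact ⟨h2, h3⟩
  · rintro ⟨h2, h3⟩; exact ⟨by omega, h2, h3⟩

/-- Words in which no repetition at distance `p` is longer than `e p`. -/
def KF (e : ℕ → ℕ) (u : List α) : Prop :=
  ∀ p, 1 ≤ p → ∀ s, s + p + (e p + 1) ≤ u.length → ∃ i, i ≤ e p ∧ u[s + i]? ≠ u[s + p + i]?

lemma KF_iff_sp (e : ℕ → ℕ) (u : List α) :
    KF e u ↔ ∀ s p, 1 ≤ p → sp (u.drop s) p ≤ e p := by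
  constructor
  · intro h s p hp
    by_contra hlt
    have h1 : e p + 1 ≤ sp (u.drop s) p := by omega
    rw [le_sp_iff] at h1
    obtain ⟨h2, h3⟩ := h1
    rw [List.length_drop] at h2
    obtain ⟨i, hi, hne⟩ := h p hp s (by omega)
    apply hne
    have := h3 i (by omega)
    rw [List.getElem?_drop, List.getElem?_drop] at this
    rw [this]
    congr 1
    omega
  · intro h p hp s hs
    by_contra hcon
    push Not at hcon
    have h1 : e p + 1 ≤ sp (u.drop s) p := by
      rw [le_sp_iff, List.length_drop]
      refine ⟨by omega, ?_⟩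
      intro i hi
      rw [List.getElem?_drop, List.getElem?_drop, hcon i (by omega)]
      congr 1
      omega
    have := h s p hp
    omega

lemma KF.sp_le {e : ℕ → ℕ} {u : List α} (h : KF e u) {p : ℕ} (hp : 1 ≤ p) : sp u p ≤ e p := by
  have := (KF_iff_sp e u).1 h 0 p hp
  simpa using this

lemma KF.drop {e : ℕ → ℕ} {u : List α} (h : KF e u) (s : ℕ) : KF e (u.drop s) := by
  rw [KF_iff_sp] at h ⊢
  intro s' p hp
  rw [List.drop_drop]
  exact h _ p hp

omit [DecidableEq α] in
lemma KF.of_infix {e : ℕ → ℕ} {u v : List α} (h : KF e v) (huv : u <:+: v) : KF e u := by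
  obtain ⟨a, b, rfl⟩ := huv
  intro p hp s hs
  obtain ⟨i, hi, hne⟩ := h p hp (a.length + s) (by simp; omega)
  refine ⟨i, hi, ?_⟩
  intro heq
  apply hne
  have e1 : ∀ j < u.length, (a ++ u ++ b)[a.length + j]? = u[j]? := by
    intro j hj
    rw [List.append_assoc, List.getElem?_append_right (by omega),
      List.getElem?_append_left (by omega)]
    congr 1
    omega
  have e2 := e1 (s + i) (by omega)
  have e3 := e1 (s + p + i) (by omega)
  rw [show a.length + s + i = a.length + (s + i) by ring,
    show a.length + s + p + i = a.length + (s + p + i) by ring, e2, e3, heq]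

omit [DecidableEq α] in
lemma KF.reverse {e : ℕ → ℕ} {u : List α} (h : KF e u) : KF e u.reverse := by
  intro p hp s hs
  rw [List.length_reverse] at hs
  obtain ⟨i, hi, hne⟩ := h p hp (u.length - (s + p + (e p + 1))) (by omega)
  refine ⟨e p - i, by omega, ?_⟩
  intro heq
  apply hne
  rw [List.getElem?_reverse (by omega), List.getElem?_reverse (by omega)] at heq
  have e1 : u.length - 1 - (s + (e p - i)) = u.length - (s + p + (e p + 1)) + p + i := by omega
  have e2 : u.length - 1 - (s + p + (e p - i)) = u.length - (s + p + (e p + 1)) + i := by omega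
  rw [e1, e2] at heq
  exact heq.symm

omit [DecidableEq α] in
lemma KF_reverse_iff {e : ℕ → ℕ} {u : List α} : KF e u.reverse ↔ KF e u :=
  ⟨fun h => by simpa using h.reverse, fun h => h.reverse⟩

lemma KF_cons_iff {e : ℕ → ℕ} {c : α} {u : List α} :
    KF e (c :: u) ↔ (∀ p, 1 ≤ p → sp (c :: u) p ≤ e p) ∧ KF e u := by
  constructor
  · intro h
    exact ⟨fun p hp => h.sp_le hp, by simpa using h.drop 1⟩
  · rintro ⟨h1, h2⟩
    rw [KF_iff_sp] at h2 ⊢
    intro s p hp
    cases s with
    | zero => simpa using h1 p hp
    | succ s => simpa using h2 s p hp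

lemma sp_cons (c : α) (u : List α) (p : ℕ) (hp : 1 ≤ p) :
    sp (c :: u) p = if u[p - 1]? = some c then sp u p + 1 else 0 := by
  obtain ⟨p', rfl⟩ : ∃ p', p = p' + 1 := ⟨p - 1, by omega⟩
  unfold sp
  rw [List.drop_succ_cons, Nat.add_sub_cancel]
  by_cases hlt : p' < u.length
  · rw [List.drop_eq_getElem_cons hlt, lcp_cons, List.getElem?_eq_getElem hlt]
    by_cases hc : c = u[p']
    · rw [if_pos hc, if_pos (by rw [hc])]
    · rw [if_neg hc, if_neg (by intro h; exact hc (Option.some.inj h).symm)]
  · rw [List.drop_eq_nil_of_le (by omega), lcp_nil_right, if_neg]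
    rw [List.getElem?_eq_none (by omega)]
    simp

lemma sp_eq_zero_of_le (u : List α) (p : ℕ) (hp : u.length ≤ p) : sp u p = 0 := by
  unfold sp
  rw [List.drop_eq_nil_of_le hp, lcp_nil_right]

lemma sp_gap {e : ℕ → ℕ} {u : List α} (h : KF e u) {p p' s : ℕ} (hpp : p < p')
    (h1 : s ≤ sp u p) (h2 : s ≤ sp u p') : s ≤ e (p' - p) := by
  have h3 : s ≤ sp (u.drop p) (p' - p) := by
    rw [le_sp_iff] at h1 h2 ⊢
    rw [List.length_drop]
    refine ⟨by omega, ?_⟩
    intro i hi
    rw [List.getElem?_drop, List.getElem?_drop, ← h1.2 i hi, h2.2 i hi]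
    congr 1
    omega
  exact h3.trans ((h.drop p).sp_le (by omega))

end Pool.Agent.Helper25.PF
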