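import Mathlib
import Pool.Agent.Helper25.PFBase

set_option autoImplicit false

namespace Pool.Agent.Helper25.PF

/-- A word made of a block `X` (letters outside `A`), a block of length `d1`, a block of letters in
`A`, followed by its own beginning of length `m = e P0`, has no long repetition. -/
lemma assembly {β : Type} (e : ℕ → ℕ) (hmono : ∀ a b, a ≤ b → e a ≤ e b) (A : β → Prop)
    (y : ℕ → β) (P0 m h d1 : ℕ)
    (hX : ∀ i < h, ¬ A (y i)) (hV : ∀ i, h + d1 ≤ i → i < P0 → A (y i))
    (hKF : ∀ p, 1 ≤ p → ∀ s, s + p + (e p + 1) ≤ P0 → ∃ i, i ≤ e p ∧ y (s + i) ≠ y (s + p + i))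
    (hm : m ≤ h + d1) (hmh : h ≤ m) (hP : e P0 = m)
    (hg : h + 2 * d1 + 1 ≤ P0) (heg : 2 * d1 ≤ e (P0 - h - d1)) (heh : 2 * d1 ≤ e h)
    (hhd : d1 + 1 ≤ h)
    (hbig : ∀ δ, P0 < 2 * δ → δ ≤ P0 → h + d1 < δ + (e (P0 - δ) + 1))
    (u : ℕ → β) (hu1 : ∀ i < P0, u i = y i) (hu2 : ∀ i < m, u (P0 + i) = y i) :
    ∀ p, 1 ≤ p → ∀ s, s + p + (e p + 1) ≤ P0 + m → ∃ i, i ≤ e p ∧ u (s + i) ≠ u (s + p + i) := by
  intro p hp s hs
  by_contra hcon
  push Not at hcon
  have hmP : m ≤ P0 := by omega
  -- transfer
  have hu2' : ∀ i, P0 ≤ i → i < P0 + m → u i = y (i - P0) := by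
    intro i h1 h2
    have := hu2 (i - P0) (by omega)
    rwa [Nat.add_sub_cancel' h1] at this
  have hR : ∀ t, s ≤ t → t < s + (e p + 1) → u t = u (t + p) := by
    intro t h1 h2
    have := hcon (t - s) (by omega)
    rw [show s + (t - s) = t by omega, show s + p + (t - s) = t + p by omega] at this
    exact this
  by_cases c0 : s + p + (e p + 1) ≤ P0
  · obtain ⟨i, hi, hne⟩ := hKF p hp s c0
    apply hne
    have := hcon i hi
    rwa [hu1 _ (by omega), hu1 _ (by omega)] at this
  by_cases c1 : P0 ≤ s
  · obtain ⟨i, hi, hne⟩ := hKF p hp (s - P0) (by omega)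
    apply hne
    have := hcon i hi
    rw [hu2' _ (by omega) (by omega), hu2' _ (by omega) (by omega)] at this
    rwa [show s + i - P0 = s - P0 + i by omega, show s + p + i - P0 = s - P0 + p + i by omega]
      at this
  by_cases c2 : s + p < P0
  · -- the right copy contains the junction
    have h1 : ¬ A (u P0) := by
      rw [hu2' P0 le_rfl (by omega), Nat.sub_self]
      exact hX 0 (by omega)
    have h2 : A (u (P0 - 1)) := by
      rw [hu1 _ (by omega)]
      exact hV _ (by omega) (by omega)
    have h3 := hR (P0 - 1 - p) (by omega) (by omega)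
    have h4 := hR (P0 - p) (by omega) (by omega)
    rw [show P0 - 1 - p + p = P0 - 1 by omega] at h3
    rw [show P0 - p + p = P0 by omega] at h4
    rw [← h3, hu1 _ (by omega)] at h2
    rw [← h4, hu1 _ (by omega)] at h1
    have h5 : h ≤ P0 - 1 - p := by
      by_contra hlt
      exact hX _ (by omega) h2
    have h6 : P0 - p < h + d1 := by
      by_contra hlt
      exact h1 (hV _ (by omega) (by omega))
    have h7 : e (P0 - h - d1) ≤ e p := hmono _ _ (by omega)
    by_cases c3 : s ≤ h - 1
    · have h8 := hR (h - 1) (by omega) (by omega)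
      rw [hu1 _ (by omega), hu1 _ (by omega)] at h8
      apply hX (h - 1) (by omega)
      rw [h8]
      exact hV _ (by omega) (by omega)
    · have h8 := hR (h + d1) (by omega) (by omega)
      rw [hu1 _ (by omega), hu2' _ (by omega) (by omega)] at h8
      apply hX (h + d1 + p - P0) (by omega)
      rw [← h8]
      exact hV _ (by omega) (by omega)
  push Not at c2
  by_cases c3 : P0 < s + (e p + 1)
  · -- the left copy contains the junction
    have h1 : ¬ A (u P0) := by
      rw [hu2' P0 le_rfl (by omega), Nat.sub_self]
      exact hX 0 (by omega)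
    have h2 : A (u (P0 - 1)) := by
      rw [hu1 _ (by omega)]
      exact hV _ (by omega) (by omega)
    have h3 := hR (P0 - 1) (by omega) (by omega)
    have h4 : h ≤ P0 - 1 + p - P0 := by
      by_contra hlt
      rw [h3, hu2' _ (by omega) (by omega)] at h2
      exact hX _ (by omega) h2
    have h7 : e h ≤ e p := hmono _ _ (by omega)
    have h8 := hR (P0 + h - 1 - p) (by omega) (by omega)
    rw [show P0 + h - 1 - p + p = P0 + h - 1 by omega, hu1 _ (by omega),
      hu2' _ (by omega) (by omega)] at h8
    apply hX (P0 + h - 1 - P0) (by omega)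
    rw [← h8]
    exact hV _ (by omega) (by omega)
  push Not at c3
  by_cases c4 : h + d1 ≤ s + e p
  · -- the left copy ends in the last block
    have h1 : A (u (s + e p)) := by
      rw [hu1 _ (by omega)]
      exact hV _ (by omega) (by omega)
    have h2 := hR (s + e p) (by omega) (by omega)
    have h3 : h ≤ s + e p + p - P0 := by
      by_contra hlt
      rw [h2, hu2' _ (by omega) (by omega)] at h1
      exact hX _ (by omega) h1
    have h7 : e h ≤ e p := hmono _ _ (by omega)
    have h4 : ¬ A (u s) := by
      have := hR s le_rfl (by omega)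
      rw [this, hu2' _ (by omega) (by omega)]
      exact hX _ (by omega)
    have h5 : s < h + d1 := by
      by_contra hlt
      apply h4
      rw [hu1 _ (by omega)]
      exact hV _ (by omega) (by omega)
    by_cases c5 : h ≤ s
    · have h8 := hR (h + d1) (by omega) (by omega)
      rw [hu1 _ (by omega), hu2' _ (by omega) (by omega)] at h8
      apply hX (h + d1 + p - P0) (by omega)
      rw [← h8]
      exact hV _ (by omega) (by omega)
    · have hex : ∃ f, A (y f) := ⟨h + d1, hV _ le_rfl (by omega)⟩
      classical
      set f := Nat.find hex with hf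
      have hfA : A (y f) := Nat.find_spec hex
      have hfmin : ∀ g, A (y g) → f ≤ g := fun g hg => Nat.find_min' hex hg
      have hfh : h ≤ f := by
        by_contra hlt
        exact hX f (by omega) hfA
      have h9 : f ≤ s + e p + p - P0 := by
        apply hfmin
        rw [h2, hu2' _ (by omega) (by omega)] at h1
        exact h1
      have h10 := hR f (by omega) (by omega)
      have h11 : P0 ≤ p := by
        rw [hu1 _ (by omega), hu2' _ (by omega) (by omega)] at h10
        have := hfmin (f + p - P0) (by rw [← h10]; exact hfA)
        omega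
      have h12 := hR (P0 + f - p) (by omega) (by omega)
      rw [show P0 + f - p + p = P0 + f by omega, hu1 _ (by omega), hu2' _ (by omega) (by omega),
        show P0 + f - P0 = f by omega] at h12
      have h13 := hfmin (P0 + f - p) (by rw [h12]; exact hfA)
      have h14 : p = P0 := by omega
      subst h14
      omega
  · push Not at c4
    have hy : ∀ i, i ≤ e p → y (s + i) = y (s + p - P0 + i) := by
      intro i hi
      have := hcon i hi
      rw [hu1 _ (by omega), hu2' _ (by omega) (by omega)] at this
      rw [this]
      congr 1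
      omega
    rcases lt_trichotomy (s + p - P0) s with hlt | heq | hgt
    · -- shorter distance
      by_cases c5 : e (P0 - p) ≤ e p
      · obtain ⟨i, hi, hne⟩ := hKF (P0 - p) (by omega) (s + p - P0) (by omega)
        apply hne
        have := hy i (by omega)
        rw [← this]
        congr 1
        omega
      · push Not at c5
        have h1 : p < P0 - p := by
          by_contra hle
          have := hmono (P0 - p) p (by omega)
          omega
        have h2 := hbig (P0 - p) (by omega) (by omega)
        rw [show P0 - (P0 - p) = p by omega] at h2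
        omega
    · have h14 : p = P0 := by omega
      subst h14
      omega
    · have h1 : e (p - P0) ≤ e p := hmono _ _ (by omega)
      obtain ⟨i, hi, hne⟩ := hKF (p - P0) (by omega) s (by omega)
      apply hne
      rw [hy i (by omega)]
      congr 1
      omega

end Pool.Agent.Helper25.PF
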