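import Mathlib

set_option autoImplicit false

namespace Pool.Agent.Helper25.PF

/-- `p` is a period of the word `u`: `p` is positive and letters at distance `p` agree. -/
def IsPeriod {α : Type} (u : List α) (p : ℕ) : Prop :=
  1 ≤ p ∧ ∀ i, i + p < u.length → u[i]? = u[i + p]?

/-- The exponent of a word: its length divided by its smallest period. -/
noncomputable def exponent {α : Type} (u : List α) : ℝ :=
  (u.length : ℝ) / ((sInf {p | IsPeriod u p} : ℕ) : ℝ)

/-- No nonempty factor of `w` has exponent at least `k`. -/
def PowerFree {α : Type} (k : ℝ) (w : List α) : Prop :=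
  ∀ u : List α, u ≠ [] → u <:+: w → exponent u < k

/-- `w` is `k`-power-free and no word `a w b` with letters `a`, `b` is. -/
def MaximalPowerFree {α : Type} (k : ℝ) (w : List α) : Prop :=
  PowerFree k w ∧ ∀ a b : α, ¬ PowerFree k (a :: (w ++ [b]))

end Pool.Agent.Helper25.PF
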