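import Mathlib
import Pool.Agent.Helper25.PFBase

set_option autoImplicit false

namespace Pool.Agent.Helper25.PF

variable {α : Type} [DecidableEq α]

/-- Potential. -/
noncomputable def F (e : ℕ → ℕ) (u : List α) : ℝ :=
  ∑ p ∈ Finset.range (u.length + 1), (sp u p : ℝ) ^ 2 / (e p : ℝ) ^ 2

/-- The increments of the potential. -/
noncomputable def T (e : ℕ → ℕ) (u : List α) : ℝ :=
  ∑ p ∈ Finset.range (u.length + 1),
    (if sp u p = 0 then 0 else (2 * (sp u p : ℝ) - 1) / (e p : ℝ) ^ 2)

/-- Part of the potential whose repetitions are continued by the letter `c`. -/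
noncomputable def Fc (e : ℕ → ℕ) (u : List α) (c : α) : ℝ :=
  ∑ p ∈ Finset.range (u.length + 1),
    (if 1 ≤ p ∧ u[p - 1]? = some c then (sp u p : ℝ) ^ 2 / (e p : ℝ) ^ 2 else 0)

lemma F_nonneg (e : ℕ → ℕ) (u : List α) : 0 ≤ F e u :=
  Finset.sum_nonneg (fun _ _ => by positivity)

lemma Fc_nonneg (e : ℕ → ℕ) (u : List α) (c : α) : 0 ≤ Fc e u c :=
  Finset.sum_nonneg (fun _ _ => by split_ifs <;> positivity)

lemma sum_Fc_le (e : ℕ → ℕ) (u : List α) (S : Finset α) : ∑ c ∈ S, Fc e u c ≤ F e u := by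
  unfold Fc F
  rw [Finset.sum_comm]
  apply Finset.sum_le_sum
  intro p _
  by_cases h : ∃ c ∈ S, 1 ≤ p ∧ u[p - 1]? = some c
  · obtain ⟨c, hc, hp, hpc⟩ := h
    rw [Finset.sum_eq_single c]
    · rw [if_pos ⟨hp, hpc⟩]
    · intro b _ hbc
      rw [if_neg]
      rintro ⟨-, h⟩
      rw [h] at hpc
      exact hbc (Option.some.inj hpc)
    · intro h; exact absurd hc h
  · rw [Finset.sum_eq_zero]
    · positivity
    · intro c hc
      rw [if_neg]
      intro h'
      exact h ⟨c, hc, h'⟩

lemma F_cons (e : ℕ → ℕ) (he0 : e 0 = 0) (c : α) (u : List α) :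
    F e (c :: u) = Fc e u c + T e (c :: u) := by
  unfold F Fc T
  have h1 : ∀ g : ℕ → ℝ, (g (u.length + 1) = 0) →
      ∑ p ∈ Finset.range (u.length + 1), g p = ∑ p ∈ Finset.range ((c :: u).length + 1), g p := by
    intro g hg
    rw [List.length_cons, Finset.sum_range_succ _ (u.length + 1), hg, add_zero]
  rw [h1]
  · rw [← Finset.sum_add_distrib]
    apply Finset.sum_congr rfl
    intro p _
    rcases Nat.eq_zero_or_pos p with rfl | hp
    · simp [he0]
    · rw [sp_cons c u p hp]
      by_cases h : u[p - 1]? = some c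
      · rw [if_pos h, if_pos ⟨hp, h⟩, if_neg (by omega)]
        push_cast
        rw [← add_div]
        congr 1
        ring
      · rw [if_neg h, if_neg (by rintro ⟨-, h'⟩; exact h h'), if_pos rfl]
        simp
  · rw [if_neg]
    rintro ⟨-, h⟩
    rw [List.getElem?_eq_none (by omega)] at h
    exact absurd h (by simp)

/-! ### The bound on increments -/

lemma sum_inv_sq_le (I : Finset ℕ) : ∑ i ∈ I, 1 / (i : ℝ) ^ 2 ≤ Real.pi ^ 2 / 6 :=
  sum_le_hasSum I (fun _ _ => by positivity) hasSum_zeta_two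

lemma rank_mul_le {e : ℕ → ℕ} (hsup : ∀ a b, e a + e b ≤ e (a + b)) {u : List α} (h : KF e u)
    (s : ℕ) (A : Finset ℕ) (hA : ∀ p ∈ A, 1 ≤ p ∧ s ≤ sp u p) :
    ∀ p ∈ A, (A.filter (· ≤ p)).card * s ≤ e p := by
  intro p
  induction p using Nat.strong_induction_on with
  | _ p ih =>
    intro hp
    by_cases hne : (A.filter (· < p)).Nonempty
    · obtain ⟨p', hp', hmax⟩ := Finset.exists_max_image _ id hne
      rw [Finset.mem_filter] at hp'
      have hcard : A.filter (· ≤ p) = insert p (A.filter (· ≤ p')) := by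
        ext x
        simp only [Finset.mem_filter, Finset.mem_insert]
        constructor
        · rintro ⟨hx, hxp⟩
          rcases eq_or_lt_of_le hxp with rfl | hlt
          · exact Or.inl rfl
          · exact Or.inr ⟨hx, hmax x (Finset.mem_filter.2 ⟨hx, hlt⟩)⟩
        · rintro (rfl | ⟨hx, hxp⟩)
          · exact ⟨hp, le_rfl⟩
          · exact ⟨hx, by omega⟩
      have hnot : p ∉ A.filter (· ≤ p') := by
        rw [Finset.mem_filter]
        rintro ⟨-, hle⟩
        omega
      rw [hcard, Finset.card_insert_of_notMem hnot]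
      have h1 := ih p' hp'.2 hp'.1
      have h2 := sp_gap h hp'.2 (hA p' hp'.1).2 (hA p hp).2
      have h3 := hsup p' (p - p')
      rw [Nat.add_sub_cancel' (by omega)] at h3
      calc ((A.filter (· ≤ p')).card + 1) * s = (A.filter (· ≤ p')).card * s + s := by ring
        _ ≤ e p' + e (p - p') := by omega
        _ ≤ e p := h3
    · rw [Finset.not_nonempty_iff_eq_empty] at hne
      have hcard : A.filter (· ≤ p) = {p} := by
        ext x
        simp only [Finset.mem_filter, Finset.mem_singleton]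
        constructor
        · rintro ⟨hx, hxp⟩
          by_contra hne'
          have : x ∈ A.filter (· < p) := Finset.mem_filter.2 ⟨hx, by omega⟩
          rw [hne] at this
          simp at this
        · rintro rfl
          exact ⟨hp, le_rfl⟩
      rw [hcard, Finset.card_singleton, one_mul]
      exact (hA p hp).2.trans (h.sp_le (hA p hp).1)

lemma sum_layer_le {e : ℕ → ℕ} (hsup : ∀ a b, e a + e b ≤ e (a + b)) {u : List α} (h : KF e u)
    (s : ℕ) (hs : 1 ≤ s) (A : Finset ℕ) (hA : ∀ p ∈ A, 1 ≤ p ∧ s ≤ sp u p) :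
    ∑ p ∈ A, 1 / (e p : ℝ) ^ 2 ≤ (Real.pi ^ 2 / 6) * (1 / (s : ℝ) ^ 2) := by
  set rk : ℕ → ℕ := fun p => (A.filter (· ≤ p)).card with hrk
  have hinj : Set.InjOn rk A := by
    intro a ha b hb hab
    by_contra hne
    wlog hlt : a < b generalizing a b
    · exact this hb ha hab.symm (Ne.symm hne) (by omega)
    have hss : A.filter (· ≤ a) ⊂ A.filter (· ≤ b) := by
      rw [Finset.ssubset_iff_subset_ne]
      constructor
      · intro x hx
        rw [Finset.mem_filter] at hx ⊢
        exact ⟨hx.1, by omega⟩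
      · intro heq
        have : b ∈ A.filter (· ≤ a) := by
          rw [heq, Finset.mem_filter]
          exact ⟨hb, le_rfl⟩
        rw [Finset.mem_filter] at this
        omega
    have := Finset.card_lt_card hss
    simp only [hrk] at hab
    omega
  have h1 : ∀ p ∈ A, 1 / (e p : ℝ) ^ 2 ≤ 1 / (rk p : ℝ) ^ 2 * (1 / (s : ℝ) ^ 2) := by
    intro p hp
    have h2 := rank_mul_le hsup h s A hA p hp
    have h3 : 1 ≤ rk p := by
      rw [hrk]
      simp only
      rw [Nat.succ_le_iff, Finset.card_pos]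
      exact ⟨p, Finset.mem_filter.2 ⟨hp, le_rfl⟩⟩
    have h4 : ((rk p * s : ℕ) : ℝ) ≤ (e p : ℝ) := by exact_mod_cast h2
    have h5 : (0 : ℝ) < ((rk p * s : ℕ) : ℝ) := by
      have : 0 < rk p * s := Nat.mul_pos h3 hs
      exact_mod_cast this
    rw [div_mul_div_comm, one_mul, ← mul_pow]
    apply one_div_le_one_div_of_le
    · push_cast at h5
      positivity
    · push_cast at h4 h5
      exact pow_le_pow_left₀ h5.le h4 2
  calc ∑ p ∈ A, 1 / (e p : ℝ) ^ 2 ≤ ∑ p ∈ A, 1 / (rk p : ℝ) ^ 2 * (1 / (s : ℝ) ^ 2) :=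
        Finset.sum_le_sum h1
    _ = (∑ p ∈ A, 1 / (rk p : ℝ) ^ 2) * (1 / (s : ℝ) ^ 2) := by rw [Finset.sum_mul]
    _ = (∑ i ∈ A.image rk, 1 / (i : ℝ) ^ 2) * (1 / (s : ℝ) ^ 2) := by
        rw [Finset.sum_image hinj]
    _ ≤ _ := by
        apply mul_le_mul_of_nonneg_right (sum_inv_sq_le _)
        positivity

/-- The weights in the layer formula. -/
noncomputable def wt (j : ℕ) : ℝ := if j = 1 then 1 else 2

lemma sum_wt (s : ℕ) : ∑ j ∈ Finset.Icc 1 s, wt j = if s = 0 then 0 else 2 * (s : ℝ) - 1 := by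
  induction s with
  | zero => simp
  | succ s ih =>
    rw [Finset.sum_Icc_succ_top (by omega), ih]
    rcases Nat.eq_zero_or_pos s with rfl | hs
    · simp [wt]; norm_num
    · rw [if_neg (by omega), if_neg (by omega), wt, if_neg (by omega)]
      push_cast
      ring

lemma T_le {e : ℕ → ℕ} (he0 : e 0 = 0) (hsup : ∀ a b, e a + e b ≤ e (a + b)) {u : List α}
    (h : KF e u) : T e u ≤ 3.77 := by
  have h0 : T e u = ∑ p ∈ (Finset.range (u.length + 1)).filter (1 ≤ ·),
      ∑ j ∈ Finset.Icc 1 (sp u p), wt j * (1 / (e p : ℝ) ^ 2) := by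
    unfold T
    rw [← Finset.sum_filter_add_sum_filter_not _ (fun p => 1 ≤ p)]
    have h1 : ∑ p ∈ (Finset.range (u.length + 1)).filter (fun p => ¬ 1 ≤ p),
        (if sp u p = 0 then 0 else (2 * (sp u p : ℝ) - 1) / (e p : ℝ) ^ 2) = 0 := by
      apply Finset.sum_eq_zero
      intro p hp
      rw [Finset.mem_filter] at hp
      have : p = 0 := by omega
      subst this
      simp [he0]
    rw [h1, add_zero]
    apply Finset.sum_congr rfl
    intro p _
    rw [← Finset.sum_mul, sum_wt]
    split_ifs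
    · simp
    · rw [mul_one_div]
  have hsple : ∀ p, sp u p ≤ u.length := by
    intro p
    have := ((le_sp_iff u p (sp u p)).1 le_rfl).1
    omega
  have h1 : ∀ p, ∑ j ∈ Finset.Icc 1 (sp u p), wt j * (1 / (e p : ℝ) ^ 2) =
      ∑ j ∈ Finset.Icc 1 u.length, if j ≤ sp u p then wt j * (1 / (e p : ℝ) ^ 2) else 0 := by
    intro p
    rw [← Finset.sum_filter]
    apply Finset.sum_congr _ (fun _ _ => rfl)
    ext j
    simp only [Finset.mem_Icc, Finset.mem_filter]
    have := hsple p
    omega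
  rw [h0, Finset.sum_congr rfl (fun p _ => h1 p), Finset.sum_comm]
  have h2 : ∀ j ∈ Finset.Icc 1 u.length,
      (∑ p ∈ (Finset.range (u.length + 1)).filter (1 ≤ ·),
        if j ≤ sp u p then wt j * (1 / (e p : ℝ) ^ 2) else 0) ≤
      (Real.pi ^ 2 / 6) * (wt j * (1 / (j : ℝ) ^ 2)) := by
    intro j hj
    rw [Finset.mem_Icc] at hj
    rw [← Finset.sum_filter, ← Finset.mul_sum]
    have := sum_layer_le hsup h j hj.1
      (((Finset.range (u.length + 1)).filter (1 ≤ ·)).filter (fun p => j ≤ sp u p))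
      (by
        intro p hp
        rw [Finset.mem_filter, Finset.mem_filter] at hp
        exact ⟨hp.1.2, hp.2⟩)
    have hw : 0 ≤ wt j := by unfold wt; split_ifs <;> norm_num
    calc wt j * _ ≤ wt j * ((Real.pi ^ 2 / 6) * (1 / (j : ℝ) ^ 2)) :=
          mul_le_mul_of_nonneg_left this hw
      _ = _ := by ring
  refine (Finset.sum_le_sum h2).trans ?_
  rw [← Finset.mul_sum]
  have h3 : ∑ j ∈ Finset.Icc 1 u.length, wt j * (1 / (j : ℝ) ^ 2) ≤ 2 * (Real.pi ^ 2 / 6) - 1 := by
    rcases Nat.eq_zero_or_pos u.length with h0 | hpos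
    · rw [h0]
      have := Real.pi_gt_three
      simp
      nlinarith
    · have h4 : ∑ j ∈ Finset.Icc 1 u.length, wt j * (1 / (j : ℝ) ^ 2) =
          2 * (∑ j ∈ Finset.Icc 1 u.length, 1 / (j : ℝ) ^ 2) - 1 := by
        rw [← Finset.add_sum_erase _ _ (Finset.mem_Icc.2 ⟨le_rfl, hpos⟩),
          ← Finset.add_sum_erase (Finset.Icc 1 u.length) (fun j => (1 / (j : ℝ) ^ 2))
            (Finset.mem_Icc.2 ⟨le_rfl, hpos⟩), mul_add, Finset.mul_sum]
        have : ∑ x ∈ (Finset.Icc 1 u.length).erase 1, wt x * (1 / (x : ℝ) ^ 2) =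
            ∑ x ∈ (Finset.Icc 1 u.length).erase 1, 2 * (1 / (x : ℝ) ^ 2) := by
          apply Finset.sum_congr rfl
          intro x hx
          rw [Finset.mem_erase] at hx
          rw [wt, if_neg hx.1]
        rw [this]
        simp [wt]
        ring
      rw [h4]
      have := sum_inv_sq_le (Finset.Icc 1 u.length)
      linarith
  have hpi := Real.pi_lt_d6
  have hpi0 := Real.pi_pos
  have h5 : Real.pi ^ 2 / 6 ≤ 1.645 := by nlinarith
  have h6 : 0 ≤ Real.pi ^ 2 / 6 := by positivity
  calc Real.pi ^ 2 / 6 * _ ≤ Real.pi ^ 2 / 6 * (2 * (Real.pi ^ 2 / 6) - 1) :=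
        mul_le_mul_of_nonneg_left h3 h6
    _ ≤ 1.645 * (2 * 1.645 - 1) := by
        have h7 : 0 ≤ 2 * (Real.pi ^ 2 / 6) - 1 := by
          have := Real.pi_gt_three
          nlinarith
        apply mul_le_mul h5 (by linarith) h7 (by norm_num)
    _ ≤ 3.77 := by norm_num

/-! ### The extension step -/

lemma KF_cons_of_Fc_lt {e : ℕ → ℕ} {q : ℕ}
    (hq : ∀ p, e p = 0 → p ≤ q) {u : List α} (h : KF e u) {c : α} (hc : c ∉ u.take q)
    (h3 : Fc e u c < 1) : KF e (c :: u) := by
  rw [KF_cons_iff]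
  refine ⟨?_, h⟩
  intro p hp
  rw [sp_cons c u p hp]
  by_cases hm : u[p - 1]? = some c
  · rw [if_pos hm]
    have hsp := h.sp_le hp
    by_contra hgt
    have heq : sp u p = e p := by omega
    have hlt : p - 1 < u.length := by
      by_contra hcon
      rw [List.getElem?_eq_none (by omega)] at hm
      exact absurd hm (by simp)
    rcases Nat.eq_zero_or_pos (e p) with he | he
    · have hpq := hq p he
      apply hc
      rw [List.mem_take_iff_getElem]
      refine ⟨p - 1, by omega, ?_⟩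
      rw [List.getElem?_eq_getElem hlt] at hm
      exact Option.some.inj hm
    · have h4 : (1 : ℝ) ≤ Fc e u c := by
        unfold Fc
        have h5 : (if 1 ≤ p ∧ u[p - 1]? = some c then (sp u p : ℝ) ^ 2 / (e p : ℝ) ^ 2 else 0) = 1 := by
          rw [if_pos ⟨hp, hm⟩, heq]
          have : (0 : ℝ) < e p := by exact_mod_cast he
          field_simp
        rw [← h5]
        apply Finset.single_le_sum
          (f := fun p => (if 1 ≤ p ∧ u[p - 1]? = some c then (sp u p : ℝ) ^ 2 / (e p : ℝ) ^ 2 else 0))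
        · intro i _
          split_ifs <;> positivity
        · rw [Finset.mem_range]
          omega
      linarith
  · rw [if_neg hm]
    exact Nat.zero_le _

/-- The greedy step: a letter of `S` can be prepended. -/
lemma step {e : ℕ → ℕ} (he0 : e 0 = 0) (hsup : ∀ a b, e a + e b ≤ e (a + b)) {q : ℕ}
    (hq : ∀ p, e p = 0 → p ≤ q) {u : List α} (h : KF e u) (S : Finset α)
    (hS : q + 5 ≤ S.card) (hF : F e u < 5) :
    ∃ c ∈ S, KF e (c :: u) ∧ F e (c :: u) ≤ F e u / 5 + 3.77 := by
  set S' := S \ (u.take q).toFinset with hS'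
  have hcard : 5 ≤ S'.card := by
    have h1 : (u.take q).toFinset.card ≤ q :=
      (List.toFinset_card_le _).trans (by simp)
    have h2 := Finset.le_card_sdiff (u.take q).toFinset S
    rw [← hS'] at h2
    omega
  have hne : S'.Nonempty := by
    rw [← Finset.card_pos]; omega
  obtain ⟨c, hc, hmin⟩ := Finset.exists_min_image S' (fun c => Fc e u c) hne
  have h1 : (S'.card : ℝ) * Fc e u c ≤ F e u := by
    calc (S'.card : ℝ) * Fc e u c = ∑ _x ∈ S', Fc e u c := by
          rw [Finset.sum_const, nsmul_eq_mul]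
      _ ≤ ∑ x ∈ S', Fc e u x := Finset.sum_le_sum hmin
      _ ≤ F e u := sum_Fc_le e u S'
  have hFc0 := Fc_nonneg e u c
  have h2 : 5 * Fc e u c ≤ F e u := by
    have : (5 : ℝ) ≤ S'.card := by exact_mod_cast hcard
    nlinarith
  have h3 : Fc e u c < 1 := by linarith
  rw [hS', Finset.mem_sdiff, List.mem_toFinset] at hc
  have hKF : KF e (c :: u) := KF_cons_of_Fc_lt hq h hc.2 h3
  refine ⟨c, hc.1, hKF, ?_⟩
  rw [F_cons e he0]
  have := T_le he0 hsup hKF
  linarith

/-! ### Effect on the other side -/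

lemma sp_append_le (v : List α) (c : α) (p : ℕ) : sp v p ≤ sp (v ++ [c]) p := by
  rw [le_sp_iff, List.length_append, List.length_singleton]
  obtain ⟨h1, h2⟩ := (le_sp_iff v p (sp v p)).1 le_rfl
  refine ⟨by omega, ?_⟩
  intro i hi
  rw [List.getElem?_append_left (by omega), List.getElem?_append_left (by omega)]
  exact h2 i hi

lemma sp_append_cases (v : List α) (c : α) (p : ℕ) :
    sp (v ++ [c]) p = sp v p ∨
      (sp (v ++ [c]) p = sp v p + 1 ∧ sp (v ++ [c]) p + p = v.length + 1) := by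
  obtain ⟨h1, h2⟩ := (le_sp_iff (v ++ [c]) p (sp (v ++ [c]) p)).1 le_rfl
  rw [List.length_append, List.length_singleton] at h1
  have h0 := sp_append_le v c p
  have key : ∀ r, r ≤ sp (v ++ [c]) p → r ≤ v.length - p → r ≤ sp v p := by
    intro r hr1 hr2
    rw [le_sp_iff]
    refine ⟨hr2, ?_⟩
    intro i hi
    have := h2 i (by omega)
    rwa [List.getElem?_append_left (by omega), List.getElem?_append_left (by omega)] at this
  by_cases hle : sp (v ++ [c]) p ≤ v.length - p
  · left
    have := key _ le_rfl hle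
    omega
  · right
    have h4 := key (sp (v ++ [c]) p - 1) (by omega) (by omega)
    have h5 := ((le_sp_iff v p (sp v p)).1 le_rfl).1
    omega

lemma sum_halving (B : Finset ℕ) : (∀ b ∈ B, ∀ b' ∈ B, b' < b → 2 * b' ≤ b) →
    ∀ M, (∀ b ∈ B, b ≤ M) → ∑ b ∈ B, b ≤ 2 * M := by
  induction B using Finset.induction_on_max with
  | empty => simp
  | insert a B ha ih =>
    intro hB M hM
    have hnot : a ∉ B := fun h => absurd (ha a h) (lt_irrefl _)
    rw [Finset.sum_insert hnot]
    have h1 : ∑ b ∈ B, b ≤ 2 * (a / 2) := by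
      apply ih
      · intro b hb b' hb' hlt
        exact hB b (Finset.mem_insert_of_mem hb) b' (Finset.mem_insert_of_mem hb') hlt
      · intro b hb
        have := hB a (Finset.mem_insert_self _ _) b (Finset.mem_insert_of_mem hb) (ha b hb)
        omega
    have h2 := hM a (Finset.mem_insert_self _ _)
    omega

lemma F_append_le {e : ℕ → ℕ} (he0 : e 0 = 0) (hsup : ∀ a b, e a + e b ≤ e (a + b))
    (hle : ∀ a, e a ≤ a) {n0 : ℕ} (hn0 : 80 ≤ e n0) {v : List α} {c : α}
    (h : KF e (v ++ [c])) (hlen : 2 * n0 ≤ v.length + 1) :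
    F e (v ++ [c]) ≤ F e v + 0.05 := by
  have hmono : ∀ a b, a ≤ b → e a ≤ e b := by
    intro a b hab
    have := hsup a (b - a)
    rw [Nat.add_sub_cancel' hab] at this
    omega
  set N := v.length + 1 with hN
  set w := v ++ [c] with hw
  have hwl : w.length = N := by simp [hw, hN]
  set Full := (Finset.range N).filter (fun p => 1 ≤ p ∧ sp w p + p = N) with hFull
  have h1 : F e w ≤ F e v + ∑ p ∈ Full, 2 * ((N - p : ℕ) : ℝ) / (e p : ℝ) ^ 2 := by
    unfold F
    rw [hwl, Finset.sum_range_succ, sp_eq_zero_of_le w N (by omega)]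
    have : ∑ p ∈ Finset.range N, (sp w p : ℝ) ^ 2 / (e p : ℝ) ^ 2 ≤
        ∑ p ∈ Finset.range N, ((sp v p : ℝ) ^ 2 / (e p : ℝ) ^ 2 +
          if 1 ≤ p ∧ sp w p + p = N then 2 * ((N - p : ℕ) : ℝ) / (e p : ℝ) ^ 2 else 0) := by
      apply Finset.sum_le_sum
      intro p hp
      rcases Nat.eq_zero_or_pos p with rfl | hpos
      · simp [he0]
      · rcases sp_append_cases v c p with h2 | ⟨h2, h3⟩
        · rw [← hw] at h2
          rw [h2]
          have : (0 : ℝ) ≤ if 1 ≤ p ∧ sp v p + p = N then 2 * ((N - p : ℕ) : ℝ) / (e p : ℝ) ^ 2 else 0 := by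
            split_ifs <;> positivity
          linarith
        · rw [← hw] at h2 h3
          rw [if_pos ⟨hpos, h3⟩, ← add_div]
          apply div_le_div_of_nonneg_right _ (by positivity)
          have h4 : N - p = sp v p + 1 := by omega
          rw [h2, h4]
          push_cast
          nlinarith
    rw [Finset.sum_add_distrib, ← Finset.sum_filter] at this
    rw [← hFull] at this
    simpa using this
  rcases Full.eq_empty_or_nonempty with hemp | hne
  · rw [hemp] at h1
    simp at h1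
    linarith
  · obtain ⟨p0, hp0, hmin⟩ := Finset.exists_min_image Full id hne
    have hmem : ∀ p ∈ Full, p < N ∧ 1 ≤ p ∧ sp w p + p = N := by
      intro p hp
      rw [hFull, Finset.mem_filter, Finset.mem_range] at hp
      exact hp
    have hsum : ∑ p ∈ Full, (N - p) ≤ 2 * (N - p0) := by
      have hinj : Set.InjOn (fun p => N - p) (Full : Set ℕ) := by
        intro a ha b hb hab
        have h1 := hmem a ha
        have h2 := hmem b hb
        simp only at hab
        omega
      have himg : ∑ p ∈ Full, (N - p) = ∑ b ∈ Full.image (fun p => N - p), b := by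
        rw [Finset.sum_image hinj]
      rw [himg]
      apply sum_halving
      · intro b hb b' hb' hlt
        rw [Finset.mem_image] at hb hb'
        obtain ⟨p, hp, rfl⟩ := hb
        obtain ⟨p', hp', rfl⟩ := hb'
        have h1 := hmem p hp
        have h2 := hmem p' hp'
        have h3 : p < p' := by omega
        have h4 := sp_gap h h3 (s := N - p') (by omega) (by omega)
        have h5 := hle (p' - p)
        omega
      · intro b hb
        rw [Finset.mem_image] at hb
        obtain ⟨p, hp, rfl⟩ := hb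
        have := hmin p hp
        simp only [id] at this
        omega
    have h2 := hmem p0 hp0
    have h3 := h.sp_le h2.2.1
    have h4 : N - p0 ≤ e p0 := by omega
    have h5 := hle p0
    have h6 : n0 ≤ p0 := by omega
    have h7 : 80 ≤ e p0 := hn0.trans (hmono _ _ h6)
    have h7' : (80 : ℝ) ≤ e p0 := by exact_mod_cast h7
    have h8 : ∑ p ∈ Full, 2 * ((N - p : ℕ) : ℝ) / (e p : ℝ) ^ 2 ≤
        ∑ p ∈ Full, 2 * ((N - p : ℕ) : ℝ) / (e p0 : ℝ) ^ 2 := by
      apply Finset.sum_le_sum
      intro p hp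
      apply div_le_div_of_nonneg_left (by positivity) (by positivity)
      have h9 := hmono p0 p (hmin p hp)
      have h10 : (e p0 : ℝ) ≤ e p := by exact_mod_cast h9
      exact pow_le_pow_left₀ (by linarith) h10 2
    have h9 : ∑ p ∈ Full, 2 * ((N - p : ℕ) : ℝ) / (e p0 : ℝ) ^ 2 =
        2 * ((∑ p ∈ Full, (N - p) : ℕ) : ℝ) / (e p0 : ℝ) ^ 2 := by
      rw [Nat.cast_sum, Finset.mul_sum, Finset.sum_div]
    have h10 : ((∑ p ∈ Full, (N - p) : ℕ) : ℝ) ≤ 2 * (e p0 : ℝ) := by
      have : ∑ p ∈ Full, (N - p) ≤ 2 * e p0 := hsum.trans (by omega)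
      exact_mod_cast this
    have h11 : 2 * ((∑ p ∈ Full, (N - p) : ℕ) : ℝ) / (e p0 : ℝ) ^ 2 ≤ 0.05 := by
      rw [div_le_iff₀ (by positivity)]
      nlinarith
    linarith

/-! ### Two-sided growth -/

lemma growth {e : ℕ → ℕ} (he0 : e 0 = 0) (hsup : ∀ a b, e a + e b ≤ e (a + b))
    (hle : ∀ a, e a ≤ a) {n0 : ℕ} (hn0 : 80 ≤ e n0) {q : ℕ}
    (hq : ∀ p, e p = 0 → p ≤ q) {D : List α} (h : KF e D) (hlen : 2 * n0 ≤ D.length)
    (hL : F e D ≤ 4.8) (hR : F e D.reverse ≤ 4.8) (S1 S2 : Finset α)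
    (hS1 : q + 5 ≤ S1.card) (hS2 : q + 5 ≤ S2.card) (t : ℕ) :
    ∃ x v : List α, x.length = t ∧ v.length = t ∧ (∀ a ∈ x, a ∈ S2) ∧ (∀ a ∈ v, a ∈ S1) ∧
      KF e (x ++ D ++ v) ∧ F e (x ++ D ++ v) ≤ 4.8 ∧ F e (x ++ D ++ v).reverse ≤ 4.8 := by
  induction t with
  | zero => exact ⟨[], [], rfl, rfl, by simp, by simp, by simpa using h, by simpa using hL,
      by simpa using hR⟩
  | succ t ih =>
    obtain ⟨x, v, hx, hv, hxS, hvS, hk, hl, hr⟩ := ih
    obtain ⟨c, hc, hkc, hFc⟩ := step he0 hsup hq hk.reverse S1 hS1 (by linarith)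
    have e1 : c :: (x ++ D ++ v).reverse = (x ++ D ++ (v ++ [c])).reverse := by simp
    rw [e1] at hkc hFc
    rw [KF_reverse_iff] at hkc
    have e2 : x ++ D ++ (v ++ [c]) = (x ++ D ++ v) ++ [c] := by simp
    have hl2 : F e (x ++ D ++ (v ++ [c])) ≤ 4.85 := by
      rw [e2] at hkc ⊢
      have := F_append_le he0 hsup hle hn0 hkc (by simp; omega)
      linarith
    obtain ⟨a, ha, hka, hFa⟩ := step he0 hsup hq hkc S2 hS2 (by linarith)
    refine ⟨a :: x, v ++ [c], by simp [hx], by simp [hv], ?_, ?_, ?_, ?_, ?_⟩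
    · intro b hb
      rcases List.mem_cons.1 hb with rfl | hb
      · exact ha
      · exact hxS b hb
    · intro b hb
      rcases List.mem_append.1 hb with hb | hb
      · exact hvS b hb
      · rw [List.mem_singleton] at hb
        rw [hb]; exact hc
    · simpa using hka
    · have : F e (a :: x ++ D ++ (v ++ [c])) = F e (a :: (x ++ D ++ (v ++ [c]))) := by simp
      rw [this]
      linarith
    · have e3 : (a :: x ++ D ++ (v ++ [c])).reverse = (x ++ D ++ (v ++ [c])).reverse ++ [a] := by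
        simp
      rw [e3]
      have hk3 : KF e ((x ++ D ++ (v ++ [c])).reverse ++ [a]) := by
        rw [← e3]
        apply KF.reverse
        simpa using hka
      have := F_append_le he0 hsup hle hn0 hk3 (by simp; omega)
      linarith

/-! ### Cleaning -/

lemma clean_side [Fintype α] {e : ℕ → ℕ} {q : ℕ}
    (hq : ∀ p, e p = 0 → p ≤ q) (hcard : q + 11 ≤ Fintype.card α) {u : List α} (h : KF e u)
    (hex : ∃ c, KF e (c :: u))
    (hmin : ∀ c, KF e (c :: u) → F e u - Fc e u c ≤ 3.87) : F e u ≤ 4.8 := by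
  classical
  set B : Finset α := Finset.univ.filter (fun c => KF e (c :: u)) with hB
  obtain ⟨c0, hc0⟩ := hex
  have hF0 := F_nonneg e u
  -- killed letters
  set K : Finset α := (Finset.univ \ (u.take q).toFinset) \ B with hK
  have hKcard : K.card ≤ 3 := by
    have h1 : ∀ c ∈ K, 1 ≤ Fc e u c := by
      intro c hc
      by_contra hlt
      push Not at hlt
      rw [hK, Finset.mem_sdiff, Finset.mem_sdiff, List.mem_toFinset] at hc
      apply hc.2
      rw [hB, Finset.mem_filter]
      exact ⟨Finset.mem_univ _, KF_cons_of_Fc_lt hq h hc.1.2 hlt⟩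
    have h2 : c0 ∉ K := by
      intro hc
      rw [hK, Finset.mem_sdiff] at hc
      apply hc.2
      rw [hB, Finset.mem_filter]
      exact ⟨Finset.mem_univ _, hc0⟩
    have h3 := sum_Fc_le e u (insert c0 K)
    rw [Finset.sum_insert h2] at h3
    have h4 : (K.card : ℝ) ≤ ∑ c ∈ K, Fc e u c := by
      calc (K.card : ℝ) = ∑ _c ∈ K, (1 : ℝ) := by simp
        _ ≤ _ := Finset.sum_le_sum h1
    have h5 := hmin c0 hc0
    have h6 : (K.card : ℝ) < 4 := by linarith
    have h7 : K.card < 4 := by exact_mod_cast h6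
    omega
  have hBcard : 8 ≤ B.card := by
    have h1 : (u.take q).toFinset.card ≤ q :=
      (List.toFinset_card_le _).trans (by simp)
    have h2 := Finset.le_card_sdiff (u.take q).toFinset (Finset.univ : Finset α)
    have h3 := Finset.le_card_sdiff B (Finset.univ \ (u.take q).toFinset)
    rw [← hK] at h3
    rw [Finset.card_univ] at h2
    omega
  have h1 : ∑ c ∈ B, (F e u - Fc e u c) ≤ ∑ _c ∈ B, (3.87 : ℝ) := by
    apply Finset.sum_le_sum
    intro c hc
    rw [hB, Finset.mem_filter] at hc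
    exact hmin c hc.2
  rw [Finset.sum_sub_distrib, Finset.sum_const, Finset.sum_const, nsmul_eq_mul, nsmul_eq_mul] at h1
  have h2 := sum_Fc_le e u B
  have h3 : (8 : ℝ) ≤ B.card := by exact_mod_cast hBcard
  nlinarith

lemma cleaning [Fintype α] {e : ℕ → ℕ} (he0 : e 0 = 0)
    (hsup : ∀ a b, e a + e b ≤ e (a + b)) (hle : ∀ a, e a ≤ a) {n0 : ℕ} (hn0 : 80 ≤ e n0)
    {q : ℕ} (hq : ∀ p, e p = 0 → p ≤ q) (hcard : q + 11 ≤ Fintype.card α)
    (S : Set (List α)) (hne : S.Nonempty) (hKF : ∀ D ∈ S, KF e D)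
    (hlen : ∀ D ∈ S, 2 * n0 ≤ D.length)
    (hexR : ∀ D ∈ S, ∃ c, KF e (D ++ [c])) (hR : ∀ D ∈ S, ∀ c, KF e (D ++ [c]) → D ++ [c] ∈ S)
    (hexL : ∀ D ∈ S, ∃ c, KF e (c :: D)) (hL : ∀ D ∈ S, ∀ c, KF e (c :: D) → c :: D ∈ S) :
    ∃ D ∈ S, F e D ≤ 4.8 ∧ F e D.reverse ≤ 4.8 := by
  set g : List α → ℕ := fun D => ⌊20 * (F e D + F e D.reverse)⌋₊ with hg
  obtain ⟨D, hD, hmin⟩ : ∃ D ∈ S, ∀ D' ∈ S, g D ≤ g D' := by
    have hne' : (g '' S).Nonempty := hne.image g
    obtain ⟨D, hD, hDm⟩ := Nat.sInf_mem hne'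
    refine ⟨D, hD, ?_⟩
    intro D' hD'
    rw [hDm]
    exact Nat.sInf_le ⟨D', hD', rfl⟩
  have hkey : ∀ D' ∈ S, F e D + F e D.reverse < F e D' + F e D'.reverse + 0.05 := by
    intro D' hD'
    have h1 := hmin D' hD'
    have h2 : 0 ≤ 20 * (F e D' + F e D'.reverse) := by
      have := F_nonneg e D'
      have := F_nonneg e D'.reverse
      positivity
    have h3 := Nat.floor_le h2
    have h4 := Nat.lt_floor_add_one (20 * (F e D + F e D.reverse))
    have h5 : ((g D : ℕ) : ℝ) ≤ ((g D' : ℕ) : ℝ) := by exact_mod_cast h1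
    simp only [hg] at h5
    linarith
  refine ⟨D, hD, ?_, ?_⟩
  · apply clean_side hq hcard (hKF D hD) (hexL D hD)
    intro c hc
    have h1 := hkey _ (hL D hD c hc)
    rw [F_cons e he0 c D] at h1
    have h2 := T_le he0 hsup hc
    have h3 : F e (c :: D).reverse ≤ F e D.reverse + 0.05 := by
      have e1 : (c :: D).reverse = D.reverse ++ [c] := by simp
      have hk := hc.reverse
      rw [e1] at hk ⊢
      exact F_append_le he0 hsup hle hn0 hk (by have := hlen D hD; simp; omega)
    linarith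
  · apply clean_side hq hcard (hKF D hD).reverse
    · obtain ⟨c, hc⟩ := hexR D hD
      refine ⟨c, ?_⟩
      have e1 : c :: D.reverse = (D ++ [c]).reverse := by simp
      rw [e1]
      exact hc.reverse
    · intro c hc
      have e1 : c :: D.reverse = (D ++ [c]).reverse := by simp
      have hc' : KF e (D ++ [c]) := by
        rw [e1, KF_reverse_iff] at hc
        exact hc
      have h1 := hkey _ (hR D hD c hc')
      rw [← e1, F_cons e he0 c D.reverse] at h1
      have h2 := T_le he0 hsup hc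
      have h3 : F e (D ++ [c]) ≤ F e D + 0.05 :=
        F_append_le he0 hsup hle hn0 hc' (by have := hlen D hD; omega)
      linarith

end Pool.Agent.Helper25.PF
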