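import Mathlib
import Pool.Agent.Helper25.PFDefs
import Pool.Agent.Helper25.PFBase
import Pool.Agent.Helper25.PFPot
import Pool.Agent.Helper25.PFAsm

set_option autoImplicit false

namespace Pool.Agent.Helper25.PF

/-- The largest natural number smaller than `κ p` (and `0` for `p = 0`). -/
noncomputable def ee (κ : ℝ) (p : ℕ) : ℕ := ⌈κ * p⌉₊ - 1

lemma ee_zero (κ : ℝ) : ee κ 0 = 0 := by simp [ee]

lemma le_ee_iff {κ : ℝ} (hκ : 0 < κ) {p : ℕ} (hp : 1 ≤ p) (s : ℕ) :
    s ≤ ee κ p ↔ (s : ℝ) < κ * p := by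
  have h1 : 0 < κ * p := mul_pos hκ (by exact_mod_cast hp)
  have h2 : 0 < ⌈κ * p⌉₊ := Nat.ceil_pos.2 h1
  rw [← Nat.lt_ceil, ee]
  omega

lemma ee_lt {κ : ℝ} (hκ : 0 < κ) {p : ℕ} (hp : 1 ≤ p) : (ee κ p : ℝ) < κ * p :=
  (le_ee_iff hκ hp _).1 le_rfl

lemma le_ee_succ {κ : ℝ} (hκ : 0 < κ) (p : ℕ) : κ * p ≤ (ee κ p : ℝ) + 1 := by
  rcases Nat.eq_zero_or_pos p with rfl | hp
  · simp [ee_zero]
  · have h := mt (le_ee_iff hκ hp (ee κ p + 1)).2 (by omega)
    push_cast at h
    linarith

lemma ee_sup {κ : ℝ} (hκ : 0 < κ) (a b : ℕ) : ee κ a + ee κ b ≤ ee κ (a + b) := by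
  rcases Nat.eq_zero_or_pos a with rfl | ha
  · simp [ee_zero]
  rcases Nat.eq_zero_or_pos b with rfl | hb
  · simp [ee_zero]
  rw [le_ee_iff hκ (by omega)]
  have h1 := ee_lt hκ ha
  have h2 := ee_lt hκ hb
  push_cast
  nlinarith

lemma ee_le {κ : ℝ} (hκ : 0 < κ) (hκ1 : κ < 1) (a : ℕ) : ee κ a ≤ a := by
  rcases Nat.eq_zero_or_pos a with rfl | ha
  · simp [ee_zero]
  have h1 := ee_lt hκ ha
  have h2 : (0 : ℝ) < a := by exact_mod_cast ha
  have h3 : (ee κ a : ℝ) ≤ a := by nlinarith
  exact_mod_cast h3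

lemma ee_mono {κ : ℝ} (hκ : 0 < κ) (a b : ℕ) (hab : a ≤ b) : ee κ a ≤ ee κ b := by
  have := ee_sup hκ a (b - a)
  rw [Nat.add_sub_cancel' hab] at this
  omega

lemma ee_succ_le {κ : ℝ} (hκ : 0 < κ) (hκ1 : κ < 1) (p : ℕ) : ee κ (p + 1) ≤ ee κ p + 1 := by
  have h1 := ee_lt hκ (p := p + 1) (by omega)
  have h2 := le_ee_succ hκ p
  push_cast at h1
  have h3 : (ee κ (p + 1) : ℝ) < ee κ p + 2 := by nlinarith
  have h4 : ee κ (p + 1) < ee κ p + 2 := by exact_mod_cast h3
  omega

lemma ee_eq_zero {κ : ℝ} (hκ : 0 < κ) (p : ℕ) (h : ee κ p = 0) : p ≤ ⌊1 / κ⌋₊ := by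
  apply Nat.le_floor
  have := le_ee_succ hκ p
  rw [h] at this
  rw [le_div_iff₀ hκ]
  push_cast at this
  linarith

lemma ee_large {κ : ℝ} (hκ : 0 < κ) (m : ℕ) : ∃ n, m ≤ ee κ n := by
  obtain ⟨n, hn⟩ := exists_nat_ge ((m + 1 : ℝ) / κ)
  refine ⟨n, ?_⟩
  have h1 : (m + 1 : ℝ) ≤ κ * n := by
    rw [div_le_iff₀ hκ] at hn
    linarith
  have h2 := le_ee_succ hκ n
  have h3 : (m : ℝ) ≤ ee κ n := by linarith
  exact_mod_cast h3

lemma ee_surj {κ : ℝ} (hκ : 0 < κ) (hκ1 : κ < 1) (m : ℕ) : ∃ n, ee κ n = m := by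
  induction m with
  | zero => exact ⟨0, ee_zero κ⟩
  | succ m ih =>
    classical
    have hex := ee_large hκ (m + 1)
    refine ⟨Nat.find hex, ?_⟩
    have h1 := Nat.find_spec hex
    have h0 : 0 < Nat.find hex := by
      rcases Nat.eq_zero_or_pos (Nat.find hex) with h | h
      · rw [h, ee_zero] at h1
        omega
      · exact h
    have h2 := Nat.find_min hex (m := Nat.find hex - 1) (by omega)
    have h3 := ee_succ_le hκ hκ1 (Nat.find hex - 1)
    rw [Nat.sub_add_cancel h0] at h3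
    omega

/-! ### Translation of the definitions -/

lemma sInf_period {α : Type} (u : List α) (hu : u ≠ []) :
    IsPeriod u (sInf {p | IsPeriod u p}) ∧ ∀ p, IsPeriod u p → sInf {p | IsPeriod u p} ≤ p := by
  have hne : {p | IsPeriod u p}.Nonempty := by
    refine ⟨u.length, ?_, ?_⟩
    · exact List.length_pos_iff.2 hu
    · intro i hi; omega
  exact ⟨Nat.sInf_mem hne, fun p hp => Nat.sInf_le hp⟩

lemma powerFree_iff {α : Type} {k : ℝ} (hk : 1 < k) (w : List α) :
    PowerFree k w ↔ KF (ee (k - 1)) w := by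
  have hκ : 0 < k - 1 := by linarith
  constructor
  · intro h p hp s hs
    by_contra hcon
    push Not at hcon
    set u := (w.drop s).take (p + (ee (k - 1) p + 1)) with hu
    have hul : u.length = p + (ee (k - 1) p + 1) := by
      rw [hu, List.length_take, List.length_drop]
      omega
    have hne : u ≠ [] := by
      intro h0
      rw [h0] at hul
      simp at hul
    have hinf : u <:+: w := (List.take_prefix _ _).isInfix.trans (List.drop_suffix _ _).isInfix
    have hper : IsPeriod u p := by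
      refine ⟨hp, ?_⟩
      intro i hi
      rw [hul] at hi
      rw [hu, List.getElem?_take_of_lt (by omega), List.getElem?_take_of_lt (by omega),
        List.getElem?_drop, List.getElem?_drop, hcon i (by omega)]
      congr 1
      omega
    have h1 := h u hne hinf
    obtain ⟨h2, h3⟩ := sInf_period u hne
    have h4 := h3 p hper
    have h5 := h2.1
    unfold exponent at h1
    have h5' : (1 : ℝ) ≤ (sInf {p | IsPeriod u p} : ℕ) := by exact_mod_cast h5
    have h4' : ((sInf {p | IsPeriod u p} : ℕ) : ℝ) ≤ p := by exact_mod_cast h4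
    rw [div_lt_iff₀ (by linarith), hul] at h1
    have h6 := le_ee_succ hκ p
    push_cast at h1
    nlinarith
  · intro h u hne hinf
    obtain ⟨h2, h3⟩ := sInf_period u hne
    set p := sInf {p | IsPeriod u p} with hp
    by_contra hcon
    push Not at hcon
    unfold exponent at hcon
    rw [← hp] at hcon
    have h5 : (1 : ℝ) ≤ p := by exact_mod_cast h2.1
    rw [le_div_iff₀ (by linarith)] at hcon
    have h6 : p + (ee (k - 1) p + 1) ≤ u.length := by
      have h7 := ee_lt hκ h2.1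
      have h8 : ((p + ee (k - 1) p : ℕ) : ℝ) < u.length := by
        push_cast
        linarith
      have h9 : p + ee (k - 1) p < u.length := by exact_mod_cast h8
      omega
    obtain ⟨i, hi, hni⟩ := (h.of_infix hinf) p h2.1 0 (by omega)
    apply hni
    have := h2.2 i (by omega)
    rw [show 0 + i = i by omega, show 0 + p + i = i + p by omega]
    exact this

/-! ### Lengths of the blocks -/

lemma exists_lengths {κ : ℝ} (hκ : 0 < κ) (hκ1 : κ < 1) (d1 d2 : ℕ) :
    ∃ h P0 : ℕ, h + 2 * d1 + 1 ≤ P0 ∧ ee κ P0 = h + d2 ∧ 2 * d1 ≤ ee κ (P0 - h - d1) ∧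
      2 * d1 ≤ ee κ h ∧ d1 + 1 ≤ h ∧
      (∀ δ, P0 < 2 * δ → δ ≤ P0 → h + d1 < δ + (ee κ (P0 - δ) + 1)) := by
  have hκ' : 0 < 1 - κ := by linarith
  set M : ℝ := (2 * d1 + 1) / κ with hM
  have hM0 : (2 * d1 + 1 : ℝ) ≤ M := by
    rw [hM, le_div_iff₀ hκ]
    have : (0 : ℝ) ≤ d1 := Nat.cast_nonneg _
    nlinarith
  have hMk : κ * M = 2 * d1 + 1 := by
    rw [hM]; field_simp
  obtain ⟨h, hh⟩ := exists_nat_ge (M + (d1 + 1) + κ * (d1 + M + 2) / (1 - κ) + 2 * d1 / (1 - κ))
  obtain ⟨P0, hP0⟩ := ee_surj hκ hκ1 (h + d2)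
  have hd0 : (0 : ℝ) ≤ d1 := Nat.cast_nonneg _
  have hd20 : (0 : ℝ) ≤ d2 := Nat.cast_nonneg _
  have t1 : 0 ≤ κ * (d1 + M + 2) / (1 - κ) := by positivity
  have t2 : 0 ≤ 2 * d1 / (1 - κ) := by positivity
  have a1 : (d1 + 1 : ℝ) ≤ h := by linarith
  have a2 : M ≤ h := by linarith
  have a3 : κ * (d1 + M + 2) ≤ (1 - κ) * h := by
    have : κ * (d1 + M + 2) / (1 - κ) ≤ h := by linarith
    rw [div_le_iff₀ hκ'] at this
    linarith
  have a4 : 2 * d1 ≤ (1 - κ) * h := by
    have : 2 * d1 / (1 - κ) ≤ h := by linarith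
    rw [div_le_iff₀ hκ'] at this
    linarith
  have hP0pos : 1 ≤ P0 := by
    rcases Nat.eq_zero_or_pos P0 with h0 | h0
    · rw [h0, ee_zero] at hP0
      have : (h : ℝ) = 0 := by
        have : h = 0 := by omega
        rw [this]; simp
      linarith
    · exact h0
  have b1 : (h + d2 : ℝ) < κ * P0 := by
    have := ee_lt hκ hP0pos
    rw [hP0] at this
    push_cast at this
    exact this
  -- P0 > h / κ
  have b2 : (h : ℝ) + (d1 + M + 2) ≤ P0 := by
    have : κ * (h + (d1 + M + 2)) ≤ κ * P0 := by nlinarith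
    exact le_of_mul_le_mul_left this hκ
  have b3 : h + 3 * d1 + 3 ≤ P0 := by
    have : (h + 3 * d1 + 3 : ℝ) ≤ P0 := by linarith
    exact_mod_cast this
  refine ⟨h, P0, by omega, hP0, ?_, ?_, ?_, ?_⟩
  · rw [le_ee_iff hκ (by omega)]
    have c1 : ((P0 - h - d1 : ℕ) : ℝ) = P0 - h - d1 := by
      rw [Nat.cast_sub (by omega), Nat.cast_sub (by omega)]
    rw [c1]
    push_cast
    nlinarith
  · have hpos : 1 ≤ h := by
      have : (1 : ℝ) ≤ h := by linarith
      exact_mod_cast this
    rw [le_ee_iff hκ hpos]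
    push_cast
    nlinarith
  · exact_mod_cast a1
  · intro δ h1 h2
    have c1 := le_ee_succ hκ (P0 - δ)
    rw [Nat.cast_sub h2] at c1
    have c2 : (P0 : ℝ) < 2 * δ := by exact_mod_cast h1
    have c3 : (h : ℝ) ≤ P0 := by linarith
    have c4 : ((h + d1 : ℕ) : ℝ) < ((δ + (ee κ (P0 - δ) + 1) : ℕ) : ℝ) := by
      push_cast
      nlinarith
    exact_mod_cast c4

/-! ### The main argument -/

theorem main_KF {α : Type} [Fintype α] {κ : ℝ} (hκ : 0 < κ) (hκ1 : κ < 1)
    (hcard : 2 * ⌊1 / κ⌋₊ + 10 ≤ Fintype.card α) (w : List α) (hw : KF (ee κ) w) :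
    ∃ u, KF (ee κ) u ∧ w <:+: u ∧ ∀ a b, ¬ KF (ee κ) (a :: (u ++ [b])) := by
  classical
  by_contra hcon
  push Not at hcon
  set e := ee κ with he
  set q := ⌊1 / κ⌋₊ with hq
  have he0 : e 0 = 0 := ee_zero κ
  have hsup := ee_sup hκ
  have hle := ee_le hκ hκ1
  have hmono := ee_mono hκ
  have hqq : ∀ p, e p = 0 → p ≤ q := fun p hp => ee_eq_zero hκ p hp
  have hq1 : 1 ≤ q := by
    rw [hq]
    apply Nat.le_floor
    rw [le_div_iff₀ hκ]
    push_cast
    linarith
  obtain ⟨n0, hn0⟩ := ee_large hκ 80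
  -- extension properties
  have hextR : ∀ u, KF e u → w <:+: u → ∃ c, KF e (u ++ [c]) := by
    intro u hu hwu
    obtain ⟨a, b, hab⟩ := hcon u hu hwu
    exact ⟨b, hab.of_infix ⟨[a], [], by simp⟩⟩
  have hextL : ∀ u, KF e u → w <:+: u → ∃ c, KF e (c :: u) := by
    intro u hu hwu
    obtain ⟨a, b, hab⟩ := hcon u hu hwu
    exact ⟨a, hab.of_infix ⟨[], [b], by simp⟩⟩
  -- a word with the fewest right extensions
  set N : List α → ℕ := fun u => (Finset.univ.filter (fun c => KF e (u ++ [c]))).card with hN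
  obtain ⟨z, ⟨hz, hwz⟩, hzmin⟩ : ∃ z ∈ {u : List α | KF e u ∧ w <:+: u},
      ∀ u ∈ {u : List α | KF e u ∧ w <:+: u}, N z ≤ N u := by
    have hne : (N '' {u : List α | KF e u ∧ w <:+: u}).Nonempty :=
      ⟨N w, w, ⟨hw, List.infix_refl _⟩, rfl⟩
    obtain ⟨z, hz, hzm⟩ := Nat.sInf_mem hne
    refine ⟨z, hz, ?_⟩
    intro u hu
    rw [hzm]
    exact Nat.sInf_le ⟨u, hu, rfl⟩
  obtain ⟨b, hb⟩ := hextR z hz hwz
  -- the set of long words containing `z b`
  set S : Set (List α) := {D | KF e D ∧ (z ++ [b]) <:+: D ∧ 2 * n0 ≤ D.length} with hS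
  have hwzb : w <:+: z ++ [b] := hwz.trans ⟨[], [b], by simp⟩
  have hSne : S.Nonempty := by
    have : ∀ n, ∃ D, KF e D ∧ (z ++ [b]) <:+: D ∧ n ≤ D.length := by
      intro n
      induction n with
      | zero => exact ⟨z ++ [b], hb, List.infix_refl _, Nat.zero_le _⟩
      | succ n ih =>
        obtain ⟨D, h1, h2, h3⟩ := ih
        obtain ⟨c, hc⟩ := hextR D h1 (hwzb.trans h2)
        exact ⟨D ++ [c], hc, h2.trans ⟨[], [c], by simp⟩, by simp; omega⟩
    obtain ⟨D, h1, h2, h3⟩ := this (2 * n0)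
    exact ⟨D, h1, h2, h3⟩
  obtain ⟨D, ⟨hD, ⟨x0, v0, hxv⟩, hDlen⟩, hDL, hDR⟩ := cleaning he0 hsup hle hn0 hqq
    (by omega : q + 11 ≤ Fintype.card α) S hSne (fun D hD => hD.1) (fun D hD => hD.2.2)
    (fun D hD => hextR D hD.1 (hwzb.trans hD.2.1))
    (fun D hD c hc => ⟨hc, hD.2.1.trans ⟨[], [c], by simp⟩, by
      have := hD.2.2
      simp only [List.length_append, List.length_singleton]
      omega⟩)
    (fun D hD => hextL D hD.1 (hwzb.trans hD.2.1))
    (fun D hD c hc => ⟨hc, hD.2.1.trans ⟨[c], [], by simp⟩, by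
      have := hD.2.2
      simp only [List.length_cons]
      omega⟩)
  -- disjoint sets of letters
  obtain ⟨S1, hS1, hS1c⟩ := Finset.exists_subset_card_eq
    (s := (Finset.univ : Finset α)) (n := q + 5) (by rw [Finset.card_univ]; omega)
  set S2 : Finset α := Finset.univ \ S1 with hS2
  have hS2c : q + 5 ≤ S2.card := by
    rw [hS2, Finset.card_sdiff_of_subset (Finset.subset_univ _), Finset.card_univ]
    omega
  set d1 := D.length with hd1
  set d2 := (x0 ++ z).length with hd2
  have hDeq : D = (x0 ++ z) ++ (b :: v0) := by rw [← hxv]; simp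
  have hd21 : d1 = d2 + (1 + v0.length) := by
    rw [hd1, hDeq, List.length_append, List.length_cons, ← hd2]
    omega
  obtain ⟨h, P0, l1, l2, l3, l4, l5, l6⟩ := exists_lengths hκ hκ1 d1 d2
  rw [← he] at l2 l3 l4 l6
  obtain ⟨x, v, hxl, hvl, hxS, hvS, hk, -, -⟩ := growth he0 hsup hle hn0 hqq hD hDlen hDL hDR
    S1 S2 (by omega) hS2c (h + P0)
  -- truncate
  set X := x.drop P0 with hX
  set V := v.take (P0 - h - d1) with hV
  have hXl : X.length = h := by rw [hX, List.length_drop, hxl]; omega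
  have hVl : V.length = P0 - h - d1 := by rw [hV, List.length_take, hvl]; omega
  set Y := X ++ D ++ V with hY
  have hYl : Y.length = P0 := by
    rw [hY, List.length_append, List.length_append, hXl, hVl]
    omega
  have hYk : KF e Y := by
    apply hk.of_infix
    refine ⟨x.take P0, v.drop (P0 - h - d1), ?_⟩
    rw [hY, hX, hV]
    calc x.take P0 ++ (x.drop P0 ++ D ++ v.take (P0 - h - d1)) ++ v.drop (P0 - h - d1)
        = (x.take P0 ++ x.drop P0) ++ D ++ (v.take (P0 - h - d1) ++ v.drop (P0 - h - d1)) := by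
          simp only [List.append_assoc]
      _ = _ := by rw [List.take_append_drop, List.take_append_drop]
  set W := X ++ (x0 ++ z) with hW
  have hWl : W.length = h + d2 := by rw [hW, List.length_append, hXl]
  have hYW : Y = W ++ ((b :: v0) ++ V) := by
    rw [hY, hW, hDeq]
    simp only [List.append_assoc]
  set U := Y ++ W with hU
  have hUl : U.length = P0 + (h + d2) := by rw [hU, List.length_append, hYl, hWl]
  have hXS : ∀ a ∈ X, a ∈ S2 := fun a ha => hxS a (List.mem_of_mem_drop (hX ▸ ha))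
  have hVS : ∀ a ∈ V, a ∈ S1 := fun a ha => hvS a (List.mem_of_mem_take (hV ▸ ha))
  clear_value U W Y V X
  have hUW : ∀ i, U[P0 + i]? = W[i]? := by
    intro i
    rw [hU, List.getElem?_append_right (by omega), hYl, Nat.add_sub_cancel_left]
  have hYWi : ∀ i < h + d2, Y[i]? = W[i]? := by
    intro i hi
    rw [hYW, List.getElem?_append_left (by omega)]
  have hUk : KF e U := by
    have hasm := assembly (β := Option α) e hmono (fun o => ∃ a ∈ S1, o = some a)
      (fun i => Y[i]?) P0 (h + d2) h d1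
      (by
        intro i hi
        rintro ⟨a, ha, hYa⟩
        change Y[i]? = some a at hYa
        rw [hY, List.append_assoc, List.getElem?_append_left (by omega)] at hYa
        have h1 : a ∈ X := List.mem_of_getElem? hYa
        have h2 := hXS a h1
        rw [hS2, Finset.mem_sdiff] at h2
        exact h2.2 ha)
      (by
        intro i hi1 hi2
        rw [hY, List.getElem?_append_right (by rw [List.length_append, hXl]; omega)]
        have hlt : i - (X ++ D).length < V.length := by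
          rw [List.length_append, hXl, hVl]
          omega
        rw [List.getElem?_eq_getElem hlt]
        refine ⟨_, ?_, rfl⟩
        exact hVS _ (List.getElem_mem hlt))
      (by
        intro p hp s hs
        exact hYk p hp s (by rw [hYl]; exact hs))
      (by omega) (by omega) l2 (by omega) l3 l4 l5 l6 (fun i => U[i]?)
      (by
        intro i hi
        rw [hU, List.getElem?_append_left (by omega)])
      (by
        intro i hi
        rw [hUW, hYWi i hi])
    intro p hp s hs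
    exact hasm p hp s (by rw [← hUl]; exact hs)
  have hzU : z <:+ U := by
    rw [hU, hW]
    refine ⟨Y ++ (X ++ x0), ?_⟩
    simp only [List.append_assoc]
  have hwU : w <:+: U := hwz.trans hzU.isInfix
  -- fewer right extensions
  have hlt : N U < N z := by
    apply Finset.card_lt_card
    rw [Finset.ssubset_iff_subset_ne]
    have hsub : Finset.univ.filter (fun c => KF e (U ++ [c])) ⊆
        Finset.univ.filter (fun c => KF e (z ++ [c])) := by
      intro c hc
      rw [Finset.mem_filter] at hc ⊢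
      refine ⟨hc.1, hc.2.of_infix ?_⟩
      obtain ⟨t, ht⟩ := hzU
      refine ⟨t, [], ?_⟩
      rw [← ht]
      simp
    refine ⟨hsub, ?_⟩
    intro heq
    have hbz : b ∈ Finset.univ.filter (fun c => KF e (z ++ [c])) := by
      rw [Finset.mem_filter]
      exact ⟨Finset.mem_univ _, hb⟩
    rw [← heq, Finset.mem_filter] at hbz
    obtain ⟨i, hi, hne⟩ := hbz.2 P0 (by omega) 0 (by
      rw [l2, List.length_append, hUl, List.length_singleton]
      omega)
    apply hne
    rw [l2] at hi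
    rw [Nat.zero_add, Nat.zero_add]
    have hYi : ∀ j < P0, (U ++ [b])[j]? = Y[j]? := by
      intro j hj
      rw [List.getElem?_append_left (by omega), hU, List.getElem?_append_left (by omega)]
    rw [hYi i (by omega)]
    rcases lt_or_eq_of_le hi with hlt | heq'
    · rw [List.getElem?_append_left (by omega), hUW, hYWi i hlt]
    · have h1 : (U ++ [b])[P0 + i]? = some b := by
        rw [List.getElem?_append_right (by omega), hUl, heq', Nat.sub_self]
        rfl
      have h2 : Y[i]? = some b := by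
        rw [hYW, List.getElem?_append_right (by omega), hWl, heq', Nat.sub_self]
        rfl
      rw [h1, h2]
  have := hzmin U ⟨hUk, hwU⟩
  omega

theorem main {α : Type} [Fintype α] {k : ℝ} (h1 : 1 < k) (h2 : k < 2)
    (hcard : 2 * ⌊1 / (k - 1)⌋₊ + 10 ≤ Fintype.card α) (w : List α) (hw : PowerFree k w) :
    ∃ u, MaximalPowerFree k u ∧ w <:+: u := by
  rw [powerFree_iff h1] at hw
  obtain ⟨u, hu1, hu2, hu3⟩ := main_KF (κ := k - 1) (by linarith) (by linarith) hcard w hw
  refine ⟨u, ⟨(powerFree_iff h1 u).2 hu1, ?_⟩, hu2⟩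
  intro a b hab
  rw [powerFree_iff h1] at hab
  exact hu3 a b hab

end Pool.Agent.Helper25.PF
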