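import Mathlib
import Pool.Agent.Helper25.PFAsm
import Pool.Agent.Helper25.PFMain

set_option autoImplicit false

namespace Pool.Agent.Helper25.PF

/-- Assembly by types of neighbouring letters. -/
lemma assembly2 {γ : Type} (e : ℕ → ℕ) (hmono : ∀ a b, a ≤ b → e a ≤ e b) (τ : γ → ℕ)
    (u : ℕ → γ) (P0 m h d1 : ℕ)
    (hper : ∀ i < m, u (P0 + i) = u i)
    (hτ : ∀ i < P0 + m, τ (u i) < 3)
    (hX : ∀ i, i + 1 < h → τ (u i) = (τ (u (i + 1)) + 1) % 3)
    (hV : ∀ i, h + d1 ≤ i → i + 1 < P0 → τ (u (i + 1)) = (τ (u i) + 1) % 3)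
    (hJ : τ (u (P0 - 1)) = τ (u P0))
    (hKF : ∀ p, 1 ≤ p → ∀ s, s + p + (e p + 1) ≤ P0 → ∃ i, i ≤ e p ∧ u (s + i) ≠ u (s + p + i))
    (hclose : ∀ p, 1 ≤ p → e p = 0 → ∀ s, s + p < P0 + m → u s ≠ u (s + p))
    (hm : m ≤ h + d1) (hmh : h ≤ m) (hP : e P0 = m)
    (H1 : h + 2 * d1 + 4 ≤ P0) (H2 : 2 * d1 + 3 ≤ e (P0 - h - d1)) (H3 : 2 * d1 + 3 ≤ e (h - 1))
    (H4 : d1 + 3 ≤ h)
    (H5 : ∀ δ, P0 < 2 * δ → δ ≤ P0 → h + d1 < δ + e (P0 - δ)) :
    ∀ p, 1 ≤ p → ∀ s, s + p + (e p + 1) ≤ P0 + m → ∃ i, i ≤ e p ∧ u (s + i) ≠ u (s + p + i) := by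
  intro p hp s hs
  rcases Nat.eq_zero_or_pos (e p) with he | he
  · refine ⟨0, Nat.zero_le _, ?_⟩
    have := hclose p hp he s (by omega)
    simpa using this
  have hmono' : ∀ a b, a ≤ b → e a - 1 ≤ e b - 1 := fun a b hab => Nat.sub_le_sub_right (hmono a b hab) 1
  have key := assembly (β := γ × γ) (fun p => e p - 1) hmono'
    (fun pr => ¬ (τ pr.1 = (τ pr.2 + 1) % 3)) (fun i => (u i, u (i + 1))) P0 (m - 1) (h - 1) (d1 + 1)
    (by
      intro i hi
      simp only [not_not]
      exact hX i (by omega))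
    (by
      intro i hi1 hi2
      simp only
      rcases lt_or_ge (i + 1) P0 with h1 | h1
      · have h2 := hV i (by omega) h1
        have h3 := hτ i (by omega)
        have h4 := hτ (i + 1) (by omega)
        omega
      · have h2 : i = P0 - 1 := by omega
        have h3 : i + 1 = P0 := by omega
        rw [h3, h2, hJ]
        have h4 := hτ P0 (by omega)
        omega)
    (by
      intro p hp s hs
      rcases Nat.eq_zero_or_pos (e p) with he | he
      · refine ⟨0, Nat.zero_le _, ?_⟩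
        have := hclose p hp he s (by omega)
        intro heq
        rw [Prod.mk.injEq] at heq
        exact this (by simpa using heq.1)
      · by_contra hcon
        push Not at hcon
        rcases Nat.lt_or_ge (s + p + e p) P0 with h1 | h1
        · obtain ⟨i, hi, hne⟩ := hKF p hp s (by omega)
          apply hne
          rcases Nat.lt_or_ge i (e p) with h2 | h2
          · have := hcon i (by omega)
            rw [Prod.mk.injEq] at this
            exact this.1
          · have := hcon (i - 1) (by omega)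
            rw [Prod.mk.injEq] at this
            have h3 := this.2
            rw [show s + (i - 1) + 1 = s + i by omega,
              show s + p + (i - 1) + 1 = s + p + i by omega] at h3
            exact h3
        · have h2 := hcon (e p - 1) le_rfl
          rw [Prod.mk.injEq] at h2
          obtain ⟨h3, h4⟩ := h2
          have h5 : s + p + (e p - 1) = P0 - 1 := by omega
          have h6 : s + p + (e p - 1) + 1 = P0 := by omega
          rw [h5] at h3
          rw [h6] at h4
          have h7 : τ (u (s + (e p - 1))) = τ (u (s + (e p - 1) + 1)) := by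
            rw [h3, h4, hJ]
          set r := s + (e p - 1) with hr
          have h8 := hτ r (by omega)
          have h9 : ¬ (r + 1 < h) := by
            intro h10
            have := hX r h10
            omega
          have h10 : ¬ (h + d1 ≤ r) := by
            intro h11
            have := hV r h11 (by omega)
            omega
          have h11 : e (P0 - h - d1) ≤ e p := hmono _ _ (by omega)
          have h12 := hcon (e p - 1 - (d1 + 2)) (by omega)
          rw [Prod.mk.injEq] at h12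
          obtain ⟨h13, h14⟩ := h12
          have h15 := hX (s + (e p - 1 - (d1 + 2))) (by omega)
          have h16 := hV (s + p + (e p - 1 - (d1 + 2))) (by omega) (by omega)
          rw [h13, h14] at h15
          have h17 := hτ (s + p + (e p - 1 - (d1 + 2))) (by omega)
          have h18 := hτ (s + p + (e p - 1 - (d1 + 2)) + 1) (by omega)
          omega)
    (by omega) (by omega) (by omega) (by omega)
    (by
      have : P0 - (h - 1) - (d1 + 1) = P0 - h - d1 := by omega
      rw [this]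
      omega)
    (by omega) (by omega)
    (by
      intro δ h1 h2
      have := H5 δ h1 h2
      omega)
    (fun i => (u i, u (i + 1))) (fun i _ => rfl)
    (by
      intro i hi
      rw [hper i (by omega), show P0 + i + 1 = P0 + (i + 1) by ring, hper (i + 1) (by omega)])
    p hp s (by omega)
  obtain ⟨i, hi, hne⟩ := key
  by_cases h1 : u (s + i) = u (s + p + i)
  · refine ⟨i + 1, by omega, ?_⟩
    intro h2
    apply hne
    rw [Prod.mk.injEq]
    exact ⟨h1, h2⟩
  · exact ⟨i, by omega, h1⟩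

/-- Choice of the lengths. -/
lemma exists_lengths2 {κ : ℝ} (hκ : 0 < κ) (hκ1 : κ < 1) (N d2 M : ℕ) (hN : 1 ≤ N) :
    ∃ w P0 j : ℕ, w = d2 + N * j ∧ ee κ P0 = w ∧ 2 * M ≤ w ∧ w + M ≤ P0 ∧
      M ≤ ee κ (P0 - w - M) ∧ M ≤ ee κ (w - M) ∧
      (∀ δ, P0 < 2 * δ → δ ≤ P0 → w + M < δ + ee κ (P0 - δ)) := by
  have hκ' : 0 < 1 - κ := by linarith
  have hM0 : (0 : ℝ) ≤ M := Nat.cast_nonneg _
  set A : ℝ := ((M : ℝ) + 1) / κ + M + 1 with hA
  have hA0 : (M : ℝ) + 1 ≤ ((M : ℝ) + 1) / κ := by
    rw [le_div_iff₀ hκ]; nlinarith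
  have hAκ : κ * ((((M : ℝ) + 1) / κ)) = M + 1 := by field_simp
  obtain ⟨j, hj⟩ := exists_nat_ge (4 * A / (1 - κ))
  rw [div_le_iff₀ hκ'] at hj
  obtain ⟨P0, hP0⟩ := ee_surj hκ hκ1 (d2 + N * j)
  set w := d2 + N * j with hw
  have hwj : (j : ℝ) ≤ w := by
    rw [hw]
    push_cast
    have h1 : (1 : ℝ) ≤ N := by exact_mod_cast hN
    have h2 : (0 : ℝ) ≤ j := Nat.cast_nonneg _
    have h3 : (0 : ℝ) ≤ d2 := Nat.cast_nonneg _
    nlinarith
  have hAw : 4 * A ≤ (1 - κ) * w := by nlinarith
  have hw0 : (0 : ℝ) < w := by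
    by_contra hneg
    push Not at hneg
    have : (w : ℝ) = 0 := le_antisymm hneg (Nat.cast_nonneg _)
    rw [this] at hAw
    linarith
  have hAw2 : 4 * A ≤ w := by nlinarith
  have hP0pos : 1 ≤ P0 := by
    rcases Nat.eq_zero_or_pos P0 with h0 | h0
    · rw [h0, ee_zero] at hP0
      rw [← hP0] at hw0
      simp at hw0
    · exact h0
  have b1 : (w : ℝ) < κ * P0 := by
    have := ee_lt hκ hP0pos
    rwa [hP0] at this
  have b2 : (w : ℝ) + (1 - κ) * w ≤ P0 := by
    have h1 : κ * (w + (1 - κ) * w) ≤ κ * P0 := by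
      have : κ * (w + (1 - κ) * w) ≤ w := by nlinarith [sq_nonneg (1 - κ)]
      linarith
    exact le_of_mul_le_mul_left h1 hκ
  have b3 : w + M ≤ P0 := by
    have : (w : ℝ) + M ≤ P0 := by linarith
    exact_mod_cast this
  have b4 : 2 * M ≤ w := by
    have : 2 * (M : ℝ) ≤ w := by linarith
    exact_mod_cast this
  refine ⟨w, P0, j, hw, hP0, b4, b3, ?_, ?_, ?_⟩
  · have c1 := le_ee_succ hκ (P0 - w - M)
    have c2 : ((P0 - w - M : ℕ) : ℝ) = P0 - w - M := by
      rw [Nat.cast_sub (by omega), Nat.cast_sub (by omega)]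
    rw [c2] at c1
    have c3 : ((M : ℝ) + 1) / κ ≤ P0 - w - M := by linarith
    have c4 := mul_le_mul_of_nonneg_left c3 hκ.le
    rw [hAκ] at c4
    have c5 : (M : ℝ) ≤ ee κ (P0 - w - M) := by linarith
    exact_mod_cast c5
  · have c1 := le_ee_succ hκ (w - M)
    have c2 : ((w - M : ℕ) : ℝ) = w - M := by
      rw [Nat.cast_sub (by omega)]
    rw [c2] at c1
    have c3 : ((M : ℝ) + 1) / κ ≤ w - M := by linarith
    have c4 := mul_le_mul_of_nonneg_left c3 hκ.le
    rw [hAκ] at c4
    have c5 : (M : ℝ) ≤ ee κ (w - M) := by linarith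
    exact_mod_cast c5
  · intro δ h1 h2
    have c1 := le_ee_succ hκ (P0 - δ)
    rw [Nat.cast_sub h2] at c1
    have c2 : (P0 : ℝ) < 2 * δ := by exact_mod_cast h1
    have c3 : (w : ℝ) ≤ P0 := by linarith
    have c4 : ((w + M : ℕ) : ℝ) < ((δ + ee κ (P0 - δ) : ℕ) : ℝ) := by
      push_cast
      have c5 : (1 - κ) * w ≤ (1 - κ) * P0 := mul_le_mul_of_nonneg_left c3 hκ'.le
      have c6 : (1 - κ) * P0 ≤ (1 - κ) * (2 * δ) := mul_le_mul_of_nonneg_left c2.le hκ'.le
      have c7 : (δ : ℝ) + κ * (P0 - δ) = κ * P0 + (1 - κ) * δ := by ring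
      linarith
    exact_mod_cast c4

end Pool.Agent.Helper25.PF
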