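import Mathlib
import Pool.Agent.Helper25.PFBase
import Pool.Agent.Helper25.PFPot

set_option autoImplicit false

namespace Pool.Agent.Helper25.PF

variable {α : Type} [DecidableEq α]

/-- The greedy step: if enough letters of `S` do not occur among the first `q` letters of `u`, one
of them can be prepended. -/
lemma step' {e : ℕ → ℕ} (he0 : e 0 = 0) (hsup : ∀ a b, e a + e b ≤ e (a + b)) {q : ℕ}
    (hq : ∀ p, e p = 0 → p ≤ q) {u : List α} (h : KF e u) (S : Finset α)
    (hS : 5 ≤ (S \ (u.take q).toFinset).card) (hF : F e u < 5) :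
    ∃ c ∈ S, KF e (c :: u) ∧ F e (c :: u) ≤ F e u / 5 + 3.77 := by
  set S' := S \ (u.take q).toFinset with hS'
  have hne : S'.Nonempty := by
    rw [← Finset.card_pos]; omega
  obtain ⟨c, hc, hmin⟩ := Finset.exists_min_image S' (fun c => Fc e u c) hne
  have h1 : (S'.card : ℝ) * Fc e u c ≤ F e u := by
    calc (S'.card : ℝ) * Fc e u c = ∑ _x ∈ S', Fc e u c := by
          rw [Finset.sum_const, nsmul_eq_mul]
      _ ≤ ∑ x ∈ S', Fc e u x := Finset.sum_le_sum hmin
      _ ≤ F e u := sum_Fc_le e u S'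
  have hFc0 := Fc_nonneg e u c
  have h2 : 5 * Fc e u c ≤ F e u := by
    have : (5 : ℝ) ≤ S'.card := by exact_mod_cast hS
    nlinarith
  have h3 : Fc e u c < 1 := by linarith
  rw [hS', Finset.mem_sdiff, List.mem_toFinset] at hc
  have hKF : KF e (c :: u) := KF_cons_of_Fc_lt hq h hc.2 h3
  refine ⟨c, hc.1, hKF, ?_⟩
  rw [F_cons e he0]
  have := T_le he0 hsup hKF
  linarith

/-- Words that can be extended on both sides. -/
structure Good (e : ℕ → ℕ) (n0 : ℕ) (D : List α) : Prop where
  kf : KF e D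
  len : 2 * n0 ≤ D.length
  left : F e D ≤ 4.8
  right : F e D.reverse ≤ 4.8

/-- Right step. -/
lemma right_step {e : ℕ → ℕ} (he0 : e 0 = 0) (hsup : ∀ a b, e a + e b ≤ e (a + b))
    (hle : ∀ a, e a ≤ a) {n0 : ℕ} (hn0 : 80 ≤ e n0) {q : ℕ}
    (hq : ∀ p, e p = 0 → p ≤ q) {D : List α} (h : KF e D) (hlen : 2 * n0 ≤ D.length)
    (hR : F e D.reverse < 5) (S : Finset α)
    (hS : 5 ≤ (S \ (D.reverse.take q).toFinset).card) :
    ∃ c ∈ S, KF e (D ++ [c]) ∧ F e (D ++ [c]) ≤ F e D + 0.05 ∧
      F e (D ++ [c]).reverse ≤ F e D.reverse / 5 + 3.77 := by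
  obtain ⟨c, hc, hk, hF⟩ := step' he0 hsup hq h.reverse S hS hR
  have e1 : c :: D.reverse = (D ++ [c]).reverse := by simp
  rw [e1] at hk hF
  rw [KF_reverse_iff] at hk
  exact ⟨c, hc, hk, F_append_le he0 hsup hle hn0 hk (by omega), hF⟩

/-- Left step. -/
lemma left_step {e : ℕ → ℕ} (he0 : e 0 = 0) (hsup : ∀ a b, e a + e b ≤ e (a + b))
    (hle : ∀ a, e a ≤ a) {n0 : ℕ} (hn0 : 80 ≤ e n0) {q : ℕ}
    (hq : ∀ p, e p = 0 → p ≤ q) {D : List α} (h : KF e D) (hlen : 2 * n0 ≤ D.length)
    (hL : F e D < 5) (S : Finset α)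
    (hS : 5 ≤ (S \ (D.take q).toFinset).card) :
    ∃ c ∈ S, KF e (c :: D) ∧ F e (c :: D) ≤ F e D / 5 + 3.77 ∧
      F e (c :: D).reverse ≤ F e D.reverse + 0.05 := by
  obtain ⟨c, hc, hk, hF⟩ := step' he0 hsup hq h S hS hL
  refine ⟨c, hc, hk, hF, ?_⟩
  have e1 : (c :: D).reverse = D.reverse ++ [c] := by simp
  have hk2 := hk.reverse
  rw [e1] at hk2 ⊢
  exact F_append_le he0 hsup hle hn0 hk2 (by simp; omega)

/-- Two-sided growth following prescribed sets of letters. -/
lemma growth_sched {e : ℕ → ℕ} (he0 : e 0 = 0) (hsup : ∀ a b, e a + e b ≤ e (a + b))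
    (hle : ∀ a, e a ≤ a) {n0 : ℕ} (hn0 : 80 ≤ e n0) {q : ℕ}
    (hq : ∀ p, e p = 0 → p ≤ q) {D : List α} (hD : Good e n0 D) (hqD : q ≤ D.length)
    (S1 S2 : ℕ → Finset α) (T : ℕ)
    (hS1 : ∀ t < T, ∀ v : List α, v.length = t → (∀ i a, v[i]? = some a → a ∈ S1 i) →
      5 ≤ (S1 t \ ((v.reverse ++ D.reverse).take q).toFinset).card)
    (hS2 : ∀ t < T, ∀ y : List α, y.length = t → (∀ i a, y[i]? = some a → a ∈ S2 i) →
      5 ≤ (S2 t \ ((y.reverse ++ D).take q).toFinset).card) :
    ∃ y v : List α, y.length = T ∧ v.length = T ∧ (∀ i a, y[i]? = some a → a ∈ S2 i) ∧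
      (∀ i a, v[i]? = some a → a ∈ S1 i) ∧
      KF e (y.reverse ++ D ++ v) ∧ (1 ≤ T → F e (y.reverse ++ D ++ v) ≤ 4.75) ∧
      F e (y.reverse ++ D ++ v) ≤ 4.8 ∧ F e (y.reverse ++ D ++ v).reverse ≤ 4.8 := by
  induction T with
  | zero =>
    exact ⟨[], [], rfl, rfl, by simp, by simp, by simpa using hD.kf, by simp,
      by simpa using hD.left, by simpa using hD.right⟩
  | succ t ih =>
    obtain ⟨y, v, hy, hv, hyS, hvS, hk, -, hl, hr⟩ := ih
      (fun t' ht' => hS1 t' (by omega)) (fun t' ht' => hS2 t' (by omega))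
    have hlen := hD.len
    obtain ⟨c, hc, hkc, hFc, hFcr⟩ := right_step he0 hsup hle hn0 hq hk
      (by simp only [List.length_append]; omega) (by linarith) (S1 t) (by
        have e1 : (y.reverse ++ D ++ v).reverse = (v.reverse ++ D.reverse) ++ y := by simp
        rw [e1, List.take_append_of_le_length (by simp; omega)]
        exact hS1 t (by omega) v hv hvS)
    have e2 : y.reverse ++ D ++ v ++ [c] = y.reverse ++ D ++ (v ++ [c]) := by simp
    rw [e2] at hkc hFc hFcr
    obtain ⟨a, ha, hka, hFa, hFar⟩ := left_step he0 hsup hle hn0 hq hkc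
      (by simp only [List.length_append]; omega) (by linarith) (S2 t) (by
        rw [List.take_append_of_le_length (by simp; omega)]
        exact hS2 t (by omega) y hy hyS)
    have e3 : a :: (y.reverse ++ D ++ (v ++ [c])) = (y ++ [a]).reverse ++ D ++ (v ++ [c]) := by
      simp
    rw [e3] at hka hFa hFar
    refine ⟨y ++ [a], v ++ [c], by simp [hy], by simp [hv], ?_, ?_, hka, ?_, ?_, ?_⟩
    · intro i b hb
      rcases lt_or_ge i y.length with hi | hi
      · rw [List.getElem?_append_left hi] at hb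
        exact hyS i b hb
      · rw [List.getElem?_append_right hi] at hb
        have h1 : i - y.length = 0 := by
          by_contra hne
          rw [List.getElem?_eq_none (by simp; omega)] at hb
          exact absurd hb (by simp)
        rw [h1] at hb
        have h2 : i = t := by omega
        rw [h2]
        simp at hb
        rw [← hb]
        exact ha
    · intro i b hb
      rcases lt_or_ge i v.length with hi | hi
      · rw [List.getElem?_append_left hi] at hb
        exact hvS i b hb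
      · rw [List.getElem?_append_right hi] at hb
        have h1 : i - v.length = 0 := by
          by_contra hne
          rw [List.getElem?_eq_none (by simp; omega)] at hb
          exact absurd hb (by simp)
        rw [h1] at hb
        have h2 : i = t := by omega
        rw [h2]
        simp at hb
        rw [← hb]
        exact hc
    · intro _
      linarith
    · linarith
    · linarith

end Pool.Agent.Helper25.PF
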