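import Mathlib

set_option autoImplicit false

namespace Pool.Agent.Helper25.PF

variable {α : Type} [DecidableEq α] [Fintype α]

/-- The letters of class `c` and type `τ`. -/
def cell (cls typ : α → ℕ) (c τ : ℕ) : Finset α :=
  Finset.univ.filter (fun a => cls a = c ∧ typ a = τ)

/-- The letters prescribed at time `t`: the class is `(t mod N) / L`, the type is `t + φ mod 3`;
the letters of `E` rest. -/
def Sch (cls typ : α → ℕ) (N L φ : ℕ) (E : Finset α) (t : ℕ) : Finset α :=
  cell cls typ ((t % N) / L) ((t + φ) % 3) \ E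

lemma mem_Sch {cls typ : α → ℕ} {N L φ : ℕ} {E : Finset α} {t : ℕ} {a : α} :
    a ∈ Sch cls typ N L φ E t ↔
      (cls a = (t % N) / L ∧ typ a = (t + φ) % 3) ∧ a ∉ E := by
  simp [Sch, cell]

/-- Alignment: the recently used letters have large class. -/
def Al (q L : ℕ) (cls : α → ℕ) (u : List α) : Prop :=
  ∀ i a, i < q → u[i]? = some a → q ≤ cls a * L + i

lemma same_block {m L q : ℕ} (hL : 1 ≤ L) (hq : q ≤ m * L) {i j : ℕ} (hij : i < j)
    (h : (i % ((m + 1) * L)) / L = (j % ((m + 1) * L)) / L) : j < i + L ∨ i + q < j := by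
  set N := (m + 1) * L with hN
  have hNpos : 0 < N := by positivity
  have hi := Nat.div_add_mod i N
  have hj := Nat.div_add_mod j N
  set x := i % N
  set y := j % N
  set a := i / N
  set b := j / N
  have hx := Nat.div_add_mod x L
  have hy := Nat.div_add_mod y L
  have hxl := Nat.mod_lt x (show 0 < L by omega)
  have hyl := Nat.mod_lt y (show 0 < L by omega)
  rw [h] at hx
  set c := y / L
  have hNe : N = m * L + L := by rw [hN]; ring
  rcases lt_trichotomy a b with hab | hab | hab
  · right
    have h1 : N * (a + 1) ≤ N * b := Nat.mul_le_mul_left _ hab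
    have h2 : N * (a + 1) = N * a + N := by ring
    omega
  · left
    rw [hab] at hi
    omega
  · exfalso
    have h1 : N * (b + 1) ≤ N * a := Nat.mul_le_mul_left _ hab
    have h2 : N * (b + 1) = N * b + N := by ring
    have h3 : y < N := Nat.mod_lt _ hNpos
    omega

/-- Along the schedule at least five letters are always available. -/
lemma sched_card {cls typ : α → ℕ} {m l q φ : ℕ} (hl : 1 ≤ l) (hq : q ≤ m * (3 * l))
    (hcell : ∀ c ≤ m, ∀ τ < 3, l + 5 ≤ (cell cls typ c τ).card)
    {E : Finset α} (hE : ∀ c τ, (cell cls typ c τ ∩ E).card ≤ 1)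
    {u0 : List α} (hAl : Al q (3 * l) cls u0) (t : ℕ) (v : List α) (hv : v.length = t)
    (hvS : ∀ i a, v[i]? = some a → a ∈ Sch cls typ ((m + 1) * (3 * l)) (3 * l) φ E i) :
    5 ≤ (Sch cls typ ((m + 1) * (3 * l)) (3 * l) φ E t \
      ((v.reverse ++ u0).take q).toFinset).card := by
  set N := (m + 1) * (3 * l) with hN
  set L := 3 * l with hL
  have hNpos : 0 < N := by positivity
  have hc : (t % N) / L ≤ m := by
    have h1 : t % N < (m + 1) * L := Nat.mod_lt _ hNpos
    have := (Nat.div_lt_iff_lt_mul (show 0 < L by omega)).2 h1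
    omega
  have h1 : l + 4 ≤ (Sch cls typ N L φ E t).card := by
    have h2 := hcell _ hc _ (Nat.mod_lt (t + φ) (by norm_num : 0 < 3))
    have h3 := Finset.card_sdiff_add_card_inter (cell cls typ ((t % N) / L) ((t + φ) % 3)) E
    have h4 := hE ((t % N) / L) ((t + φ) % 3)
    unfold Sch
    omega
  set B := Sch cls typ N L φ E t ∩ ((v.reverse ++ u0).take q).toFinset with hB
  have hBcard : B.card ≤ l - 1 := by
    rcases Finset.eq_empty_or_nonempty B with hemp | ⟨b0, -⟩
    · rw [hemp]; simp
    have hsub : B ⊆ (Finset.range (l - 1)).image (fun k => (v[t - 3 * (k + 1)]?).getD b0) := by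
      intro a ha
      rw [hB, Finset.mem_inter, List.mem_toFinset, mem_Sch] at ha
      obtain ⟨⟨⟨ha1, ha2⟩, -⟩, ha3⟩ := ha
      rw [List.mem_take_iff_getElem] at ha3
      obtain ⟨r, hr, har⟩ := ha3
      have hrq : r < q := by omega
      have har' : (v.reverse ++ u0)[r]? = some a := by
        rw [List.getElem?_eq_getElem (by omega)]
        rw [har]
      rcases lt_or_ge r t with hrt | hrt
      · rw [List.getElem?_append_left (by simp; omega), List.getElem?_reverse (by omega)] at har'
        rw [hv] at har'
        have h5 := hvS _ _ har'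
        rw [mem_Sch] at h5
        obtain ⟨⟨h6, h7⟩, -⟩ := h5
        have h8 : t - 1 - r < t := by omega
        rcases same_block (m := m) (L := L) (by omega) hq h8 (by rw [← hN, ← h6, ← ha1]) with h9 | h9
        · have h10 : (t + φ) % 3 = (t - 1 - r + φ) % 3 := by rw [← ha2, ← h7]
          have h11 : ∃ k, r + 1 = 3 * (k + 1) := by
            refine ⟨r / 3, ?_⟩
            omega
          obtain ⟨k, hk⟩ := h11
          rw [Finset.mem_image]
          refine ⟨k, ?_, ?_⟩
          · rw [Finset.mem_range]
            omega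
          · have h12 : t - 3 * (k + 1) = t - 1 - r := by omega
            rw [h12, har']
            rfl
        · omega
      · exfalso
        rw [List.getElem?_append_right (by simp; omega)] at har'
        rw [List.length_reverse, hv] at har'
        have h5 := hAl (r - t) a (by omega) har'
        rw [ha1] at h5
        have h6 : (t % N) / L * L ≤ t :=
          (Nat.div_mul_le_self _ _).trans (Nat.mod_le _ _)
        omega
    refine (Finset.card_le_card hsub).trans (Finset.card_image_le.trans ?_)
    rw [Finset.card_range]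
  have h2 := Finset.card_sdiff_add_card_inter (Sch cls typ N L φ E t)
    ((v.reverse ++ u0).take q).toFinset
  rw [← hB] at h2
  omega

/-- Alignment after a full cycle. -/
lemma al_after {cls typ : α → ℕ} {m l q φ : ℕ} (hl : 1 ≤ l) (hq : q ≤ m * (3 * l))
    {E : Finset α} (cls' : α → ℕ) (hcls' : ∀ a ∉ E, cls' a = cls a)
    (u0 v : List α) (hv : v.length = (m + 1) * (3 * l))
    (hvS : ∀ i a, v[i]? = some a → a ∈ Sch cls typ ((m + 1) * (3 * l)) (3 * l) φ E i) :
    Al q (3 * l) cls' (v.reverse ++ u0) := by
  intro r a hr har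
  set N := (m + 1) * (3 * l) with hN
  set L := 3 * l with hL
  have hNe : N = m * L + L := by rw [hN]; ring
  rw [List.getElem?_append_left (by simp; omega), List.getElem?_reverse (by omega), hv] at har
  have h1 := hvS _ _ har
  rw [mem_Sch] at h1
  obtain ⟨⟨h2, -⟩, h3⟩ := h1
  rw [hcls' a h3, h2, Nat.mod_eq_of_lt (by omega)]
  have h4 := Nat.div_add_mod (N - 1 - r) L
  have h5 := Nat.mod_lt (N - 1 - r) (show 0 < L by omega)
  have h6 : (N - 1 - r) / L * L = L * ((N - 1 - r) / L) := by ring
  omega

omit [DecidableEq α] [Fintype α] in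
/-- Alignment after one more letter of the last class. -/
lemma al_cons {cls : α → ℕ} {m L q : ℕ} (hq : q ≤ m * L) {u : List α} (h : Al q L cls u) {a : α}
    (ha : cls a = m) : Al q L cls (a :: u) := by
  intro i b hi hb
  cases i with
  | zero =>
    rw [List.getElem?_cons_zero] at hb
    rw [← Option.some.inj hb, ha]
    omega
  | succ i =>
    rw [List.getElem?_cons_succ] at hb
    have := h i b (by omega) hb
    omega

/-- One more letter after a full cycle. -/
lemma extra_card {cls typ : α → ℕ} {m l q : ℕ} (hl : 1 ≤ l) (hq : q ≤ m * (3 * l))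
    (hcell : ∀ c ≤ m, ∀ τ < 3, l + 5 ≤ (cell cls typ c τ).card)
    (u0 v : List α) (hv : v.length = (m + 1) * (3 * l))
    (hvS : ∀ i a, v[i]? = some a → a ∈ Sch cls typ ((m + 1) * (3 * l)) (3 * l) 0 ∅ i) :
    5 ≤ (cell cls typ m 0 \ ((v.reverse ++ u0).take q).toFinset).card := by
  set N := (m + 1) * (3 * l) with hN
  set L := 3 * l with hL
  have hNe : N = m * L + L := by rw [hN]; ring
  set B := cell cls typ m 0 ∩ ((v.reverse ++ u0).take q).toFinset with hB
  have hBcard : B.card ≤ l := by
    rcases Finset.eq_empty_or_nonempty B with hemp | ⟨b0, -⟩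
    · rw [hemp]; simp
    have hsub : B ⊆ (Finset.range l).image (fun k => (v[N - 3 * (k + 1)]?).getD b0) := by
      intro a ha
      rw [hB, Finset.mem_inter, List.mem_toFinset, cell, Finset.mem_filter] at ha
      obtain ⟨⟨-, ha1, ha2⟩, ha3⟩ := ha
      rw [List.mem_take_iff_getElem] at ha3
      obtain ⟨r, hr, har⟩ := ha3
      have hrq : r < q := by omega
      have har' : (v.reverse ++ u0)[r]? = some a := by
        rw [List.getElem?_eq_getElem (by omega)]
        rw [har]
      rw [List.getElem?_append_left (by simp; omega), List.getElem?_reverse (by omega)] at har'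
      rw [hv] at har'
      have h5 := hvS _ _ har'
      rw [mem_Sch] at h5
      obtain ⟨⟨h6, h7⟩, -⟩ := h5
      rw [ha1, Nat.mod_eq_of_lt (by omega)] at h6
      rw [ha2] at h7
      have h8 : m * L ≤ N - 1 - r := by
        rw [h6]
        exact Nat.div_mul_le_self _ _
      have h9 : N % 3 = 0 := by
        rw [hN]
        have : (m + 1) * (3 * l) = 3 * ((m + 1) * l) := by ring
        omega
      have h11 : ∃ k, r + 1 = 3 * (k + 1) := by
        refine ⟨r / 3, ?_⟩
        omega
      obtain ⟨k, hk⟩ := h11
      rw [Finset.mem_image]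
      refine ⟨k, ?_, ?_⟩
      · rw [Finset.mem_range]
        omega
      · have h12 : N - 3 * (k + 1) = N - 1 - r := by omega
        rw [h12, har']
        rfl
    refine (Finset.card_le_card hsub).trans (Finset.card_image_le.trans ?_)
    rw [Finset.card_range]
  have h1 := hcell m le_rfl 0 (by norm_num)
  have h2 := Finset.card_sdiff_add_card_inter (cell cls typ m 0)
    ((v.reverse ++ u0).take q).toFinset
  rw [← hB] at h2
  omega

end Pool.Agent.Helper25.PF
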