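import Mathlib
import Pool.Agent.Helper25.PGGrow
import Pool.Agent.Helper25.PGSched

set_option autoImplicit false

namespace Pool.Agent.Helper25.PF

variable {α : Type}

/-- Class of a letter given by an enumeration. -/
def clsR {n : ℕ} (m G : ℕ) (E : α ≃ ↥(Finset.range n)) (a : α) : ℕ :=
  m - min m (((E a : ℕ)) / G)

/-- Mirrored class. -/
def clsL {n : ℕ} (m G : ℕ) (E : α ≃ ↥(Finset.range n)) (a : α) : ℕ :=
  min m (((E a : ℕ)) / G)

/-- Type of a letter. -/
def typE {n : ℕ} (E : α ≃ ↥(Finset.range n)) (a : α) : ℕ := ((E a : ℕ)) % 3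

lemma typE_lt {n : ℕ} (E : α ≃ ↥(Finset.range n)) (a : α) : typE E a < 3 :=
  Nat.mod_lt _ (by norm_num)

lemma clsL_eq {n : ℕ} (m G : ℕ) (E : α ≃ ↥(Finset.range n)) (a : α) :
    clsL m G E a = m - clsR m G E a := by
  unfold clsL clsR
  generalize ((E a : ℕ)) / G = x
  omega

lemma clsR_le {n : ℕ} (m G : ℕ) (E : α ≃ ↥(Finset.range n)) (a : α) : clsR m G E a ≤ m :=
  Nat.sub_le _ _

variable [DecidableEq α] [Fintype α]

omit [DecidableEq α] in
lemma cell_card_aux {n l : ℕ} (E : α ≃ ↥(Finset.range n)) (cls : α → ℕ) (c b τ : ℕ) (hτ : τ < 3)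
    (hb : (b + 1) * (3 * (l + 5)) ≤ n)
    (hcls : ∀ a, (E a : ℕ) / (3 * (l + 5)) = b → cls a = c) :
    l + 5 ≤ (cell cls (typE E) c τ).card := by
  set G := 3 * (l + 5) with hG
  have hlt : ∀ k < l + 5, b * G + (3 * k + τ) < n := by
    intro k hk
    have : (b + 1) * G = b * G + G := by ring
    omega
  rw [← Finset.card_range (l + 5)]
  apply Finset.card_le_card_of_injOn
    (fun k => if h : k < l + 5 then E.symm ⟨b * G + (3 * k + τ), Finset.mem_range.2 (hlt k h)⟩
      else E.symm ⟨b * G + (3 * 0 + τ), Finset.mem_range.2 (hlt 0 (by omega))⟩)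
  · intro k hk
    rw [Finset.mem_coe, Finset.mem_range] at hk
    simp only [dif_pos hk, cell, Finset.coe_filter, Finset.mem_univ, true_and, Set.mem_ofPred_eq]
    constructor
    · apply hcls
      rw [Equiv.apply_symm_apply]
      simp only
      rw [Nat.mul_comm, Nat.mul_add_div (by omega), Nat.div_eq_of_lt (by omega)]
      omega
    · unfold typE
      rw [Equiv.apply_symm_apply]
      simp only
      have : b * G = 3 * (b * (l + 5)) := by rw [hG]; ring
      omega
  · intro k hk k' hk' hkk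
    rw [Finset.mem_coe, Finset.mem_range] at hk hk'
    simp only [dif_pos hk, dif_pos hk'] at hkk
    have := E.symm.injective hkk
    rw [Subtype.mk.injEq] at this
    omega

lemma cell_card_R {n m l : ℕ} (E : α ≃ ↥(Finset.range n)) (hn : (m + 1) * (3 * (l + 5)) ≤ n) :
    ∀ c ≤ m, ∀ τ < 3, l + 5 ≤ (cell (clsR m (3 * (l + 5)) E) (typE E) c τ).card := by
  intro c hc τ hτ
  apply cell_card_aux E _ c (m - c) τ hτ
  · exact le_trans (Nat.mul_le_mul_right _ (by omega)) hn
  · intro a ha
    unfold clsR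
    rw [ha]
    omega

lemma cell_card_L {n m l : ℕ} (E : α ≃ ↥(Finset.range n)) (hn : (m + 1) * (3 * (l + 5)) ≤ n) :
    ∀ c ≤ m, ∀ τ < 3, l + 5 ≤ (cell (clsL m (3 * (l + 5)) E) (typE E) c τ).card := by
  intro c hc τ hτ
  apply cell_card_aux E _ c c τ hτ
  · exact le_trans (Nat.mul_le_mul_right _ (by omega)) hn
  · intro a ha
    unfold clsL
    rw [ha]
    omega

lemma exists_enum {n q : ℕ} (hn : Fintype.card α = n) (hqn : q ≤ n) (u : List α)
    (hu : q ≤ u.length) (hnd : (u.take q).Nodup) (g : ℕ → ℕ) (hg : ∀ i < q, g i < n)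
    (hginj : ∀ i < q, ∀ j < q, g i = g j → i = j) :
    ∃ E : α ≃ ↥(Finset.range n), ∀ i a, i < q → u[i]? = some a → (E a : ℕ) = g i := by
  have hidx : ∀ i a, i < q → u[i]? = some a → (u.take q).idxOf a = i := by
    intro i a hi ha
    have h1 : (u.take q)[i]? = some a := by
      rw [List.getElem?_take_of_lt hi, ha]
    rw [List.getElem?_eq_some_iff] at h1
    obtain ⟨h2, h3⟩ := h1
    rw [← h3]
    exact List.Nodup.idxOf_getElem hnd i h2
  obtain ⟨E, hE⟩ := Finset.exists_equiv_extend_of_card_eq (α := α) (β := ℕ)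
    (t := Finset.range n) (by rw [Finset.card_range, hn]) (s := (u.take q).toFinset)
    (f := fun a => g ((u.take q).idxOf a))
    (by
      intro x hx
      rw [Finset.mem_image] at hx
      obtain ⟨a, ha, rfl⟩ := hx
      rw [List.mem_toFinset] at ha
      rw [Finset.mem_range]
      apply hg
      have := List.idxOf_lt_length_of_mem ha
      rw [List.length_take] at this
      omega)
    (by
      intro a ha b hb hab
      rw [Finset.mem_coe, List.mem_toFinset] at ha hb
      have h1 := List.idxOf_lt_length_of_mem ha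
      have h2 := List.idxOf_lt_length_of_mem hb
      rw [List.length_take] at h1 h2
      have h3 := hginj _ (by omega) _ (by omega) hab
      have h4 := List.getElem_idxOf (List.idxOf_lt_length_of_mem ha)
      have h5 := List.getElem_idxOf (List.idxOf_lt_length_of_mem hb)
      rw [← h4, ← h5]
      congr 1)
  refine ⟨E, ?_⟩
  intro i a hi ha
  have h1 : a ∈ (u.take q).toFinset := by
    rw [List.mem_toFinset, List.mem_take_iff_getElem]
    rw [List.getElem?_eq_some_iff] at ha
    obtain ⟨h2, h3⟩ := ha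
    exact ⟨i, by omega, h3⟩
  rw [hE a h1, hidx i a hi ha]

omit [DecidableEq α] [Fintype α] in
lemma al_arith {m l q i : ℕ} (hq : q ≤ m * (3 * l)) (hi : i < q) :
    q ≤ (m - i / (3 * (l + 5))) * (3 * l) + i := by
  have h1 : i / (3 * (l + 5)) * (3 * l) ≤ i :=
    (Nat.mul_le_mul_left _ (by omega)).trans (Nat.div_mul_le_self i (3 * (l + 5)))
  rw [Nat.sub_mul]
  omega

lemma exists_R {n m l q : ℕ} (hq : q ≤ m * (3 * l)) (hn : Fintype.card α = n)
    (hn2 : (m + 1) * (3 * (l + 5)) ≤ n) (u : List α)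
    (hu : q ≤ u.length) (hnd : (u.take q).Nodup) :
    ∃ E : α ≃ ↥(Finset.range n), Al q (3 * l) (clsR m (3 * (l + 5)) E) u := by
  have hqn : q ≤ n := by
    refine hq.trans (le_trans ?_ hn2)
    apply Nat.mul_le_mul <;> omega
  obtain ⟨E, hE⟩ := exists_enum hn hqn u hu hnd id (fun i hi => by simp only [id]; omega)
    (fun i _ j _ h => h)
  refine ⟨E, ?_⟩
  intro i a hi ha
  unfold clsR
  rw [hE i a hi ha]
  simp only [id]
  have h1 := al_arith hq hi
  have h2 : m - i / (3 * (l + 5)) ≤ m - min m (i / (3 * (l + 5))) := by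
    have := min_le_right m (i / (3 * (l + 5)))
    omega
  have h3 := Nat.mul_le_mul_right (3 * l) h2
  omega

lemma exists_L {n m l q : ℕ} (hq : q ≤ m * (3 * l)) (hn : Fintype.card α = n)
    (hn2 : (m + 1) * (3 * (l + 5)) ≤ n) (u : List α)
    (hu : q ≤ u.length) (hnd : (u.take q).Nodup) :
    ∃ E : α ≃ ↥(Finset.range n), Al q (3 * l) (clsL m (3 * (l + 5)) E) u := by
  have hqn : q ≤ n := by
    refine hq.trans (le_trans ?_ hn2)
    apply Nat.mul_le_mul <;> omega
  obtain ⟨E, hE⟩ := exists_enum hn hqn u hu hnd (fun i => n - 1 - i)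
    (fun i hi => by omega)
    (fun i hi j hj h => by omega)
  refine ⟨E, ?_⟩
  intro i a hi ha
  unfold clsL
  rw [hE i a hi ha]
  have h1 := al_arith hq hi
  have h2 : m - i / (3 * (l + 5)) ≤ min m ((n - 1 - i) / (3 * (l + 5))) := by
    apply le_min (Nat.sub_le _ _)
    rw [Nat.le_div_iff_mul_le (by omega)]
    have h3 := Nat.div_add_mod i (3 * (l + 5))
    have h4 := Nat.mod_lt i (show 0 < 3 * (l + 5) by omega)
    rw [Nat.sub_mul]
    have h5 : (m + 1) * (3 * (l + 5)) = m * (3 * (l + 5)) + 3 * (l + 5) := by ring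
    have h6 : i / (3 * (l + 5)) * (3 * (l + 5)) = 3 * (l + 5) * (i / (3 * (l + 5))) := by ring
    omega
  have h3 := Nat.mul_le_mul_right (3 * l) h2
  omega

omit [DecidableEq α] [Fintype α] in
lemma al_append {q L : ℕ} {cls : α → ℕ} {u : List α} (h : Al q L cls u) (hu : q ≤ u.length)
    (w : List α) : Al q L cls (u ++ w) := by
  intro i a hi ha
  rw [List.getElem?_append_left (by omega)] at ha
  exact h i a hi ha

/-- The general situation. -/
structure Setting (e : ℕ → ℕ) (n0 q m l n : ℕ) : Prop where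
  he0 : e 0 = 0
  hsup : ∀ a b, e a + e b ≤ e (a + b)
  hle : ∀ a, e a ≤ a
  hn0 : 80 ≤ e n0
  hq : ∀ p, e p = 0 → p ≤ q
  hl : 1 ≤ l
  hqm : q ≤ m * (3 * l)
  hn : (m + 1) * (3 * (l + 5)) ≤ n

lemma Setting.qle {e : ℕ → ℕ} {n0 q m l n : ℕ} (_h : Setting e n0 q m l n)
    (hq0 : ∀ p, 1 ≤ p → p ≤ q → e p = 0) : q ≤ n0 := by
  by_contra hlt
  have h1 := _h.hn0
  rcases Nat.eq_zero_or_pos n0 with h0 | h0
  · rw [h0, _h.he0] at h1; omega
  · rw [hq0 n0 h0 (by omega)] at h1; omega

/-- One cycle on both sides, exchanging two letters of the right labelling. -/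
lemma cycle_swap {e : ℕ → ℕ} {n0 q m l n : ℕ} (st : Setting e n0 q m l n)
    {D : List α} (hD : Good e n0 D) (hqD : q ≤ D.length)
    (E E' : α ≃ ↥(Finset.range n))
    (hL : Al q (3 * l) (clsL m (3 * (l + 5)) E') D)
    (hR : Al q (3 * l) (clsR m (3 * (l + 5)) E) D.reverse) (a b : α) :
    ∃ y v : List α, Good e n0 (y.reverse ++ D ++ v) ∧
      Al q (3 * l) (clsL m (3 * (l + 5)) E') (y.reverse ++ D ++ v) ∧
      Al q (3 * l) (clsR m (3 * (l + 5)) ((Equiv.swap a b).trans E)) (y.reverse ++ D ++ v).reverse := by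
  by_cases hsame : clsR m (3 * (l + 5)) E a = clsR m (3 * (l + 5)) E b ∧ typE E a = typE E b
  · refine ⟨[], [], by simpa using hD, by simpa using hL, ?_⟩
    have : clsR m (3 * (l + 5)) ((Equiv.swap a b).trans E) = clsR m (3 * (l + 5)) E := by
      funext x
      have h1 : clsR m (3 * (l + 5)) ((Equiv.swap a b).trans E) x =
          clsR m (3 * (l + 5)) E (Equiv.swap a b x) := rfl
      rw [h1]
      by_cases hxa : x = a
      · rw [hxa, Equiv.swap_apply_left]; exact hsame.1.symm
      · by_cases hxb : x = b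
        · rw [hxb, Equiv.swap_apply_right]; exact hsame.1
        · rw [Equiv.swap_apply_of_ne_of_ne hxa hxb]
    rw [this]
    simpa using hR
  · obtain ⟨y, v, hy, hv, hyS, hvS, hk, -, hl1, hr1⟩ := growth_sched st.he0 st.hsup st.hle st.hn0
      st.hq hD hqD
      (Sch (clsR m (3 * (l + 5)) E) (typE E) ((m + 1) * (3 * l)) (3 * l) 0 {a, b})
      (Sch (clsL m (3 * (l + 5)) E') (typE E') ((m + 1) * (3 * l)) (3 * l) 0 ∅)
      ((m + 1) * (3 * l))
      (by
        intro t _ v hv hvS
        apply sched_card st.hl st.hqm (cell_card_R E st.hn) _ hR t v hv hvS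
        intro c τ
        rw [Finset.card_le_one]
        intro x hx y hy
        rw [Finset.mem_inter, cell, Finset.mem_filter] at hx hy
        simp only [Finset.mem_insert, Finset.mem_singleton] at hx hy
        obtain ⟨⟨-, hx1, hx2⟩, hx3⟩ := hx
        obtain ⟨⟨-, hy1, hy2⟩, hy3⟩ := hy
        rcases hx3 with rfl | rfl <;> rcases hy3 with rfl | rfl
        · rfl
        · exact absurd ⟨hx1.trans hy1.symm, hx2.trans hy2.symm⟩ hsame
        · exact absurd ⟨hy1.trans hx1.symm, hy2.trans hx2.symm⟩ hsame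
        · rfl)
      (by
        intro t _ y hy hyS
        exact sched_card st.hl st.hqm (cell_card_L E' st.hn) (by simp) hL t y hy hyS)
    have hNq : q ≤ (m + 1) * (3 * l) := by
      have := st.hqm
      have h2 : (m + 1) * (3 * l) = m * (3 * l) + 3 * l := by ring
      omega
    refine ⟨y, v, ⟨hk, ?_, hl1, hr1⟩, ?_, ?_⟩
    · have := hD.len
      simp only [List.length_append]
      omega
    · have h1 := al_after st.hl st.hqm (E := ∅) (clsL m (3 * (l + 5)) E') (fun _ _ => rfl) D y hy hyS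
      exact al_append h1 (by simp; omega) v
    · have h1 := al_after st.hl st.hqm (E := {a, b})
        (clsR m (3 * (l + 5)) ((Equiv.swap a b).trans E)) (by
          intro x hx
          simp only [Finset.mem_insert, Finset.mem_singleton, not_or] at hx
          have h1 : clsR m (3 * (l + 5)) ((Equiv.swap a b).trans E) x =
            clsR m (3 * (l + 5)) E (Equiv.swap a b x) := rfl
          rw [h1, Equiv.swap_apply_of_ne_of_ne hx.1 hx.2]) D.reverse v hv hvS
      have e1 : (y.reverse ++ D ++ v).reverse = (v.reverse ++ D.reverse) ++ y := by simp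
      rw [e1]
      exact al_append h1 (by simp; omega) y

/-- Steering to any relabelling. -/
lemma steer {e : ℕ → ℕ} {n0 q m l n : ℕ} (st : Setting e n0 q m l n) (E' : α ≃ ↥(Finset.range n))
    (σ : Equiv.Perm α) : ∀ (E : α ≃ ↥(Finset.range n)) (D : List α), Good e n0 D → q ≤ D.length →
    Al q (3 * l) (clsL m (3 * (l + 5)) E') D →
    Al q (3 * l) (clsR m (3 * (l + 5)) E) D.reverse →
    ∃ y v : List α, Good e n0 (y.reverse ++ D ++ v) ∧
      Al q (3 * l) (clsL m (3 * (l + 5)) E') (y.reverse ++ D ++ v) ∧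
      Al q (3 * l) (clsR m (3 * (l + 5)) (σ.trans E)) (y.reverse ++ D ++ v).reverse := by
  induction σ using Equiv.Perm.swap_induction_on with
  | one =>
    intro E D hD _ hL hR
    refine ⟨[], [], by simpa using hD, by simpa using hL, ?_⟩
    have : (1 : Equiv.Perm α).trans E = E := by
      ext x; rfl
    rw [this]
    simpa using hR
  | swap_mul f a b _ ih =>
    intro E D hD hqD hL hR
    obtain ⟨y1, v1, hD1, hL1, hR1⟩ := cycle_swap st hD hqD E E' hL hR a b
    obtain ⟨y2, v2, hD2, hL2, hR2⟩ := ih ((Equiv.swap a b).trans E) (y1.reverse ++ D ++ v1) hD1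
      (by simp only [List.length_append]; omega) hL1 hR1
    refine ⟨y1 ++ y2, v1 ++ v2, ?_⟩
    have e1 : (y1 ++ y2).reverse ++ D ++ (v1 ++ v2) =
        y2.reverse ++ (y1.reverse ++ D ++ v1) ++ v2 := by simp
    have e2 : (Equiv.swap a b * f).trans E = f.trans ((Equiv.swap a b).trans E) := by
      ext x; rfl
    rw [e1, e2]
    exact ⟨hD2, hL2, hR2⟩

/-- One cycle, with an additional letter on the right. -/
lemma cycle_long {e : ℕ → ℕ} {n0 q m l n : ℕ} (st : Setting e n0 q m l n)
    {D : List α} (hD : Good e n0 D) (hqD : q ≤ D.length)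
    (E E' : α ≃ ↥(Finset.range n))
    (hL : Al q (3 * l) (clsL m (3 * (l + 5)) E') D)
    (hR : Al q (3 * l) (clsR m (3 * (l + 5)) E) D.reverse) :
    ∃ y v : List α, y.length = (m + 1) * (3 * l) ∧ v.length = (m + 1) * (3 * l) + 1 ∧
      Good e n0 (y.reverse ++ D ++ v) ∧
      Al q (3 * l) (clsL m (3 * (l + 5)) E') (y.reverse ++ D ++ v) ∧
      Al q (3 * l) (clsR m (3 * (l + 5)) E) (y.reverse ++ D ++ v).reverse := by
  obtain ⟨y, v, hy, hv, hyS, hvS, hk, hl0, hl1, hr1⟩ := growth_sched st.he0 st.hsup st.hle st.hn0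
    st.hq hD hqD
    (Sch (clsR m (3 * (l + 5)) E) (typE E) ((m + 1) * (3 * l)) (3 * l) 0 ∅)
    (Sch (clsL m (3 * (l + 5)) E') (typE E') ((m + 1) * (3 * l)) (3 * l) 0 ∅)
    ((m + 1) * (3 * l))
    (by
      intro t _ v hv hvS
      exact sched_card st.hl st.hqm (cell_card_R E st.hn) (by simp) hR t v hv hvS)
    (by
      intro t _ y hy hyS
      exact sched_card st.hl st.hqm (cell_card_L E' st.hn) (by simp) hL t y hy hyS)
  have hNq : q ≤ (m + 1) * (3 * l) := by
    have := st.hqm
    have h2 : (m + 1) * (3 * l) = m * (3 * l) + 3 * l := by ring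
    omega
  have hN1 : 1 ≤ (m + 1) * (3 * l) := by
    have := st.hl
    have h2 : (m + 1) * (3 * l) = m * (3 * l) + 3 * l := by ring
    omega
  have hDlen := hD.len
  have hl0' := hl0 hN1
  obtain ⟨c, hc, hkc, hFc, hFcr⟩ := right_step st.he0 st.hsup st.hle st.hn0 st.hq hk
    (by simp only [List.length_append]; omega) (by linarith)
    (cell (clsR m (3 * (l + 5)) E) (typE E) m 0) (by
      have e1 : (y.reverse ++ D ++ v).reverse = (v.reverse ++ D.reverse) ++ y := by simp
      rw [e1, List.take_append_of_le_length (by simp; omega)]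
      exact extra_card st.hl st.hqm (cell_card_R E st.hn) D.reverse v hv hvS)
  have e2 : y.reverse ++ D ++ v ++ [c] = y.reverse ++ D ++ (v ++ [c]) := by simp
  rw [e2] at hkc hFc hFcr
  refine ⟨y, v ++ [c], hy, by simp [hv], ⟨hkc, ?_, by linarith, by linarith⟩, ?_, ?_⟩
  · simp only [List.length_append]
    omega
  · have h1 := al_after st.hl st.hqm (E := ∅) (clsL m (3 * (l + 5)) E') (fun _ _ => rfl) D y hy hyS
    exact al_append h1 (by simp; omega) _
  · have h1 := al_after st.hl st.hqm (E := ∅) (clsR m (3 * (l + 5)) E) (fun _ _ => rfl)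
      D.reverse v hv hvS
    have e1 : (y.reverse ++ D ++ (v ++ [c])).reverse = (c :: (v.reverse ++ D.reverse)) ++ y := by
      simp
    rw [e1]
    rw [cell, Finset.mem_filter] at hc
    exact al_append (al_cons st.hqm h1 hc.2.1) (by simp; omega) y

lemma cycles_long {e : ℕ → ℕ} {n0 q m l n : ℕ} (st : Setting e n0 q m l n)
    (E E' : α ≃ ↥(Finset.range n)) (r : ℕ) : ∀ (D : List α), Good e n0 D → q ≤ D.length →
    Al q (3 * l) (clsL m (3 * (l + 5)) E') D →
    Al q (3 * l) (clsR m (3 * (l + 5)) E) D.reverse →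
    ∃ y v : List α, y.length = r * ((m + 1) * (3 * l)) ∧
      v.length = r * ((m + 1) * (3 * l) + 1) ∧
      Good e n0 (y.reverse ++ D ++ v) ∧
      Al q (3 * l) (clsL m (3 * (l + 5)) E') (y.reverse ++ D ++ v) ∧
      Al q (3 * l) (clsR m (3 * (l + 5)) E) (y.reverse ++ D ++ v).reverse := by
  induction r with
  | zero =>
    intro D hD _ hL hR
    exact ⟨[], [], by simp, by simp, by simpa using hD, by simpa using hL, by simpa using hR⟩
  | succ r ih =>
    intro D hD hqD hL hR
    obtain ⟨y1, v1, hy1, hv1, hD1, hL1, hR1⟩ := ih D hD hqD hL hR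
    obtain ⟨y2, v2, hy2, hv2, hD2, hL2, hR2⟩ := cycle_long st hD1
      (by simp only [List.length_append]; omega) E E' hL1 hR1
    refine ⟨y1 ++ y2, v1 ++ v2, ?_, ?_, ?_⟩
    · rw [List.length_append, hy1, hy2]; ring
    · rw [List.length_append, hv1, hv2]; ring
    · have e1 : (y1 ++ y2).reverse ++ D ++ (v1 ++ v2) =
        y2.reverse ++ (y1.reverse ++ D ++ v1) ++ v2 := by simp
      rw [e1]
      exact ⟨hD2, hL2, hR2⟩

end Pool.Agent.Helper25.PF
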