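import Mathlib
import Pool.Agent.Helper25.PFDefs
import Pool.Agent.Helper25.PFMain
import Pool.Agent.Helper25.PGSteer
import Pool.Agent.Helper25.PGAsm

set_option autoImplicit false

namespace Pool.Agent.Helper25.PF

lemma ee_zero_of_le {κ : ℝ} (hκ : 0 < κ) (p : ℕ) (h : p ≤ ⌊1 / κ⌋₊) : ee κ p = 0 := by
  have h1 : (p : ℝ) ≤ 1 / κ := by
    have := Nat.floor_le (show 0 ≤ 1 / κ by positivity)
    have h2 : (p : ℝ) ≤ (⌊1 / κ⌋₊ : ℕ) := by exact_mod_cast h
    linarith
  rw [le_div_iff₀ hκ] at h1
  unfold ee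
  have h2 : ⌈κ * p⌉₊ ≤ 1 := by
    rw [Nat.ceil_le]
    push_cast
    linarith
  omega

lemma KF_nodup_take {α : Type} {e : ℕ → ℕ} {q : ℕ} (hq0 : ∀ p, 1 ≤ p → p ≤ q → e p = 0)
    {u : List α} (h : KF e u) : (u.take q).Nodup := by
  rw [List.nodup_iff_getElem?_ne_getElem?]
  intro i j hij hj
  rw [List.length_take] at hj
  rw [List.getElem?_take_of_lt (by omega), List.getElem?_take_of_lt (by omega)]
  have he := hq0 (j - i) (by omega) (by omega)
  obtain ⟨r, hr, hne⟩ := h (j - i) (by omega) i (by omega)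
  rw [he] at hr
  have : r = 0 := by omega
  subst this
  rw [show i + (j - i) + 0 = j by omega] at hne
  simpa using hne

/-- Letters near the junction are different. -/
lemma close_arith {m L q N i j : ℕ} (hL : 1 ≤ L) (hq : q ≤ m * L) (hN : N = (m + 1) * L)
    (hij : i + j + 1 ≤ q) (h : (N - 1 - j) / L = m - (N - 1 - i) / L) : False := by
  have hNe : N = m * L + L := by rw [hN]; ring
  have h1 := Nat.div_add_mod (N - 1 - i) L
  have h2 := Nat.div_add_mod (N - 1 - j) L
  have h3 := Nat.mod_lt (N - 1 - i) (show 0 < L by omega)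
  have h4 := Nat.mod_lt (N - 1 - j) (show 0 < L by omega)
  have h5 : (N - 1 - i) / L ≤ m := by
    have : (N - 1 - i) / L < m + 1 := by
      rw [Nat.div_lt_iff_lt_mul (by omega), ← hN]
      omega
    omega
  have h6 : L * ((N - 1 - j) / L) + L * ((N - 1 - i) / L) = L * m := by
    rw [← Nat.mul_add, h, Nat.sub_add_cancel h5]
  have h7 : L * m = m * L := Nat.mul_comm _ _
  omega

theorem main2_KF {α : Type} [Fintype α] {κ : ℝ} (hκ : 0 < κ) (hκ1 : κ < 1) (m l : ℕ)
    (hl : 1 ≤ l) (hqm : ⌊1 / κ⌋₊ ≤ m * (3 * l))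
    (hcard : (m + 1) * (3 * (l + 5)) ≤ Fintype.card α) (w : List α) (hw : KF (ee κ) w) :
    ∃ u, KF (ee κ) u ∧ w <:+: u ∧ ∀ a b, ¬ KF (ee κ) (a :: (u ++ [b])) := by
  classical
  by_contra hcon
  push Not at hcon
  set e := ee κ with he
  set q := ⌊1 / κ⌋₊ with hq
  have he0 : e 0 = 0 := ee_zero κ
  have hsup := ee_sup hκ
  have hle := ee_le hκ hκ1
  have hmono : ∀ p p', p ≤ p' → e p ≤ e p' := ee_mono hκ
  have hqq : ∀ p, e p = 0 → p ≤ q := fun p hp => ee_eq_zero hκ p hp
  have hq0 : ∀ p, 1 ≤ p → p ≤ q → e p = 0 := fun p _ hp => ee_zero_of_le hκ p hp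
  have hq1 : 1 ≤ q := by
    rw [hq]
    apply Nat.le_floor
    rw [le_div_iff₀ hκ]
    push_cast
    linarith
  obtain ⟨n0, hn0⟩ := ee_large hκ 80
  have st : Setting e n0 q m l (Fintype.card α) :=
    ⟨he0, hsup, hle, hn0, hqq, hl, hqm, hcard⟩
  have hqn0 := st.qle hq0
  -- extension properties
  have hextR : ∀ u, KF e u → w <:+: u → ∃ c, KF e (u ++ [c]) := by
    intro u hu hwu
    obtain ⟨a, b, hab⟩ := hcon u hu hwu
    exact ⟨b, hab.of_infix ⟨[a], [], by simp⟩⟩
  have hextL : ∀ u, KF e u → w <:+: u → ∃ c, KF e (c :: u) := by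
    intro u hu hwu
    obtain ⟨a, b, hab⟩ := hcon u hu hwu
    exact ⟨a, hab.of_infix ⟨[], [b], by simp⟩⟩
  -- a word with the fewest right extensions
  set Nr : List α → ℕ := fun u => (Finset.univ.filter (fun c => KF e (u ++ [c]))).card with hNr
  obtain ⟨z, ⟨hz, hwz⟩, hzmin⟩ : ∃ z ∈ {u : List α | KF e u ∧ w <:+: u},
      ∀ u ∈ {u : List α | KF e u ∧ w <:+: u}, Nr z ≤ Nr u := by
    have hne : (Nr '' {u : List α | KF e u ∧ w <:+: u}).Nonempty :=
      ⟨Nr w, w, ⟨hw, List.infix_refl _⟩, rfl⟩
    obtain ⟨z, hz, hzm⟩ := Nat.sInf_mem hne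
    refine ⟨z, hz, ?_⟩
    intro u hu
    rw [hzm]
    exact Nat.sInf_le ⟨u, hu, rfl⟩
  obtain ⟨b, hb⟩ := hextR z hz hwz
  set S : Set (List α) := {D | KF e D ∧ (z ++ [b]) <:+: D ∧ 2 * n0 ≤ D.length} with hS
  have hwzb : w <:+: z ++ [b] := hwz.trans ⟨[], [b], by simp⟩
  have hSne : S.Nonempty := by
    have : ∀ n, ∃ D, KF e D ∧ (z ++ [b]) <:+: D ∧ n ≤ D.length := by
      intro n
      induction n with
      | zero => exact ⟨z ++ [b], hb, List.infix_refl _, Nat.zero_le _⟩
      | succ n ih =>
        obtain ⟨D, h1, h2, h3⟩ := ih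
        obtain ⟨c, hc⟩ := hextR D h1 (hwzb.trans h2)
        exact ⟨D ++ [c], hc, h2.trans ⟨[], [c], by simp⟩, by simp; omega⟩
    obtain ⟨D, h1, h2, h3⟩ := this (2 * n0)
    exact ⟨D, h1, h2, h3⟩
  have hcard11 : q + 11 ≤ Fintype.card α := by
    have h1 : (m + 1) * (3 * (l + 5)) = m * (3 * l) + 3 * l + 15 * m + 15 := by ring
    omega
  obtain ⟨D0, ⟨hD0, ⟨x0, v0, hxv⟩, hD0len⟩, hDL, hDR⟩ := cleaning he0 hsup hle hn0 hqq
    hcard11 S hSne (fun D hD => hD.1) (fun D hD => hD.2.2)
    (fun D hD => hextR D hD.1 (hwzb.trans hD.2.1))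
    (fun D hD c hc => ⟨hc, hD.2.1.trans ⟨[], [c], by simp⟩, by
      have := hD.2.2
      simp only [List.length_append, List.length_singleton]
      omega⟩)
    (fun D hD => hextL D hD.1 (hwzb.trans hD.2.1))
    (fun D hD c hc => ⟨hc, hD.2.1.trans ⟨[c], [], by simp⟩, by
      have := hD.2.2
      simp only [List.length_cons]
      omega⟩)
  have hG0 : Good e n0 D0 := ⟨hD0, hD0len, hDL, hDR⟩
  -- labellings and steering
  obtain ⟨ER, hER⟩ := exists_R (m := m) (l := l) hqm rfl hcard D0.reverse (by simp; omega)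
    (KF_nodup_take hq0 hD0.reverse)
  obtain ⟨E, hEL⟩ := exists_L (m := m) (l := l) hqm rfl hcard D0 (by omega)
    (KF_nodup_take hq0 hD0)
  obtain ⟨y1, v1, hG1, hL1, hR1⟩ := steer st E (E.trans ER.symm) ER D0 hG0 (by omega) hEL hER
  have hEE : (E.trans ER.symm).trans ER = E := by
    ext x; simp
  rw [hEE] at hR1
  set D1 := y1.reverse ++ D0 ++ v1 with hD1
  set N := (m + 1) * (3 * l) with hN
  have hNe : N = m * (3 * l) + 3 * l := by rw [hN]; ring
  have hqN : q < N := by omega
  set d1 := D1.length with hd1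
  set d2 := (y1.reverse ++ x0 ++ z).length with hd2
  have hD1eq : D1 = (y1.reverse ++ x0 ++ z) ++ (b :: (v0 ++ v1)) := by
    rw [hD1, ← hxv]; simp
  have hd12 : d1 = d2 + (1 + (v0 ++ v1).length) := by
    rw [hd1, hD1eq, List.length_append, List.length_cons, ← hd2]
    omega
  set M' := d1 + N * (2 * N + 1) with hM'
  obtain ⟨wl, P0, j, l1, l2, l3, l4, l5, l6, l7⟩ :=
    exists_lengths2 hκ hκ1 N d2 (4 * M' + 10) (by omega)
  rw [← he] at l2 l5 l6 l7
  set r := (P0 + (N - 1) * d1) % N with hr
  have hrN : r < N := Nat.mod_lt _ (by omega)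
  obtain ⟨y2, v2, hy2, hv2, hG2, hL2, hR2⟩ := cycles_long st E E r D1 hG1
    (by have := hG1.len; omega) hL1 hR1
  rw [← hN] at hy2 hv2
  set D := y2.reverse ++ D1 ++ v2 with hD
  set x := y2.reverse ++ (y1.reverse ++ x0) with hx
  set v' := v0 ++ v1 ++ v2 with hv'
  have hDeq : D = (x ++ z) ++ (b :: v') := by
    rw [hD, hD1eq, hx, hv']; simp
  have hrN1 : r * N ≤ N * N := Nat.mul_le_mul_right _ hrN.le
  have hDl : D.length = d1 + r * N + (r * N + r) := by
    rw [hD, List.length_append, List.length_append, List.length_reverse, hy2, hv2, ← hd1]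
    ring
  have hxz : (x ++ z).length = d2 + r * N := by
    rw [hx, hd2]
    simp only [List.length_append, List.length_reverse]
    omega
  have hNN : N * (2 * N + 1) = 2 * (N * N) + N := by ring
  have hDM : D.length ≤ M' := by omega
  have hrj : r ≤ j := by
    by_contra hlt
    have h1 : N * j ≤ N * N := Nat.mul_le_mul_left _ (by omega)
    omega
  obtain ⟨j', rfl⟩ : ∃ j', j = r + j' := ⟨j - r, by omega⟩
  set h := N * j' with hh
  have hwl : wl = h + (d2 + r * N) := by
    rw [l1, hh]; ring
  set lv := P0 - h - D.length with hlv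
  have hlvP : P0 = h + D.length + lv := by omega
  have hlvN : N ∣ lv := by
    have h1 := Nat.div_add_mod (P0 + (N - 1) * d1) N
    rw [← hr] at h1
    have h2 : (N - 1) * d1 + d1 = N * d1 := by
      have : N = N - 1 + 1 := by omega
      calc (N - 1) * d1 + d1 = (N - 1 + 1) * d1 := by ring
        _ = N * d1 := by rw [← this]
    have h3 : N * (j' + 2 * r + d1) + lv = N * ((P0 + (N - 1) * d1) / N) := by
      have h4 : N * (j' + 2 * r + d1) = h + 2 * (r * N) + N * d1 := by rw [hh]; ring
      omega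
    have h5 : lv = N * ((P0 + (N - 1) * d1) / N) - N * (j' + 2 * r + d1) := by omega
    rw [h5]
    exact Nat.dvd_sub (Dvd.intro _ rfl) (Dvd.intro _ rfl)
  -- growth
  obtain ⟨y, v, hyl, hvl, hyS, hvS, hk, -, -, -⟩ := growth_sched he0 hsup hle hn0 hqq hG2
    (by have := hG2.len; omega)
    (Sch (clsR m (3 * (l + 5)) E) (typE E) N (3 * l) (h + 2 * lv) ∅)
    (Sch (clsL m (3 * (l + 5)) E) (typE E) N (3 * l) 0 ∅)
    (h + P0)
    (by
      intro t _ v hv hvS
      exact sched_card hl hqm (cell_card_R E hcard) (by simp) hR2 t v hv hvS)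
    (by
      intro t _ y hy hyS
      exact sched_card hl hqm (cell_card_L E hcard) (by simp) hL2 t y hy hyS)
  set X := (y.take h).reverse with hX
  set V := v.take lv with hV
  have hXl : X.length = h := by
    rw [hX, List.length_reverse, List.length_take, hyl]; omega
  have hVl : V.length = lv := by rw [hV, List.length_take, hvl]; omega
  set Y := X ++ D ++ V with hY
  have hYl : Y.length = P0 := by
    rw [hY, List.length_append, List.length_append, hXl, hVl]
    omega
  have hYk : KF e Y := by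
    apply hk.of_infix
    refine ⟨(y.drop h).reverse, v.drop lv, ?_⟩
    rw [hY, hX, hV]
    calc (y.drop h).reverse ++ ((y.take h).reverse ++ D ++ v.take lv) ++ v.drop lv
        = ((y.drop h).reverse ++ (y.take h).reverse) ++ D ++ (v.take lv ++ v.drop lv) := by
          simp only [List.append_assoc]
      _ = _ := by rw [← List.reverse_append, List.take_append_drop, List.take_append_drop]
  set W := X ++ (x ++ z) with hW
  have hWl : W.length = wl := by rw [hW, List.length_append, hXl, hxz, hwl]
  have hYW : Y = W ++ ((b :: v') ++ V) := by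
    rw [hY, hW, hDeq]
    simp only [List.append_assoc]
  set U := Y ++ W with hU
  have hUl : U.length = P0 + wl := by rw [hU, List.length_append, hYl, hWl]
  have hXt : ∀ i < h, ∃ a, X[i]? = some a ∧ clsL m (3 * (l + 5)) E a = ((h - 1 - i) % N) / (3 * l) ∧
      typE E a = (h - 1 - i) % 3 := by
    intro i hi
    have h1 : X[i]? = y[h - 1 - i]? := by
      rw [hX, List.getElem?_reverse (by rw [List.length_take]; omega), List.length_take,
        List.getElem?_take_of_lt (by omega)]
      congr 1
      omega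
    have h2 : h - 1 - i < y.length := by omega
    refine ⟨y[h - 1 - i], by rw [h1, List.getElem?_eq_getElem h2], ?_⟩
    have h3 := hyS (h - 1 - i) _ (List.getElem?_eq_getElem h2)
    rw [mem_Sch] at h3
    exact ⟨h3.1.1, h3.1.2⟩
  have hVt : ∀ i < lv, ∃ a, V[i]? = some a ∧ clsR m (3 * (l + 5)) E a = (i % N) / (3 * l) ∧
      typE E a = (i + (h + 2 * lv)) % 3 := by
    intro i hi
    have h2 : i < v.length := by omega
    refine ⟨v[i], by rw [hV, List.getElem?_take_of_lt hi, List.getElem?_eq_getElem h2], ?_⟩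
    have h3 := hvS i _ (List.getElem?_eq_getElem h2)
    rw [mem_Sch] at h3
    exact ⟨h3.1.1, h3.1.2⟩
  clear_value U W Y V X
  have hUW : ∀ i, U[P0 + i]? = W[i]? := by
    intro i
    rw [hU, List.getElem?_append_right (by omega), hYl, Nat.add_sub_cancel_left]
  have hYWi : ∀ i < wl, Y[i]? = W[i]? := by
    intro i hi
    rw [hYW, List.getElem?_append_left (by omega)]
  have hUY : ∀ i < P0, U[i]? = Y[i]? := by
    intro i hi
    rw [hU, List.getElem?_append_left (by omega)]
  have hYX : ∀ i < h, Y[i]? = X[i]? := by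
    intro i hi
    rw [hY, List.append_assoc, List.getElem?_append_left (by omega)]
  have hYV : ∀ i < lv, Y[h + D.length + i]? = V[i]? := by
    intro i hi
    have e1 : (X ++ D).length = h + D.length := by rw [List.length_append, hXl]
    rw [hY, List.getElem?_append_right (by rw [e1]; omega), e1]
    congr 1
    omega
  have hYkk : ∀ p, 1 ≤ p → ∀ s, s + p + (e p + 1) ≤ P0 →
      ∃ i, i ≤ e p ∧ U[s + i]? ≠ U[s + p + i]? := by
    intro p hp s hs
    obtain ⟨i, hi, hne⟩ := hYk p hp s (by omega)
    refine ⟨i, hi, ?_⟩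
    rw [hUY _ (by omega), hUY _ (by omega)]
    exact hne
  have hYk1 : ∀ p, 1 ≤ p → e p = 0 → ∀ s, s + p < P0 → U[s]? ≠ U[s + p]? := by
    intro p hp hep s hs
    obtain ⟨i, hi, hne⟩ := hYkk p hp s (by omega)
    rw [hep] at hi
    have : i = 0 := by omega
    subst this
    simpa using hne
  have hUk : KF e U := by
    have hasm := assembly2 (γ := Option α) e hmono (fun o => o.elim 0 (typE E))
      (fun i => U[i]?) P0 wl h D.length
      (by
        intro i hi
        rw [hUW, hUY i (by omega), hYWi i hi])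
      (by
        intro i _
        cases U[i]? with
        | none => simp
        | some a => exact typE_lt E a)
      (by
        intro i hi
        obtain ⟨a, ha1, -, ha2⟩ := hXt i (by omega)
        obtain ⟨c, hc1, -, hc2⟩ := hXt (i + 1) (by omega)
        rw [hUY i (by omega), hUY (i + 1) (by omega), hYX i (by omega), hYX (i + 1) (by omega),
          ha1, hc1]
        simp only [Option.elim_some]
        rw [ha2, hc2]
        omega)
      (by
        intro i hi1 hi2
        obtain ⟨t, rfl⟩ : ∃ t, i = h + D.length + t := ⟨i - (h + D.length), by omega⟩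
        obtain ⟨a, ha1, -, ha2⟩ := hVt t (by omega)
        obtain ⟨c, hc1, -, hc2⟩ := hVt (t + 1) (by omega)
        rw [hUY _ (by omega), hUY _ (by omega), hYV t (by omega),
          show h + D.length + t + 1 = h + D.length + (t + 1) by ring, hYV (t + 1) (by omega),
          ha1, hc1]
        simp only [Option.elim_some]
        rw [ha2, hc2]
        omega)
      (by
        obtain ⟨a, ha1, -, ha2⟩ := hVt (lv - 1) (by omega)
        obtain ⟨c, hc1, -, hc2⟩ := hXt 0 (by omega)
        have h1 := hUW 0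
        rw [Nat.add_zero] at h1
        rw [h1, ← hYWi 0 (by omega), hYX 0 (by omega), hUY (P0 - 1) (by omega),
          show P0 - 1 = h + D.length + (lv - 1) by omega, hYV (lv - 1) (by omega), ha1, hc1]
        simp only [Option.elim_some]
        rw [ha2, hc2]
        omega)
      hYkk
      (by
        intro p hp hep s hs
        rcases lt_or_ge (s + p) P0 with h1 | h1
        · exact hYk1 p hp hep s h1
        rcases lt_or_ge s P0 with h2 | h2
        · have hpq := hqq p hep
          obtain ⟨a, ha1, ha2, -⟩ := hVt (lv - 1 - (P0 - 1 - s)) (by omega)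
          obtain ⟨c, hc1, hc2, -⟩ := hXt (s + p - P0) (by omega)
          have h3 : U[s]? = some a := by
            rw [hUY s h2, show s = h + D.length + (lv - 1 - (P0 - 1 - s)) by omega,
              hYV _ (by omega), ha1]
          have h4 : U[s + p]? = some c := by
            rw [show s + p = P0 + (s + p - P0) by omega, hUW, ← hYWi _ (by omega),
              hYX _ (by omega), hc1]
          rw [h3, h4]
          intro heq
          have hac := Option.some.inj heq
          rw [← hac, clsL_eq, ha2] at hc2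
          have h5 : ∀ i < N, ∀ s, N ∣ s → i < s → (s - 1 - i) % N = N - 1 - i := by
            intro i hi s hs his
            obtain ⟨t, rfl⟩ := hs
            have ht : 1 ≤ t := by
              rcases Nat.eq_zero_or_pos t with h0 | h0
              · rw [h0] at his; omega
              · exact h0
            obtain ⟨t', rfl⟩ : ∃ t', t = t' + 1 := ⟨t - 1, by omega⟩
            have e1 : N * (t' + 1) - 1 - i = (N - 1 - i) + N * t' := by
              have : N * (t' + 1) = N * t' + N := by ring
              omega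
            rw [e1, Nat.add_mul_mod_self_left, Nat.mod_eq_of_lt (by omega)]
          rw [h5 _ (by omega) lv hlvN (by omega), h5 _ (by omega) h (Dvd.intro _ hh.symm) (by omega)]
            at hc2
          exact close_arith (show 1 ≤ 3 * l by omega) hqm hN
            (show (P0 - 1 - s) + (s + p - P0) + 1 ≤ q by omega) hc2.symm
        · have h3 : U[s]? = U[s - P0]? := by
            rw [show s = P0 + (s - P0) by omega, hUW, ← hYWi _ (by omega), ← hUY _ (by omega)]
            congr 1
            omega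
          have h4 : U[s + p]? = U[s - P0 + p]? := by
            rw [show s + p = P0 + (s - P0 + p) by omega, hUW, ← hYWi _ (by omega),
              ← hUY _ (by omega)]
          rw [h3, h4]
          exact hYk1 p hp hep (s - P0) (by omega))
      (by omega) (by omega) (by omega) (by omega)
      (by
        have h1 : P0 - wl - (4 * M' + 10) ≤ P0 - h - D.length := by omega
        have h2 := hmono _ _ h1
        omega)
      (by
        have h1 : wl - (4 * M' + 10) ≤ h - 1 := by omega
        have h2 := hmono _ _ h1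
        omega)
      (by omega)
      (by
        intro δ h1 h2
        have := l7 δ h1 h2
        omega)
    intro p hp s hs
    exact hasm p hp s (by rw [← hUl]; exact hs)
  have hzU : z <:+ U := by
    rw [hU, hW]
    refine ⟨Y ++ (X ++ x), ?_⟩
    simp only [List.append_assoc]
  have hwU : w <:+: U := hwz.trans hzU.isInfix
  -- fewer right extensions
  have hlt : Nr U < Nr z := by
    apply Finset.card_lt_card
    rw [Finset.ssubset_iff_subset_ne]
    have hsub : Finset.univ.filter (fun c => KF e (U ++ [c])) ⊆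
        Finset.univ.filter (fun c => KF e (z ++ [c])) := by
      intro c hc
      rw [Finset.mem_filter] at hc ⊢
      refine ⟨hc.1, hc.2.of_infix ?_⟩
      obtain ⟨t, ht⟩ := hzU
      refine ⟨t, [], ?_⟩
      rw [← ht]
      simp
    refine ⟨hsub, ?_⟩
    intro heq
    have hbz : b ∈ Finset.univ.filter (fun c => KF e (z ++ [c])) := by
      rw [Finset.mem_filter]
      exact ⟨Finset.mem_univ _, hb⟩
    rw [← heq, Finset.mem_filter] at hbz
    obtain ⟨i, hi, hne⟩ := hbz.2 P0 (by omega) 0 (by
      rw [l2, List.length_append, hUl, List.length_singleton]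
      omega)
    apply hne
    rw [l2] at hi
    rw [Nat.zero_add, Nat.zero_add]
    have hYi : ∀ j < P0, (U ++ [b])[j]? = Y[j]? := by
      intro j hj
      rw [List.getElem?_append_left (by omega), hUY j hj]
    rw [hYi i (by omega)]
    rcases lt_or_eq_of_le hi with hlt | heq'
    · rw [List.getElem?_append_left (by omega), hUW, hYWi i hlt]
    · have h1 : (U ++ [b])[P0 + i]? = some b := by
        rw [List.getElem?_append_right (by omega), hUl, heq', Nat.sub_self]
        rfl
      have h2 : Y[i]? = some b := by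
        rw [hYW, List.getElem?_append_right (by omega), hWl, heq', Nat.sub_self]
        rfl
      rw [h1, h2]
  have := hzmin U ⟨hUk, hwU⟩
  omega

/-- Choosing the parameters. -/
lemma exists_params {q n : ℕ} (hq : 1 ≤ q) (h : (q : ℝ) + 17 / 2 * √(q : ℝ) + 36 ≤ (n : ℝ)) :
    ∃ m l : ℕ, 1 ≤ l ∧ q ≤ m * (3 * l) ∧ (m + 1) * (3 * (l + 5)) ≤ n := by
  set s := √(q : ℝ) with hs
  have hqR : (1 : ℝ) ≤ q := by exact_mod_cast hq
  have hs1 : 1 ≤ s := by
    rw [hs]
    exact Real.one_le_sqrt.mpr hqR
  have hss : s * s = q := Real.mul_self_sqrt (by linarith)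
  set m := ⌈s / 4⌉₊ with hm
  have hm1 : s / 4 ≤ m := Nat.le_ceil _
  have hm2 : (m : ℝ) < s / 4 + 1 := Nat.ceil_lt_add_one (by positivity)
  have hm0 : (0 : ℝ) < m := by linarith
  set l := ⌈(q : ℝ) / (3 * m)⌉₊ with hl
  have hl1 : (q : ℝ) / (3 * m) ≤ l := Nat.le_ceil _
  have hl2 : (l : ℝ) < (q : ℝ) / (3 * m) + 1 := Nat.ceil_lt_add_one (by positivity)
  have hl0 : (0 : ℝ) < l := lt_of_lt_of_le (by positivity) hl1
  refine ⟨m, l, ?_, ?_, ?_⟩
  · exact_mod_cast Nat.one_le_iff_ne_zero.mpr (by
      intro h0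
      rw [h0] at hl0
      norm_num at hl0)
  · have : (q : ℝ) ≤ m * (3 * l) := by
      rw [div_le_iff₀ (by positivity)] at hl1
      linarith
    exact_mod_cast this
  · have h3 : (l : ℝ) * (3 * m) ≤ q + 3 * m := by
      have h4 : (l : ℝ) * (3 * m) ≤ ((q : ℝ) / (3 * m) + 1) * (3 * m) :=
        mul_le_mul_of_nonneg_right hl2.le (by positivity)
      have h5 : ((q : ℝ) / (3 * m) + 1) * (3 * m) = q + 3 * m := by
        field_simp
      linarith
    have h6 : 3 * (l : ℝ) ≤ 4 * s + 3 := by
      have h7 : (q : ℝ) / (3 * m) ≤ 4 * s / 3 := by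
        rw [div_le_div_iff₀ (by positivity) (by norm_num)]
        nlinarith
      linarith
    have h8 : ((m : ℝ) + 1) * (3 * (l + 5)) ≤ n := by
      nlinarith
    exact_mod_cast h8

/-- The combined bound. -/
theorem main2 {α : Type} [Fintype α] {k : ℝ} (h1 : 1 < k) (h2 : k < 2)
    (hcard : 2 * ⌊1 / (k - 1)⌋₊ + 10 ≤ Fintype.card α ∨
      (⌊1 / (k - 1)⌋₊ : ℝ) + 17 / 2 * √(⌊1 / (k - 1)⌋₊ : ℝ) + 36 ≤ Fintype.card α)
    (w : List α) (hw : PowerFree k w) :
    ∃ u, MaximalPowerFree k u ∧ w <:+: u := by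
  rcases hcard with hcard | hcard
  · exact main h1 h2 hcard w hw
  · have hq1 : 1 ≤ ⌊1 / (k - 1)⌋₊ := by
      apply Nat.le_floor
      rw [le_div_iff₀ (by linarith)]
      push_cast
      linarith
    obtain ⟨m, l, hl, hm, hc⟩ := exists_params hq1 hcard
    rw [powerFree_iff h1] at hw
    obtain ⟨u, hu1, hu2, hu3⟩ := main2_KF (κ := k - 1) (by linarith) (by linarith) m l hl hm hc
      w hw
    refine ⟨u, ⟨(powerFree_iff h1 u).2 hu1, ?_⟩, hu2⟩
    intro a b hab
    rw [powerFree_iff h1] at hab
    exact hu3 a b hab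

end Pool.Agent.Helper25.PF
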