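import Mathlib

set_option autoImplicit false

namespace Pool.Agent.Helper25.PP

/-- A simple graph is path-pairable if for every partition of its vertex set into unordered pairs
`{s i, t i}` (`i < k`) there are paths `P i` joining `s i` to `t i`, pairwise edge-disjoint. -/
def PathPairable {V : Type} (G : SimpleGraph V) : Prop :=
  ∀ (k : ℕ) (s t : Fin k → V), Function.Bijective (Sum.elim s t) →
    ∃ P : ∀ i, G.Walk (s i) (t i), (∀ i, (P i).IsPath) ∧
      ∀ i j, i ≠ j → List.Disjoint (P i).edges (P j).edges

end Pool.Agent.Helper25.PP
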