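import Mathlib
import Pool.Agent.Helper25.PPDefs

set_option autoImplicit false

namespace Pool.Agent.Helper25.PP

open SimpleGraph

/-! ### General colouring criterion -/

lemma paths_of_colouring {V : Type} (G : SimpleGraph V) (A : V → V → Prop)
    (hasym : ∀ a b, A a b → ¬ A b a) (hG : ∀ a b, A a b → G.Adj a b) {k : ℕ}
    (s t : Fin k → V) (c : V → V → Fin k)
    (hconn : ∀ i, (SimpleGraph.fromRel (fun a b => A a b ∧ c a b = i)).Reachable (s i) (t i)) :
    ∃ P : ∀ i, G.Walk (s i) (t i), (∀ i, (P i).IsPath) ∧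
      ∀ i j, i ≠ j → List.Disjoint (P i).edges (P j).edges := by
  classical
  have hle : ∀ i, SimpleGraph.fromRel (fun a b => A a b ∧ c a b = i) ≤ G := by
    intro i a b h
    rw [fromRel_adj] at h
    rcases h.2 with h | h
    · exact hG _ _ h.1
    · exact (hG _ _ h.1).symm
  choose W hW using fun i => (hconn i).exists_isPath
  refine ⟨fun i => (W i).mapLe (hle i), fun i => (Walk.isPath_mapLe (hle i)).2 (hW i), ?_⟩
  intro i j hij e he he'
  rw [Walk.edges_mapLe_eq_edges] at he he'
  have h1 := (W i).edges_subset_edgeSet he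
  have h2 := (W j).edges_subset_edgeSet he'
  induction e using Sym2.ind with
  | _ a b =>
    rw [mem_edgeSet, fromRel_adj] at h1 h2
    obtain ⟨-, h1⟩ := h1
    obtain ⟨-, h2⟩ := h2
    rcases h1 with h1 | h1 <;> rcases h2 with h2 | h2
    · exact hij (h1.2.symm.trans h2.2)
    · exact hasym _ _ h1.1 h2.1
    · exact hasym _ _ h1.1 h2.1
    · exact hij (h1.2.symm.trans h2.2)

/-! ### Greedy selection -/

lemma greedy {ι : Type} [DecidableEq ι] (r : ι → ι → Prop) [DecidableRel r]
    (symm : ∀ i j, r i j → r j i) (K : ℕ) (hK : 0 < K) (t : ℕ) :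
    ∀ S : Finset ι, (∀ i ∈ S, r i i) → (∀ i ∈ S, (S.filter (r i)).card ≤ K) → K * t ≤ S.card →
      ∃ C ⊆ S, C.card = t ∧ ∀ i ∈ C, ∀ j ∈ C, i ≠ j → ¬ r i j := by
  induction t with
  | zero =>
    intro S _ _ _
    exact ⟨∅, by simp, by simp, by simp⟩
  | succ t ih =>
    intro S hr hd hS
    have hne : S.Nonempty := by
      rw [← Finset.card_pos]
      have : 0 < K * (t + 1) := Nat.mul_pos hK (by omega)
      omega
    obtain ⟨i, hi⟩ := hne
    have hsplit := Finset.card_filter_add_card_filter_not (s := S) (r i)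
    have h1 := hd i hi
    obtain ⟨C, hC, hcard, hind⟩ := ih (S.filter (fun j => ¬ r i j))
      (fun j hj => hr j (Finset.mem_filter.1 hj).1)
      (fun j hj => (Finset.card_le_card (Finset.filter_subset_filter _
        (Finset.filter_subset _ _))).trans (hd j (Finset.mem_filter.1 hj).1))
      (by rw [Nat.mul_succ] at hS; omega)
    have hiC : i ∉ C := fun h => (Finset.mem_filter.1 (hC h)).2 (hr i hi)
    refine ⟨insert i C, ?_, ?_, ?_⟩
    · intro x hx
      rcases Finset.mem_insert.1 hx with rfl | hx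
      · exact hi
      · exact (Finset.mem_filter.1 (hC hx)).1
    · rw [Finset.card_insert_of_notMem hiC, hcard]
    · intro a ha b hb hab
      rcases Finset.mem_insert.1 ha with rfl | ha <;> rcases Finset.mem_insert.1 hb with rfl | hb
      · exact absurd rfl hab
      · exact (Finset.mem_filter.1 (hC hb)).2
      · exact fun h => (Finset.mem_filter.1 (hC ‹a ∈ C›)).2 (symm _ _ h)
      · exact hind a ha b hb hab

/-! ### The graph -/

/-- Vertices: tail numbers, two hubs, path vertices, leaves. -/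
inductive Vx (N c R l : ℕ) : Type
  | T (a : Fin N) : Vx N c R l
  | Z (b : Bool) : Vx N c R l
  | P (q : Fin c) (a : Fin R) : Vx N c R l
  | L (x : Fin l) : Vx N c R l

namespace Vx

variable {N c R l : ℕ}

def eqv : Vx N c R l ≃ (Fin N ⊕ Bool) ⊕ ((Fin c × Fin R) ⊕ Fin l) where
  toFun v := match v with
    | T a => Sum.inl (Sum.inl a)
    | Z b => Sum.inl (Sum.inr b)
    | P q a => Sum.inr (Sum.inl (q, a))
    | L x => Sum.inr (Sum.inr x)
  invFun v := match v with
    | Sum.inl (Sum.inl a) => T a
    | Sum.inl (Sum.inr b) => Z b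
    | Sum.inr (Sum.inl (q, a)) => P q a
    | Sum.inr (Sum.inr x) => L x
  left_inv := by rintro (_ | _ | _ | _) <;> rfl
  right_inv := by rintro ((_ | _) | (_ | _)) <;> rfl

instance : Fintype (Vx N c R l) := Fintype.ofEquiv _ eqv.symm

lemma card_vx : Fintype.card (Vx N c R l) = N + 2 + (c * R + l) := by
  rw [Fintype.card_congr (eqv (N := N) (c := c) (R := R) (l := l))]
  simp

/-- Oriented adjacency. -/
def A (D : ℕ) : Vx N c R l → Vx N c R l → Prop
  | T a, T b => Nat.size b.val = Nat.size a.val + 1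
  | T a, Z _ => 2 ^ D ≤ a.val
  | P _ a, Z b => b = true ∨ a.val = 0 ∨ a.val + 1 = R
  | P q a, P q' b => q = q' ∧ b.val = a.val + 1
  | L _, Z b => b = true
  | _, _ => False

lemma A_asymm (D : ℕ) : ∀ a b : Vx N c R l, A D a b → ¬ A D b a := by
  rintro (a | a | ⟨q, a⟩ | a) (b | b | ⟨q', b⟩ | b) h h' <;> simp only [A] at h h'
  · omega
  · omega

def G (D : ℕ) : SimpleGraph (Vx N c R l) where
  Adj a b := A D a b ∨ A D b a
  symm := ⟨fun _ _ h => h.symm⟩
  loopless := ⟨fun a h => by
    rcases h with h | h <;> exact A_asymm D a a h h⟩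

/-- Parametrization of the edges. -/
def edgeMap (N c R l : ℕ) :
    ((Fin N × Fin N) ⊕ (Fin N × Bool)) ⊕ (((Fin c × Fin R) ⊕ (Fin c × Bool)) ⊕
      ((Fin c × Fin (R - 1)) ⊕ Fin l)) → Sym2 (Vx N c R l)
  | Sum.inl (Sum.inl (a, b)) => s(T a, T b)
  | Sum.inl (Sum.inr (a, b)) => s(T a, Z b)
  | Sum.inr (Sum.inl (Sum.inl (q, a))) => s(P q a, Z true)
  | Sum.inr (Sum.inl (Sum.inr (q, b))) =>
      if h : 0 < R then
        (if b = true then s(P q ⟨0, h⟩, Z false) else s(P q ⟨R - 1, by omega⟩, Z false))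
      else s(Z true, Z true)
  | Sum.inr (Sum.inr (Sum.inl (q, a))) => s(P q ⟨a.val, by omega⟩, P q ⟨a.val + 1, by omega⟩)
  | Sum.inr (Sum.inr (Sum.inr x)) => s(L x, Z true)

lemma mem_range_edgeMap (D : ℕ) (a b : Vx N c R l) (h : A D a b) :
    s(a, b) ∈ Set.range (edgeMap N c R l) := by
  rcases a with a | a | ⟨q, a⟩ | a <;> rcases b with b | b | ⟨q', b⟩ | b <;> simp only [A] at h
  · exact ⟨Sum.inl (Sum.inl (a, b)), rfl⟩
  · exact ⟨Sum.inl (Sum.inr (a, b)), rfl⟩
  · have hR : 0 < R := lt_of_le_of_lt (Nat.zero_le _) a.2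
    cases b with
    | true => exact ⟨Sum.inr (Sum.inl (Sum.inl (q, a))), rfl⟩
    | false =>
      rcases h with h | h | h
      · exact absurd h (by simp)
      · refine ⟨Sum.inr (Sum.inl (Sum.inr (q, true))), ?_⟩
        have : a = ⟨0, hR⟩ := Fin.ext h
        simp only [edgeMap, dif_pos hR, if_true]
        rw [this]
      · refine ⟨Sum.inr (Sum.inl (Sum.inr (q, false))), ?_⟩
        have : a = ⟨R - 1, by omega⟩ := Fin.ext (by simp; omega)
        simp only [edgeMap, dif_pos hR]
        rw [this]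
        simp
  · obtain ⟨rfl, h⟩ := h
    refine ⟨Sum.inr (Sum.inr (Sum.inl (q, ⟨a.val, by omega⟩))), ?_⟩
    obtain ⟨b, hb⟩ := b
    simp only at h
    subst h
    rfl
  · cases b with
    | true => exact ⟨Sum.inr (Sum.inr (Sum.inr a)), rfl⟩
    | false => exact absurd h (by simp)

lemma ncard_edgeSet_le (D : ℕ) :
    (G D : SimpleGraph (Vx N c R l)).edgeSet.ncard ≤
      (N * N + N * 2) + ((c * R + c * 2) + (c * (R - 1) + l)) := by
  have hsub : (G D : SimpleGraph (Vx N c R l)).edgeSet ⊆ Set.range (edgeMap N c R l) := by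
    intro e he
    induction e using Sym2.ind with
    | _ a b =>
      rw [mem_edgeSet] at he
      rcases he with h | h
      · exact mem_range_edgeMap D a b h
      · rw [Sym2.eq_swap]
        exact mem_range_edgeMap D b a h
  refine (Set.ncard_le_ncard hsub (Set.finite_range _)).trans ?_
  rw [← Set.image_univ]
  refine (Set.ncard_image_le (Set.toFinite _)).trans ?_
  rw [Set.ncard_univ, Nat.card_eq_fintype_card]
  simp

/-! ### Sizes -/

lemma size_add {x j : ℕ} (h : x < 2 ^ j) : Nat.size (x + 2 ^ j) = j + 1 := by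
  apply le_antisymm
  · rw [Nat.size_le, pow_succ]
    omega
  · rw [Nat.succ_le_iff, Nat.lt_size]
    omega

lemma size_top {D x : ℕ} (h1 : 2 ^ D ≤ x) (h2 : x < 2 ^ (D + 1)) : Nat.size x = D + 1 := by
  have := size_add (x := x - 2 ^ D) (j := D) (by rw [pow_succ] at h2; omega)
  rwa [Nat.sub_add_cancel h1] at this

/-! ### Heights -/

def ht (D : ℕ) : Vx N c R l → ℕ
  | T a => Nat.size a.val
  | _ => D + 2

lemma ht_adj (D : ℕ) (a b : Vx (2 ^ (D + 1)) c R l) (h : A D a b) :
    ht D b ≤ ht D a + 1 ∧ ht D a ≤ ht D b + 1 := by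
  rcases a with a | a | ⟨q, a⟩ | a <;> rcases b with b | b | ⟨q', b⟩ | b <;>
    simp only [A] at h <;> simp only [ht]
  · omega
  · have := size_top h a.2
    omega
  · omega
  · omega
  · omega

lemma ht_walk (D : ℕ) {u v : Vx (2 ^ (D + 1)) c R l} (w : (G D).Walk u v) :
    ht D v ≤ ht D u + w.length := by
  induction w with
  | nil => simp
  | cons h p ih =>
    rw [Walk.length_cons]
    have : ht D _ ≤ ht D _ + 1 := h.elim (fun h => (ht_adj D _ _ h).1) (fun h => (ht_adj D _ _ h).2)
    omega

/-! ### Routing -/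

def comp : Vx N c R l → Option (Fin c)
  | P q _ => some q
  | _ => none

def pos : Vx N c R l → ℕ
  | P _ a => a.val
  | _ => 0

def hub (D : ℕ) : Vx N c R l → Bool
  | T a => decide (2 ^ D ≤ a.val)
  | Z b => b
  | _ => true

variable {k : ℕ}

def fl (s t : Fin k → Vx N c R l) (i : Fin k) : Prop :=
  comp (t i) = comp (s i) ∧ pos (s i) < pos (t i)

open Classical in
noncomputable def ck (s t : Fin k → Vx N c R l) (srv : Fin k → Fin k)
    (ch : Fin c → Option (Fin k)) (q : Fin c) (d : Fin k) (b : Fin k → Prop) : Fin k :=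
  match ch q with
  | none => d
  | some i => if comp (s i) = some q ∧ (b i ↔ fl s t i) then srv i else i

noncomputable def col (D : ℕ) (π : Vx N c R l → Fin k) (s t : Fin k → Vx N c R l)
    (C : Finset (Fin k)) (srv : Fin k → Fin k) (ch : Fin c → Option (Fin k)) :
    Vx N c R l → Vx N c R l → Fin k
  | T _, T b => π (T ⟨b.val - 2 ^ (Nat.size b.val - 1), lt_of_le_of_lt (Nat.sub_le _ _) b.2⟩)
  | T a, Z b => if b = true then π (T a)
      else π (T ⟨a.val - 2 ^ D, lt_of_le_of_lt (Nat.sub_le _ _) a.2⟩)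
  | P q a, Z b => if b = true then
      (if π (P q a) ∈ C then srv (π (P q a)) else π (P q a))
      else ck s t srv ch q (π (P q a)) (fun _ => a.val = 0)
  | P q a, P _ _ => ck s t srv ch q (π (P q a)) (fun i => a.val < pos (s i))
  | v, _ => π v

structure Good (D : ℕ) (π : Vx N c R l → Fin k) (s t : Fin k → Vx N c R l)
    (C : Finset (Fin k)) (srv : Fin k → Fin k) (ch : Fin c → Option (Fin k)) : Prop where
  hs : ∀ i, π (s i) = i
  ht : ∀ i, π (t i) = i
  hst : ∀ i, s i ≠ t i
  hC : ∀ i ∈ C, ∃ q1 a1 q2 a2, s i = P q1 a1 ∧ t i = P q2 a2 ∧ ch q1 = some i ∧ ch q2 = some i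
  hM : ∀ i, hub D (s i) ≠ hub D (t i) → ∃ i' ∈ C, srv i' = i

/-- Colour class. -/
def Q (D : ℕ) (cl : Vx N c R l → Vx N c R l → Fin k) (i : Fin k) : SimpleGraph (Vx N c R l) :=
  SimpleGraph.fromRel (fun a b => A D a b ∧ cl a b = i)

lemma Q_reach {D : ℕ} {cl : Vx N c R l → Vx N c R l → Fin k} {i : Fin k} {a b : Vx N c R l}
    (h : A D a b) (hc : cl a b = i) : (Q D cl i).Reachable a b := by
  apply Adj.reachable
  rw [Q, fromRel_adj]
  refine ⟨?_, Or.inl ⟨h, hc⟩⟩
  rintro rfl
  exact A_asymm D a a h h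

section route

variable {D : ℕ} {π : Vx (2 ^ (D + 1)) c R l → Fin k} {s t : Fin k → Vx (2 ^ (D + 1)) c R l}
    {C : Finset (Fin k)} {srv : Fin k → Fin k} {ch : Fin c → Option (Fin k)}

lemma climb_step (x : ℕ) (hx' : x < 2 ^ (D + 1)) : ∀ j, Nat.size x ≤ j → j ≤ D →
    ∀ hj : x + 2 ^ j < 2 ^ (D + 1),
    (Q D (col D π s t C srv ch) (π (T ⟨x, hx'⟩))).Reachable (T ⟨x, hx'⟩) (T ⟨x + 2 ^ j, hj⟩) := by
  intro j hxj
  induction j, hxj using Nat.le_induction with
  | base =>
    intro hD hj
    have h1 : x < 2 ^ Nat.size x := Nat.lt_size_self x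
    have h2 := size_add h1
    apply Q_reach
    · simp only [A]
      exact h2
    · simp only [col, h2]
      congr 2
      simp
  | succ j hxj ih =>
    intro hD hj
    have h1 : x < 2 ^ j := Nat.size_le.1 hxj
    have h1' : x < 2 ^ (j + 1) := by rw [pow_succ]; omega
    have hj' : x + 2 ^ j < 2 ^ (D + 1) := by rw [pow_succ] at hj; omega
    refine (ih (by omega) hj').trans ?_
    have h2 := size_add h1
    have h3 := size_add h1'
    apply Q_reach
    · simp only [A]
      rw [h2, h3]
    · simp only [col, h3]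
      congr 2
      simp

lemma climb (a : Fin (2 ^ (D + 1))) (ha : a.val < 2 ^ D) :
    (Q D (col D π s t C srv ch) (π (T a))).Reachable (T a) (Z false) := by
  obtain ⟨x, hx'⟩ := a
  simp only at ha
  have h1 : Nat.size x ≤ D := Nat.size_le.2 ha
  have hj : x + 2 ^ D < 2 ^ (D + 1) := by rw [pow_succ]; omega
  refine (climb_step x hx' D h1 le_rfl hj).trans ?_
  apply Q_reach
  · simp only [A]
    omega
  · simp [col]

lemma seg (q : Fin c) (i : Fin k) (x : ℕ) (hx : x < R) : ∀ y, x ≤ y → ∀ hy : y < R,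
    (∀ b (hb : b < R) (hb' : b + 1 < R), x ≤ b → b < y →
      col D π s t C srv ch (P q ⟨b, hb⟩) (P q ⟨b + 1, hb'⟩) = i) →
    (Q D (col D π s t C srv ch) i).Reachable (P q ⟨x, hx⟩) (P q ⟨y, hy⟩) := by
  intro y hxy
  induction y, hxy using Nat.le_induction with
  | base => intro _ _; exact Reachable.refl _
  | succ y hxy ih =>
    intro hy h
    refine (ih (by omega) (fun b hb hb' h1 h2 => h b hb hb' h1 (by omega))).trans ?_
    apply Q_reach
    · simp [A]
    · exact h y (by omega) hy hxy (by omega)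

lemma to_hub (v : Vx (2 ^ (D + 1)) c R l) (hv : π v ∉ C) :
    (Q D (col D π s t C srv ch) (π v)).Reachable v (Z (hub D v)) := by
  rcases v with a | b | ⟨q, a⟩ | x
  · by_cases ha : 2 ^ D ≤ a.val
    · have : hub D (T a : Vx (2 ^ (D + 1)) c R l) = true := by simp [hub, ha]
      rw [this]
      apply Q_reach
      · simp only [A]; exact ha
      · simp [col]
    · have : hub D (T a : Vx (2 ^ (D + 1)) c R l) = false := by simp [hub, ha]
      rw [this]
      exact climb a (by omega)
  · exact Reachable.refl _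
  · apply Q_reach
    · simp [A, hub]
    · simp [col, hub, hv]
  · apply Q_reach
    · simp [A, hub]
    · simp [col]

lemma ck_chosen {q : Fin c} {i d : Fin k} {b : Fin k → Prop} (h : ch q = some i)
    (h2 : comp (s i) = some q → ¬ (b i ↔ fl s t i)) : ck s t srv ch q d b = i := by
  unfold ck
  rw [h]
  simp only
  rw [if_neg]
  rintro ⟨h3, h4⟩
  exact h2 h3 h4

lemma ck_srv {q : Fin c} {i d : Fin k} {b : Fin k → Prop} (h : ch q = some i)
    (h1 : comp (s i) = some q) (h2 : b i ↔ fl s t i) : ck s t srv ch q d b = srv i := by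
  unfold ck
  rw [h]
  simp only
  rw [if_pos ⟨h1, h2⟩]

lemma transit (hg : Good D π s t C srv ch) (hR : 2 ≤ R) (i : Fin k) (hi : i ∈ C) :
    (Q D (col D π s t C srv ch) (srv i)).Reachable (Z false) (Z true) := by
  obtain ⟨q1, a1, q2, a2, h1, h2, h3, h4⟩ := hg.hC i hi
  have hπ : π (P q1 a1) = i := by rw [← h1]; exact hg.hs i
  have hcomp : comp (s i) = some q1 := by rw [h1]; rfl
  have hpos : pos (s i) = a1.val := by rw [h1]; rfl
  have e1 : (Q D (col D π s t C srv ch) (srv i)).Reachable (P q1 a1) (Z true) := by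
    apply Q_reach
    · simp [A]
    · simp [col, hπ, hi]
  refine Reachable.trans ?_ e1
  by_cases hf : fl s t i
  · have h0 : 0 < R := by omega
    have e2 : (Q D (col D π s t C srv ch) (srv i)).Reachable (P q1 ⟨0, h0⟩) (Z false) := by
      apply Q_reach
      · simp [A]
      · simp only [col]
        rw [if_neg (by simp)]
        exact ck_srv h3 hcomp (by simp [hf])
    refine e2.symm.trans ?_
    apply seg q1 (srv i) 0 h0 a1.val (Nat.zero_le _) a1.2
    intro b hb hb' _ hba
    simp only [col]
    exact ck_srv h3 hcomp (by simp [hf, hpos, hba])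
  · have h0 : R - 1 < R := by omega
    have e2 : (Q D (col D π s t C srv ch) (srv i)).Reachable (P q1 ⟨R - 1, h0⟩) (Z false) := by
      apply Q_reach
      · simp only [A]
        omega
      · simp only [col]
        rw [if_neg (by simp)]
        exact ck_srv h3 hcomp (by simp only [hf, iff_false]; omega)
    refine e2.symm.trans (Reachable.symm ?_)
    apply seg q1 (srv i) a1.val a1.2 (R - 1) (by omega) h0
    intro b hb hb' hab _
    simp only [col]
    exact ck_srv h3 hcomp (by simp only [hf, hpos, iff_false]; omega)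

lemma chosen (hg : Good D π s t C srv ch) (hR : 2 ≤ R) (i : Fin k) (hi : i ∈ C) :
    (Q D (col D π s t C srv ch) i).Reachable (s i) (t i) := by
  obtain ⟨q1, a1, q2, a2, h1, h2, h3, h4⟩ := hg.hC i hi
  have hcomp : comp (s i) = some q1 := by rw [h1]; rfl
  have hpos : pos (s i) = a1.val := by rw [h1]; rfl
  have hcomp2 : comp (t i) = some q2 := by rw [h2]; rfl
  have hpos2 : pos (t i) = a2.val := by rw [h2]; rfl
  have hne := hg.hst i
  rw [h1, h2] at hne ⊢
  by_cases hq : q2 = q1
  · subst hq
    have hne' : a1.val ≠ a2.val := by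
      intro h
      exact hne (by rw [Fin.ext h])
    by_cases hf : fl s t i
    · have hlt : a1.val < a2.val := by
        have := hf.2
        rwa [hpos, hpos2] at this
      apply seg q2 i a1.val a1.2 a2.val hlt.le a2.2
      intro b hb hb' hab _
      simp only [col]
      apply ck_chosen h3
      intro _
      simp only [hf, hpos, iff_true]
      omega
    · have hlt : a2.val < a1.val := by
        have : ¬ (a1.val < a2.val) := by
          intro hlt
          apply hf
          refine ⟨by rw [hcomp, hcomp2], by rw [hpos, hpos2]; exact hlt⟩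
        omega
      apply Reachable.symm
      apply seg q2 i a2.val a2.2 a1.val hlt.le a1.2
      intro b hb hb' hab hba
      simp only [col]
      apply ck_chosen h3
      intro _
      simp only [hf, hpos, iff_false]
      omega
  · have hf : ¬ fl s t i := by
      intro hf
      have := hf.1
      rw [hcomp, hcomp2] at this
      exact hq (Option.some.inj this)
    have h0 : 0 < R := by omega
    have e1 : (Q D (col D π s t C srv ch) i).Reachable (P q1 ⟨0, h0⟩) (P q1 a1) := by
      apply seg q1 i 0 h0 a1.val (Nat.zero_le _) a1.2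
      intro b hb hb' hab hba
      simp only [col]
      apply ck_chosen h3
      intro _
      simp only [hf, hpos, iff_false]
      omega
    have e2 : (Q D (col D π s t C srv ch) i).Reachable (P q1 ⟨0, h0⟩) (Z false) := by
      apply Q_reach
      · simp [A]
      · simp only [col]
        rw [if_neg (by simp)]
        apply ck_chosen h3
        intro _
        simp [hf]
    have e3 : (Q D (col D π s t C srv ch) i).Reachable (P q2 ⟨0, h0⟩) (Z false) := by
      apply Q_reach
      · simp [A]
      · simp only [col]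
        rw [if_neg (by simp)]
        apply ck_chosen h4
        intro _
        simp [hf]
    have e4 : (Q D (col D π s t C srv ch) i).Reachable (P q2 ⟨0, h0⟩) (P q2 a2) := by
      apply seg q2 i 0 h0 a2.val (Nat.zero_le _) a2.2
      intro b hb hb' hab hba
      simp only [col]
      apply ck_chosen h4
      intro h5
      rw [hcomp] at h5
      exact absurd (Option.some.inj h5).symm hq
    exact e1.symm.trans (e2.trans (e3.symm.trans e4))

lemma route (hg : Good D π s t C srv ch) (hR : 2 ≤ R) (i : Fin k) :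
    (Q D (col D π s t C srv ch) i).Reachable (s i) (t i) := by
  by_cases hi : i ∈ C
  · exact chosen hg hR i hi
  · have e1 := to_hub (D := D) (π := π) (C := C) (s := s) (t := t) (srv := srv) (ch := ch) (s i)
      (by rw [hg.hs i]; exact hi)
    have e2 := to_hub (D := D) (π := π) (C := C) (s := s) (t := t) (srv := srv) (ch := ch) (t i)
      (by rw [hg.ht i]; exact hi)
    rw [hg.hs i] at e1
    rw [hg.ht i] at e2
    by_cases hh : hub D (s i) = hub D (t i)
    · rw [hh] at e1
      exact e1.trans e2.symm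
    · obtain ⟨i', hi', hsrv⟩ := hg.hM i hh
      have e3 := transit hg hR i' hi'
      rw [hsrv] at e3
      cases h1 : hub D (s i) <;> cases h2 : hub D (t i) <;> rw [h1] at e1 <;> rw [h2] at e2
      · exact e1.trans e2.symm
      · exact e1.trans (e3.trans e2.symm)
      · exact e1.trans (e3.symm.trans e2.symm)
      · exact e1.trans e2.symm

end route

/-! ### Producing the data for a pairing -/

lemma exists_good {D c R l k : ℕ} (hR : 2 ≤ R)
    (hbig : 2 ^ (D + 1) + 2 + l + 2 * (2 * R * (2 ^ D + 1)) ≤ c * R)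
    (s t : Fin k → Vx (2 ^ (D + 1)) c R l) (hb : Function.Bijective (Sum.elim s t)) :
    ∃ (π : Vx (2 ^ (D + 1)) c R l → Fin k) (C : Finset (Fin k)) (srv : Fin k → Fin k)
      (ch : Fin c → Option (Fin k)), Good D π s t C srv ch := by
  classical
  set e := Equiv.ofBijective _ hb with he
  set π : Vx (2 ^ (D + 1)) c R l → Fin k := fun v => (e.symm v).elim id id with hπ
  have hs : ∀ i, π (s i) = i := by
    intro i
    have : e (Sum.inl i) = s i := rfl
    rw [hπ]
    simp only
    rw [← this, Equiv.symm_apply_apply]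
    rfl
  have ht : ∀ i, π (t i) = i := by
    intro i
    have : e (Sum.inr i) = t i := rfl
    rw [hπ]
    simp only
    rw [← this, Equiv.symm_apply_apply]
    rfl
  have hst : ∀ i, s i ≠ t i := by
    intro i h
    have : (Sum.elim s t) (Sum.inl i) = (Sum.elim s t) (Sum.inr i) := h
    have := hb.1 this
    simp at this
  have hcard : 2 * k = 2 ^ (D + 1) + 2 + (c * R + l) := by
    have h1 := Fintype.card_congr e
    rw [card_vx] at h1
    simp at h1
    omega
  -- the pairs with both ends path vertices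
  set S0 : Finset (Fin k) := Finset.univ.filter
    (fun i => (comp (s i)).isSome ∧ (comp (t i)).isSome) with hS0
  -- other vertices
  set g : (Fin (2 ^ (D + 1)) ⊕ Bool) ⊕ Fin l → Vx (2 ^ (D + 1)) c R l := fun v => match v with
    | Sum.inl (Sum.inl a) => T a
    | Sum.inl (Sum.inr b) => Z b
    | Sum.inr x => L x with hgdef
  have hgr : ∀ v : Vx (2 ^ (D + 1)) c R l, ¬ (comp v).isSome → ∃ w, g w = v := by
    rintro (a | b | ⟨q, a⟩ | x) h
    · exact ⟨Sum.inl (Sum.inl a), rfl⟩
    · exact ⟨Sum.inl (Sum.inr b), rfl⟩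
    · exact absurd rfl h
    · exact ⟨Sum.inr x, rfl⟩
  have hS0c : (Finset.univ.filter
      (fun i => ¬ ((comp (s i)).isSome ∧ (comp (t i)).isSome))).card ≤ 2 ^ (D + 1) + 2 + l := by
    have hsub : (Finset.univ.filter (fun i => ¬ ((comp (s i)).isSome ∧ (comp (t i)).isSome))) ⊆
        Finset.univ.image (fun w => π (g w)) := by
      intro i hi
      rw [Finset.mem_filter] at hi
      rw [Finset.mem_image]
      by_cases h1 : (comp (s i)).isSome
      · have h2 : ¬ (comp (t i)).isSome := fun h2 => hi.2 ⟨h1, h2⟩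
        obtain ⟨w, hw⟩ := hgr _ h2
        exact ⟨w, Finset.mem_univ _, by rw [hw, ht]⟩
      · obtain ⟨w, hw⟩ := hgr _ h1
        exact ⟨w, Finset.mem_univ _, by rw [hw, hs]⟩
    refine (Finset.card_le_card hsub).trans (Finset.card_image_le.trans ?_)
    simp
  have hS0card : 2 * R * (2 ^ D + 1) ≤ S0.card := by
    have h1 := Finset.card_filter_add_card_filter_not (s := (Finset.univ : Finset (Fin k)))
      (fun i => (comp (s i)).isSome ∧ (comp (t i)).isSome)
    rw [Finset.card_univ, Fintype.card_fin] at h1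
    have h2 : S0.card = (Finset.univ.filter
      (fun i => (comp (s i)).isSome ∧ (comp (t i)).isSome)).card := rfl
    omega
  -- the mixed pairs
  set M : Finset (Fin k) := Finset.univ.filter (fun i => hub D (s i) ≠ hub D (t i)) with hM
  set g' : Fin (2 ^ D) ⊕ Unit → Vx (2 ^ (D + 1)) c R l := fun v => match v with
    | Sum.inl a => T ⟨a.val, lt_of_lt_of_le a.2 (Nat.pow_le_pow_right (by omega) (by omega))⟩
    | Sum.inr _ => Z false with hg'def
  have hgr' : ∀ v : Vx (2 ^ (D + 1)) c R l, hub D v = false → ∃ w, g' w = v := by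
    rintro (a | b | ⟨q, a⟩ | x) h
    · have : a.val < 2 ^ D := by simpa [hub] using h
      exact ⟨Sum.inl ⟨a.val, this⟩, rfl⟩
    · have : b = false := h
      subst this
      exact ⟨Sum.inr (), rfl⟩
    · exact absurd h (by simp [hub])
    · exact absurd h (by simp [hub])
  have hMcard : M.card ≤ 2 ^ D + 1 := by
    have hsub : M ⊆ Finset.univ.image (fun w => π (g' w)) := by
      intro i hi
      rw [hM, Finset.mem_filter] at hi
      rw [Finset.mem_image]
      cases h1 : hub D (s i) with
      | false =>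
        obtain ⟨w, hw⟩ := hgr' _ h1
        exact ⟨w, Finset.mem_univ _, by rw [hw, hs]⟩
      | true =>
        cases h2 : hub D (t i) with
        | false =>
          obtain ⟨w, hw⟩ := hgr' _ h2
          exact ⟨w, Finset.mem_univ _, by rw [hw, ht]⟩
        | true => exact absurd (h1.trans h2.symm) hi.2
    refine (Finset.card_le_card hsub).trans (Finset.card_image_le.trans ?_)
    simp
  -- conflict relation
  set touch : Fin k → Fin c → Prop := fun i q => comp (s i) = some q ∨ comp (t i) = some q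
    with htouch
  set r : Fin k → Fin k → Prop := fun i j => ∃ q, touch i q ∧ touch j q with hr
  have hrsymm : ∀ i j, r i j → r j i := fun i j ⟨q, h1, h2⟩ => ⟨q, h2, h1⟩
  have hrefl : ∀ i ∈ S0, r i i := by
    intro i hi
    rw [hS0, Finset.mem_filter] at hi
    obtain ⟨q, hq⟩ := Option.isSome_iff_exists.1 hi.2.1
    exact ⟨q, Or.inl hq, Or.inl hq⟩
  have hdeg : ∀ i ∈ S0, (S0.filter (r i)).card ≤ 2 * R := by
    intro i hi
    rw [hS0, Finset.mem_filter] at hi
    obtain ⟨q1, hq1⟩ := Option.isSome_iff_exists.1 hi.2.1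
    obtain ⟨q2, hq2⟩ := Option.isSome_iff_exists.1 hi.2.2
    have hsub : S0.filter (r i) ⊆ (Finset.univ : Finset (Bool × Fin R)).image
        (fun w => π (P (if w.1 then q1 else q2) w.2)) := by
      intro j hj
      rw [Finset.mem_filter] at hj
      obtain ⟨q, h1, h2⟩ := hj.2
      rw [Finset.mem_image]
      have hq : ∃ b : Bool, (if b then q1 else q2) = q := by
        rcases h1 with h1 | h1
        · exact ⟨true, by rw [h1] at hq1; simp [Option.some.inj hq1]⟩
        · exact ⟨false, by rw [h1] at hq2; simp [Option.some.inj hq2]⟩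
      obtain ⟨b, hb⟩ := hq
      have hv : ∃ a, s j = P q a ∨ t j = P q a := by
        rcases h2 with h2 | h2
        · cases hsj : s j with
          | P q' a =>
            rw [hsj] at h2
            have : q' = q := Option.some.inj h2
            exact ⟨a, Or.inl (by rw [this])⟩
          | _ => rw [hsj] at h2; simp [comp] at h2
        · cases hsj : t j with
          | P q' a =>
            rw [hsj] at h2
            have : q' = q := Option.some.inj h2
            exact ⟨a, Or.inr (by rw [this])⟩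
          | _ => rw [hsj] at h2; simp [comp] at h2
      obtain ⟨a, ha⟩ := hv
      refine ⟨(b, a), Finset.mem_univ _, ?_⟩
      simp only
      rw [hb]
      rcases ha with ha | ha
      · rw [← ha, hs]
      · rw [← ha, ht]
    refine (Finset.card_le_card hsub).trans (Finset.card_image_le.trans ?_)
    simp
  have hKM : 2 * R * M.card ≤ S0.card := (Nat.mul_le_mul_left _ hMcard).trans hS0card
  obtain ⟨C, hCS, hCcard, hind⟩ := greedy r hrsymm (2 * R) (by omega) M.card S0 hrefl hdeg hKM
  have eCM := Finset.equivOfCardEq hCcard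
  set srv : Fin k → Fin k := fun i => if h : i ∈ C then (eCM ⟨i, h⟩).val else i with hsrv
  set ch : Fin c → Option (Fin k) := fun q =>
    if h : ∃ i ∈ C, touch i q then some h.choose else none with hch
  have hchq : ∀ i ∈ C, ∀ q, touch i q → ch q = some i := by
    intro i hi q hq
    have h : ∃ i ∈ C, touch i q := ⟨i, hi, hq⟩
    rw [hch]
    simp only
    rw [dif_pos h]
    congr 1
    by_contra hne
    exact hind _ h.choose_spec.1 i hi hne ⟨q, h.choose_spec.2, hq⟩
  refine ⟨π, C, srv, ch, hs, ht, hst, ?_, ?_⟩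
  · intro i hi
    have h1 := hCS hi
    rw [hS0, Finset.mem_filter] at h1
    cases hsi : s i with
    | P q1 a1 =>
      cases hti : t i with
      | P q2 a2 =>
        exact ⟨q1, a1, q2, a2, rfl, rfl, hchq i hi q1 (Or.inl (by rw [hsi]; rfl)),
          hchq i hi q2 (Or.inr (by rw [hti]; rfl))⟩
      | _ => rw [hti] at h1; simp [comp] at h1
    | _ => rw [hsi] at h1; simp [comp] at h1
  · intro i hi
    have hiM : i ∈ M := by
      rw [hM, Finset.mem_filter]
      exact ⟨Finset.mem_univ _, hi⟩
    refine ⟨(eCM.symm ⟨i, hiM⟩).val, (eCM.symm ⟨i, hiM⟩).2, ?_⟩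
    rw [hsrv]
    simp

theorem pairable {D c R l : ℕ} (hR : 2 ≤ R)
    (hbig : 2 ^ (D + 1) + 2 + l + 2 * (2 * R * (2 ^ D + 1)) ≤ c * R) :
    PathPairable (G D : SimpleGraph (Vx (2 ^ (D + 1)) c R l)) := by
  intro k s t hb
  obtain ⟨π, C, srv, ch, hg⟩ := exists_good hR hbig s t hb
  exact paths_of_colouring (G D) (A D) (A_asymm D) (fun a b h => Or.inl h) s t
    (col D π s t C srv ch) (fun i => route hg hR i)

/-! ### Connectivity and diameter -/

lemma reach_hub {D c R l : ℕ} (v : Vx (2 ^ (D + 1)) c R l) :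
    (G D).Reachable v (Z (hub D v)) := by
  have h := to_hub (D := D) (k := 1) (π := fun _ => 0) (s := fun _ => v) (t := fun _ => v)
    (C := ∅) (srv := id) (ch := fun _ => none) v (by simp)
  refine h.mono ?_
  intro a b hab
  rw [Q, fromRel_adj] at hab
  rcases hab.2 with h | h
  · exact Or.inl h.1
  · exact Or.inr h.1

lemma reach_true {D c R l : ℕ} (v : Vx (2 ^ (D + 1)) c R l) :
    (G D).Reachable v (Z true) := by
  have h := reach_hub v
  cases hb : hub D v with
  | true => rwa [hb] at h
  | false =>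
    rw [hb] at h
    refine h.trans ?_
    have hlt : 2 ^ D < 2 ^ (D + 1) := by
      rw [pow_succ]
      have : 0 < 2 ^ D := by positivity
      omega
    have e1 : (G D : SimpleGraph (Vx (2 ^ (D + 1)) c R l)).Adj (T ⟨2 ^ D, hlt⟩) (Z false) :=
      Or.inl (by simp [A])
    have e2 : (G D : SimpleGraph (Vx (2 ^ (D + 1)) c R l)).Adj (T ⟨2 ^ D, hlt⟩) (Z true) :=
      Or.inl (by simp [A])
    exact e1.reachable.symm.trans e2.reachable

lemma conn {D c R l : ℕ} : (G D : SimpleGraph (Vx (2 ^ (D + 1)) c R l)).Connected := by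
  have : Nonempty (Vx (2 ^ (D + 1)) c R l) := ⟨Z true⟩
  exact ⟨fun u v => (reach_true u).trans (reach_true v).symm⟩

lemma le_diam {D c R l : ℕ} : D + 2 ≤ (G D : SimpleGraph (Vx (2 ^ (D + 1)) c R l)).diam := by
  have : Nonempty (Vx (2 ^ (D + 1)) c R l) := ⟨Z true⟩
  have hne := (connected_iff_ediam_ne_top (G := (G D : SimpleGraph (Vx (2 ^ (D + 1)) c R l)))).1 conn
  have h0 : 0 < 2 ^ (D + 1) := by positivity
  refine le_trans ?_ (dist_le_diam hne (u := T ⟨0, h0⟩) (v := Z true))
  obtain ⟨w, hw⟩ := (reach_true (c := c) (R := R) (l := l) (T (⟨0, h0⟩ : Fin (2 ^ (D + 1))))).exists_walk_length_eq_dist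
  rw [← hw]
  have := ht_walk D w
  simpa [ht] using this

end Vx

open Vx in
theorem main (δ : ℝ) (hδ : 0 < δ) (D : ℕ) :
    ∃ (V : Type) (_ : Fintype V) (G : SimpleGraph V), Even (Fintype.card V) ∧ G.Connected ∧
      PathPairable G ∧ (G.edgeSet.ncard : ℝ) ≤ (3 / 2 + δ) * (Fintype.card V : ℝ) ∧
      D ≤ G.diam := by
  obtain ⟨R0, hR0⟩ := exists_nat_ge (1 / δ)
  obtain ⟨K, hK⟩ := exists_nat_ge (3 / 2 + δ)
  set R := R0 + 2 with hR
  set N := 2 ^ (D + 1) with hN
  set h := N + 2 + 2 * (2 * R * (2 ^ D + 1)) with hh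
  set c := N * N + 2 * N + K * h + h with hc
  have hch : h ≤ c * R := by
    calc h ≤ c := by omega
      _ ≤ c * R := Nat.le_mul_of_pos_right _ (by omega)
  set l := c * R - h with hl
  have hNN : N = 2 * 2 ^ D := by rw [hN, pow_succ]; ring
  refine ⟨Vx N c R l, inferInstance, G D, ?_, conn, pairable (by omega) (by omega), ?_,
    le_trans (by omega) le_diam⟩
  · rw [card_vx]
    have : N + 2 + (c * R + l) = 2 * (c * R - (2 * R * (2 ^ D + 1))) := by omega
    rw [this]
    exact even_two_mul _
  · have h1 := ncard_edgeSet_le (N := N) (c := c) (R := R) (l := l) D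
    have h2 : c * (R - 1) + c = c * R := by
      have : R = (R - 1) + 1 := by omega
      conv_rhs => rw [this]
      ring
    have h3 : (G D : SimpleGraph (Vx N c R l)).edgeSet.ncard + h ≤ N * N + 2 * N + 3 * (c * R) + c := by
      omega
    have h3' : ((G D : SimpleGraph (Vx N c R l)).edgeSet.ncard : ℝ) + h ≤
        N * N + 2 * N + 3 * (c * R) + c := by exact_mod_cast h3
    have h4 : N + 2 + (c * R + l) + h = N + 2 + 2 * (c * R) := by omega
    rw [card_vx]
    have h4' : (((N + 2 + (c * R + l) : ℕ)) : ℝ) + h = N + 2 + 2 * (c * R) := by exact_mod_cast h4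
    have h5 : (1 : ℝ) ≤ δ * R := by
      have : 1 / δ ≤ (R : ℝ) := hR0.trans (by rw [hR]; push_cast; linarith)
      rw [div_le_iff₀ hδ] at this
      linarith
    have h6 : (c : ℝ) ≤ δ * (c * R) := by
      have hc0 : (0 : ℝ) ≤ c := Nat.cast_nonneg _
      nlinarith
    have h7 : (c : ℝ) = N * N + 2 * N + K * h + h := by
      have : (c : ℝ) = ((N * N + 2 * N + K * h + h : ℕ) : ℝ) := by rw [← hc]
      rw [this]
      push_cast
      ring
    have hh0 : (0 : ℝ) ≤ h := Nat.cast_nonneg _
    have hN0 : (0 : ℝ) ≤ N := Nat.cast_nonneg _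
    have h8 : (3 / 2 + δ) * (h : ℝ) ≤ K * h := mul_le_mul_of_nonneg_right hK hh0
    have h9 : (((N + 2 + (c * R + l) : ℕ)) : ℝ) = N + 2 + 2 * (c * R) - h := by linarith
    rw [h9]
    nlinarith

end Pool.Agent.Helper25.PP
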