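import Mathlib

set_option autoImplicit false

namespace Pool.Agent.Helper25.SEM

/-- Sums of consecutive entries of a list. -/
def sums : List ℕ → List ℕ
  | [] => []
  | [_] => []
  | a :: b :: t => (a + b) :: sums (b :: t)

lemma sums_nil : sums [] = [] := rfl
lemma sums_singleton (a : ℕ) : sums [a] = [] := rfl
lemma sums_cons_cons (a b : ℕ) (t : List ℕ) :
    sums (a :: b :: t) = (a + b) :: sums (b :: t) := rfl

lemma sums_append : ∀ (l₁ l₂ : List ℕ) (a b : ℕ), l₁.getLast? = some a → l₂.head? = some b →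
    sums (l₁ ++ l₂) = sums l₁ ++ (a + b) :: sums l₂
  | [], _, _, _, h, _ => by simp at h
  | [x], l₂, a, b, h, h' => by
      cases l₂ with
      | nil => simp at h'
      | cons y t =>
        simp at h h'
        subst h; subst h'
        rfl
  | x :: y :: t, l₂, a, b, h, h' => by
      have h2 : (y :: t).getLast? = some a := by
        simpa using h
      have := sums_append (y :: t) l₂ a b h2 h'
      simp only [List.cons_append] at this ⊢
      rw [sums_cons_cons, sums_cons_cons, this]
      rfl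

lemma sums_reverse : ∀ (l : List ℕ), sums l.reverse = (sums l).reverse
  | [] => rfl
  | [x] => rfl
  | x :: y :: t => by
      have ih := sums_reverse (y :: t)
      rw [sums_cons_cons, List.reverse_cons (a := x), List.reverse_cons (a := x + y)]
      rw [sums_append (y :: t).reverse [x] y x (by simp) (by simp), ih, sums_singleton, add_comm]

lemma sums_length : ∀ (l : List ℕ), (sums l).length = l.length - 1
  | [] => rfl
  | [x] => rfl
  | x :: y :: t => by
      have ih := sums_length (y :: t)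
      rw [sums_cons_cons, List.length_cons, ih]
      simp

lemma sums_getElem : ∀ (l : List ℕ) (i : ℕ) (h : i < (sums l).length)
    (h1 : i < l.length) (h2 : i + 1 < l.length), (sums l)[i] = l[i] + l[i + 1]
  | [], i, h, _, _ => by simp [sums_nil] at h
  | [x], i, h, _, _ => by simp [sums_singleton] at h
  | x :: y :: t, 0, h, _, _ => by simp [sums_cons_cons]
  | x :: y :: t, i + 1, h, h1, h2 => by
      have := sums_getElem (y :: t) i (by simpa [sums_cons_cons] using h) (by simpa using h1)
        (by simpa using h2)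
      simp only [sums_cons_cons, List.getElem_cons_succ]
      rw [this]
      simp

/-- Cyclic consecutive sums. -/
def csums (l : List ℕ) : List ℕ := sums (l ++ l.head?.toList)

lemma csums_eq (l : List ℕ) (a b : ℕ) (h : l.head? = some a) (h' : l.getLast? = some b) :
    csums l = sums l ++ [b + a] := by
  unfold csums
  rw [h]
  simp only [Option.toList_some]
  rw [sums_append l [a] b a h' rfl]
  rfl

/-- duplicate free list all of whose entries satisfy `P`. -/
def W (l : List ℕ) (P : ℕ → Prop) : Prop := l.Nodup ∧ ∀ v ∈ l, P v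

lemma W.append {l₁ l₂ : List ℕ} {P₁ P₂ : ℕ → Prop} (h₁ : W l₁ P₁) (h₂ : W l₂ P₂)
    (hd : ∀ v, P₁ v → P₂ v → False) : W (l₁ ++ l₂) (fun v => P₁ v ∨ P₂ v) := by
  constructor
  · rw [List.nodup_append]
    refine ⟨h₁.1, h₂.1, ?_⟩
    intro a ha b hb hab
    subst hab
    exact hd a (h₁.2 a ha) (h₂.2 a hb)
  · intro v hv
    rcases List.mem_append.1 hv with h | h
    · exact Or.inl (h₁.2 v h)
    · exact Or.inr (h₂.2 v h)

lemma W.single (a : ℕ) : W [a] (fun v => v = a) := by
  constructor
  · simp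
  · intro v hv
    simpa using hv

lemma W.nil (P : ℕ → Prop) : W [] P := by
  constructor
  · simp
  · intro v hv
    simp at hv

lemma W.mono {l : List ℕ} {P Q : ℕ → Prop} (h : W l P) (hPQ : ∀ v, P v → Q v) : W l Q :=
  ⟨h.1, fun v hv => hPQ v (h.2 v hv)⟩

lemma W.reverse {l : List ℕ} {P : ℕ → Prop} (h : W l P) : W l.reverse P :=
  ⟨List.nodup_reverse.2 h.1, fun v hv => h.2 v (List.mem_reverse.1 hv)⟩

/-- A labelled path segment: length, first label, last label, label region, sum region. -/
structure Seg (l : List ℕ) (n a b : ℕ) (P Q : ℕ → Prop) : Prop where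
  len : l.length = n
  hd : l.head? = some a
  lst : l.getLast? = some b
  lab : W l P
  sm : W (sums l) Q

lemma Seg.single (a : ℕ) : Seg [a] 1 a a (fun v => v = a) (fun v => v < 0) where
  len := rfl
  hd := rfl
  lst := rfl
  lab := W.single a
  sm := W.nil _

lemma Seg.append {l₁ l₂ : List ℕ} {n₁ n₂ a₁ b₁ a₂ b₂ : ℕ} {P₁ Q₁ P₂ Q₂ : ℕ → Prop}
    (h₁ : Seg l₁ n₁ a₁ b₁ P₁ Q₁) (h₂ : Seg l₂ n₂ a₂ b₂ P₂ Q₂)
    (hP : ∀ v, P₁ v → P₂ v → False) (hQ : ∀ v, Q₁ v → Q₂ v → False)
    (hl₁ : ¬ Q₁ (b₁ + a₂)) (hl₂ : ¬ Q₂ (b₁ + a₂)) :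
    Seg (l₁ ++ l₂) (n₁ + n₂) a₁ b₂ (fun v => P₁ v ∨ P₂ v)
      (fun v => Q₁ v ∨ v = b₁ + a₂ ∨ Q₂ v) where
  len := by rw [List.length_append, h₁.len, h₂.len]
  hd := by rw [List.head?_append, h₁.hd]; rfl
  lst := by rw [List.getLast?_append, h₂.lst]; rfl
  lab := h₁.lab.append h₂.lab hP
  sm := by
    rw [sums_append l₁ l₂ b₁ a₂ h₁.lst h₂.hd]
    have h3 : W ([b₁ + a₂] ++ sums l₂) (fun v => v = b₁ + a₂ ∨ Q₂ v) :=
      (W.single _).append h₂.sm (by
        intro v hv hv2
        subst hv
        exact hl₂ hv2)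
    refine h₁.sm.append h3 ?_
    intro v hv hv2
    rcases hv2 with hv2 | hv2
    · subst hv2; exact hl₁ hv
    · exact hQ v hv hv2

lemma Seg.reverse {l : List ℕ} {n a b : ℕ} {P Q : ℕ → Prop} (h : Seg l n a b P Q) :
    Seg l.reverse n b a P Q where
  len := by rw [List.length_reverse, h.len]
  hd := by rw [List.head?_reverse, h.lst]
  lst := by rw [List.getLast?_reverse, h.hd]
  lab := h.lab.reverse
  sm := by rw [sums_reverse]; exact h.sm.reverse

lemma Seg.mono {l : List ℕ} {n a b : ℕ} {P Q P' Q' : ℕ → Prop} (h : Seg l n a b P Q)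
    {n' a' b' : ℕ} (hn : n = n') (ha : a = a') (hb : b = b')
    (hP : ∀ v, P v → P' v) (hQ : ∀ v, Q v → Q' v) : Seg l n' a' b' P' Q' := by
  subst hn; subst ha; subst hb
  exact ⟨h.len, h.hd, h.lst, h.lab.mono hP, h.sm.mono hQ⟩

/-- The zigzag with `m + 1` labels `x, .., x + m` and `m` labels `y, .., y + m - 1`. -/
def zz : ℕ → ℕ → ℕ → List ℕ
  | x, _, 0 => [x]
  | x, y, m + 1 => x :: y :: zz (x + 1) (y + 1) m

lemma zz_seg : ∀ (m x y : ℕ), (x + m + 1 ≤ y ∨ y + m ≤ x) →
    Seg (zz x y m) (2 * m + 1) x (x + m)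
      (fun v => (x ≤ v ∧ v < x + m + 1) ∨ (y ≤ v ∧ v < y + m))
      (fun v => x + y ≤ v ∧ v < x + y + 2 * m)
  | 0, x, y, _ => (Seg.single x).mono rfl rfl rfl (fun v hv => by omega) (fun v hv => by omega)
  | m + 1, x, y, h => by
      have ih := zz_seg m (x + 1) (y + 1) (by omega)
      have h1 := ((Seg.single x).append (Seg.single y) (by intro v h1 h2; omega)
        (by intro v h1 h2; omega) (by omega) (by omega)).append ih
        (by intro v h1 h2; omega) (by intro v h1 h2; omega) (by omega) (by omega)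
      exact h1.mono (by omega) rfl (by omega) (fun v hv => by omega) (fun v hv => by omega)

/-- Even blocks with prescribed ends exist, for all positions. -/
def EB (M x : ℕ) : Prop := ∀ p q : ℕ, (p + M ≤ q ∨ q + M ≤ p) →
  ∃ l, Seg l (2 * M) (p + (M - 1 - x)) (q + x)
    (fun v => (p ≤ v ∧ v < p + M) ∨ (q ≤ v ∧ v < q + M))
    (fun v => p + q ≤ v ∧ v + 1 < p + q + 2 * M)

lemma EB.flip {M x : ℕ} (hx : x < M) (h : EB M x) : EB M (M - 1 - x) := by
  intro p q hpq
  obtain ⟨l, hl⟩ := h q p (by omega)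
  exact ⟨l.reverse, hl.reverse.mono rfl (by omega) (by omega) (fun v hv => by omega)
    (fun v hv => by omega)⟩

lemma EB.central (x : ℕ) : EB (2 * x + 1) x := by
  intro p q hpq
  have h1 := zz_seg x (q + x) (p + x + 1) (by omega)
  have h2 := zz_seg x p q (by omega)
  have h3 := h1.append h2 (by intro v h1 h2; omega) (by intro v h1 h2; omega) (by omega)
    (by omega)
  exact ⟨_, h3.reverse.mono (by omega) (by omega) (by omega) (fun v hv => by omega)
    (fun v hv => by omega)⟩

lemma EB.step {M x : ℕ} (hx : 2 * x + 2 ≤ M) (h : EB (M - x - 1) x) : EB M x := by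
  intro p q hpq
  obtain ⟨l, hl⟩ := h p q (by omega)
  have h1 := zz_seg x (p + (M - x - 1)) (q + (M - x - 1)) (by omega)
  have h2 := h1.append (Seg.single (q + (M - 1))) (by intro v h1 h2; omega)
    (by intro v h1 h2; omega) (by omega) (by omega)
  have h3 := h2.append hl (by intro v h1 h2; omega) (by intro v h1 h2; omega) (by omega)
    (by omega)
  exact ⟨_, h3.mono (by omega) (by omega) (by omega) (fun v hv => by omega)
    (fun v hv => by omega)⟩

theorem EB.all : ∀ (M x : ℕ), x < M → EB M x := by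
  intro M
  induction M using Nat.strong_induction_on with
  | _ M ih =>
    have key : ∀ x, 2 * x + 2 ≤ M → EB M x := fun x hx =>
      EB.step hx (ih (M - x - 1) (by omega) x (by omega))
    intro x hx
    rcases lt_trichotomy (2 * x + 1) M with h | h | h
    · exact key x (by omega)
    · rw [← h]; exact EB.central x
    · have := (key (M - 1 - x) (by omega)).flip (by omega)
      have e : M - 1 - (M - 1 - x) = x := by omega
      rwa [e] at this

/-- Odd blocks with prescribed ends. -/
def OB (M x : ℕ) : Prop := ∀ p q : ℕ, (p + M + 1 ≤ q ∨ q + M ≤ p) →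
  ∃ l, Seg l (2 * M + 1) (p + (M - x)) (p + x)
    (fun v => (p ≤ v ∧ v < p + M + 1) ∨ (q ≤ v ∧ v < q + M))
    (fun v => p + q ≤ v ∧ v < p + q + 2 * M)

lemma OB.flip {M x : ℕ} (hx : x ≤ M) (h : OB M x) : OB M (M - x) := by
  intro p q hpq
  obtain ⟨l, hl⟩ := h p q (by omega)
  exact ⟨l.reverse, hl.reverse.mono rfl (by omega) (by omega) (fun v hv => by omega)
    (fun v hv => by omega)⟩

lemma OB.small {M x : ℕ} (hx : 2 * x < M) : OB M x := by
  intro p q hpq
  obtain ⟨l, hl⟩ := EB.all (M - x) x (by omega) (p + x + 1) (q + x) (by omega)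
  have h1 := zz_seg x p q (by omega)
  have h2 := hl.append h1 (by intro v h1 h2; omega) (by intro v h1 h2; omega) (by omega)
    (by omega)
  exact ⟨_, h2.mono (by omega) (by omega) (by omega) (fun v hv => by omega)
    (fun v hv => by omega)⟩

theorem OB.all (M x : ℕ) (hx : x ≤ M) (h : 2 * x ≠ M) : OB M x := by
  rcases lt_or_gt_of_ne h with h | h
  · exact OB.small h
  · have := (OB.small (M := M) (x := M - x) (by omega)).flip (by omega)
    have e : M - (M - x) = x := by omega
    rwa [e] at this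

end Pool.Agent.Helper25.SEM
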