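import Pool.Agent.Helper25.SemBase

set_option autoImplicit false

namespace Pool.Agent.Helper25.SEM

/-- Certificate: labels `0, .., m + n - 1` on a cycle list and another cycle list, all cyclic
sums distinct and in an interval of length `m + n`. -/
def Cert (m n : ℕ) : Prop := ∃ (C P : List ℕ) (k : ℕ), C.length = m ∧ P.length = n ∧
  W (C ++ P) (fun v => v < m + n) ∧
  W (csums C ++ csums P) (fun s => k ≤ s ∧ s < k + (m + n))

lemma cert_of_segs {C P : List ℕ} {m n a b c d : ℕ} {P₁ Q₁ P₂ Q₂ : ℕ → Prop}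
    (hC : Seg C m a b P₁ Q₁) (hP : Seg P n c d P₂ Q₂) (k : ℕ)
    (h1 : ∀ v, P₁ v → P₂ v → False)
    (h2 : ∀ v, P₁ v ∨ P₂ v → v < m + n)
    (h3 : ¬ Q₁ (b + a)) (h4 : ¬ Q₂ (d + c)) (h5 : ¬ Q₁ (d + c)) (h6 : ¬ Q₂ (b + a))
    (h7 : b + a ≠ d + c) (h8 : ∀ v, Q₁ v → Q₂ v → False)
    (h9 : ∀ v, Q₁ v ∨ Q₂ v → k ≤ v ∧ v < k + (m + n))
    (h10 : k ≤ b + a ∧ b + a < k + (m + n)) (h11 : k ≤ d + c ∧ d + c < k + (m + n)) :
    Cert m n := by
  refine ⟨C, P, k, hC.len, hP.len, (hC.lab.append hP.lab h1).mono h2, ?_⟩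
  rw [csums_eq C a b hC.hd hC.lst, csums_eq P c d hP.hd hP.lst]
  have e1 : W (sums C ++ [b + a]) (fun v => Q₁ v ∨ v = b + a) :=
    hC.sm.append (W.single _) (by intro v hv hv2; subst hv2; exact h3 hv)
  have e2 : W (sums P ++ [d + c]) (fun v => Q₂ v ∨ v = d + c) :=
    hP.sm.append (W.single _) (by intro v hv hv2; subst hv2; exact h4 hv)
  refine (e1.append e2 ?_).mono ?_
  · rintro v (hv | hv) (hw | hw)
    · exact h8 v hv hw
    · subst hw; exact h5 hv
    · subst hv; exact h6 hw
    · exact h7 (hv.symm.trans hw)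
  · rintro v ((hv | hv) | (hv | hv))
    · exact h9 v (Or.inl hv)
    · subst hv; exact h10
    · exact h9 v (Or.inr hv)
    · subst hv; exact h11

/-- `m = 4 t`, `n = 2 r + 1`, `1 ≤ r < t`. -/
lemma caseA1 (t r : ℕ) (hr : 1 ≤ r) (hrt : r + 1 ≤ t) : Cert (4 * t) (2 * r + 1) := by
  obtain ⟨l₁, s₁⟩ := EB.all t 0 (by omega) (t + r + 1) (3 * t + 2 * r + 1) (by omega)
  obtain ⟨l₂, s₂⟩ := EB.all t r (by omega) 0 (2 * t + r + 1) (by omega)
  have hC := s₁.append s₂ (by intro v h1 h2; omega) (by intro v h1 h2; omega) (by omega)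
    (by omega)
  have hP := zz_seg r t (3 * t + r + 1) (by omega)
  have := cert_of_segs hC hP (2 * t + r) (by intro v h1 h2; omega) (by intro v h1; omega)
    (by omega) (by omega) (by omega) (by omega) (by omega) (by intro v h1 h2; omega)
    (by intro v h1; omega) (by omega) (by omega)
  have e : 2 * t + 2 * t = 4 * t := by omega
  rwa [e] at this

/-- `m = 4 t`, `n = 2 t + 1`, `2 ≤ t`. -/
lemma caseA2 (t : ℕ) (ht : 2 ≤ t) : Cert (4 * t) (2 * t + 1) := by
  obtain ⟨l₀, s₀⟩ := EB.all t (t - 2) (by omega) (2 * t + 1) (5 * t + 1) (by omega)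
  have s₄ := (zz_seg (t - 1) 0 (3 * t + 1) (by omega)).reverse
  have hC1 := s₀.append s₄ (by intro v h1 h2; omega) (by intro v h1 h2; omega) (by omega)
    (by omega)
  have hC := hC1.append (Seg.single (5 * t - 1)) (by intro v h1 h2; omega)
    (by intro v h1 h2; omega) (by omega) (by omega)
  have s₁ := (Seg.single (2 * t)).append (Seg.single (5 * t)) (by intro v h1 h2; omega)
    (by intro v h1 h2; omega) (by omega) (by omega)
  have s₃ := (zz_seg (t - 1) t (4 * t) (by omega)).reverse
  have hP := s₁.append s₃ (by intro v h1 h2; omega) (by intro v h1 h2; omega) (by omega)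
    (by omega)
  have := cert_of_segs hC hP (3 * t) (by intro v h1 h2; omega) (by intro v h1; omega)
    (by omega) (by omega) (by omega) (by omega) (by omega) (by intro v h1 h2; omega)
    (by intro v h1; omega) (by omega) (by omega)
  have e : 2 * t + (2 * (t - 1) + 1) + 1 = 4 * t := by omega
  have e' : 1 + 1 + (2 * (t - 1) + 1) = 2 * t + 1 := by omega
  rwa [e, e'] at this

/-- `m = 4 t`, `n = 2 r + 1`, `t < r`. -/
lemma caseA3 (t r : ℕ) (ht : 1 ≤ t) (hrt : t + 1 ≤ r) : Cert (4 * t) (2 * r + 1) := by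
  obtain ⟨l₁, s₁⟩ := EB.all t 0 (by omega) (t + 1) (3 * t + r + 1) (by omega)
  obtain ⟨l₂, s₂⟩ := EB.all t 0 (by omega) 0 (2 * t + r + 1) (by omega)
  have hC := s₁.append s₂ (by intro v h1 h2; omega) (by intro v h1 h2; omega) (by omega)
    (by omega)
  obtain ⟨l₃, s₃⟩ := EB.all r t (by omega) (2 * t + 1) (4 * t + r + 1) (by omega)
  have hP := s₃.append (Seg.single t) (by intro v h1 h2; omega) (by intro v h1 h2; omega)
    (by omega) (by omega)
  have := cert_of_segs hC hP (2 * t + r) (by intro v h1 h2; omega) (by intro v h1; omega)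
    (by omega) (by omega) (by omega) (by omega) (by omega) (by intro v h1 h2; omega)
    (by intro v h1; omega) (by omega) (by omega)
  have e : 2 * t + 2 * t = 4 * t := by omega
  rwa [e] at this

/-- `m = 4 t + 2`, `n = 2 r + 1`, `r ≤ t`. -/
lemma caseB1gen (t r b : ℕ) (hb : 1 ≤ b) (hbt : b + 1 ≤ t) (hbr : b ≤ r) (hrt : r ≤ t)
    (hne : 2 * (r - b + 1) ≠ t) : Cert (4 * t + 2) (2 * r + 1) := by
  obtain ⟨d, rfl⟩ : ∃ d, r = d + b := ⟨r - b, by omega⟩
  obtain ⟨l₀, s₀⟩ := EB.all t b (by omega) (t + (d + b) + 2) (3 * t + 2 * (d + b) + 3) (by omega)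
  obtain ⟨l₄, s₄⟩ := OB.all t (d + 1) (by omega) (by omega) (2 * t + (d + b) + 2) 0 (by omega)
  have hC1 := s₀.append (Seg.single (t + d + 1)) (by intro v h1 h2; omega)
    (by intro v h1 h2; omega) (by omega) (by omega)
  have hC := hC1.append s₄ (by intro v h1 h2; omega) (by intro v h1 h2; omega) (by omega)
    (by omega)
  obtain ⟨l₁, s₁⟩ := EB.all b 0 (by omega) (t + d + 2) (3 * t + (d + b) + 3 + d) (by omega)
  have s₃ := (zz_seg d t (3 * t + (d + b) + 3) (by omega)).reverse
  have hP := s₁.append s₃ (by intro v h1 h2; omega) (by intro v h1 h2; omega) (by omega)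
    (by omega)
  have := cert_of_segs hC hP (2 * t + 1 + (d + b)) (by intro v h1 h2; omega)
    (by intro v h1; omega)
    (by omega) (by omega) (by omega) (by omega) (by omega) (by intro v h1 h2; omega)
    (by intro v h1; omega) (by omega) (by omega)
  have e : 2 * t + 1 + (2 * t + 1) = 4 * t + 2 := by omega
  have e' : 2 * b + (2 * d + 1) = 2 * (d + b) + 1 := by omega
  rwa [e, e'] at this

/-- `m = 4 t + 2`, `n = 2 (a + b) + 1`. -/
lemma caseB3gen (t a b x z : ℕ) (ht : 1 ≤ t) (hb : 1 ≤ b) (hbt : b ≤ t) (hbt2 : 2 * b ≠ t)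
    (hz : z < b) (hxz : x + z + 1 = b + t) (hxa : x ≤ a) (hxa2 : 2 * x ≠ a) :
    Cert (4 * t + 2) (2 * (a + b) + 1) := by
  have s₁ := zz_seg t (t + b) (3 * t + (a + b) + 3 + b) (by omega)
  obtain ⟨l₃, s₃⟩ := OB.all t (t - b) (by omega) (by omega) (2 * t + (a + b) + 2) 0 (by omega)
  have hC := s₁.append s₃ (by intro v h1 h2; omega) (by intro v h1 h2; omega) (by omega)
    (by omega)
  obtain ⟨l₂, s₂⟩ := EB.all b z (by omega) t (3 * t + (a + b) + 3) (by omega)
  obtain ⟨l₀, s₀⟩ := OB.all a (a - x) (by omega) (by omega) (2 * t + b + 1)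
    (4 * t + (a + b) + 3 + b) (by omega)
  have hP := s₂.append s₀ (by intro v h1 h2; omega) (by intro v h1 h2; omega) (by omega)
    (by omega)
  have := cert_of_segs hC hP (2 * t + 1 + (a + b)) (by intro v h1 h2; omega)
    (by intro v h1; omega)
    (by omega) (by omega) (by omega) (by omega) (by omega) (by intro v h1 h2; omega)
    (by intro v h1; omega) (by omega) (by omega)
  have e : 2 * t + 1 + (2 * t + 1) = 4 * t + 2 := by omega
  have e' : 2 * b + (2 * a + 1) = 2 * (a + b) + 1 := by omega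
  rwa [e, e'] at this

instance (l : List ℕ) (P : ℕ → Prop) [DecidablePred P] : Decidable (W l P) := by
  unfold W; infer_instance

lemma cert_6_3 : Cert 6 3 := by
  refine ⟨[1, 7, 5, 2, 3, 8], [0, 4, 6], 4, rfl, rfl, ?_, ?_⟩ <;> decide
lemma cert_6_7 : Cert 6 7 := by
  refine ⟨[5, 8, 1, 7, 0, 10], [4, 12, 6, 11, 3, 9, 2], 6, rfl, rfl, ?_, ?_⟩ <;> decide
lemma cert_10_3 : Cert 10 3 := by
  refine ⟨[6, 10, 1, 8, 0, 7, 3, 9, 5, 12], [4, 11, 2], 6, rfl, rfl, ?_, ?_⟩ <;> decide
lemma cert_10_7 : Cert 10 7 := by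
  refine ⟨[7, 12, 4, 9, 0, 10, 1, 11, 3, 14], [6, 16, 8, 15, 5, 13, 2], 8, rfl, rfl, ?_, ?_⟩ <;>
    decide

theorem cert_all (m n : ℕ) (hm : 3 ≤ m) (hn : 3 ≤ n) (hme : Even m) (hno : Odd n)
    (h43 : ¬ (m = 4 ∧ n = 3)) : Cert m n := by
  obtain ⟨r, rfl⟩ := hno
  obtain ⟨h, rfl⟩ := hme
  rcases Nat.even_or_odd h with ⟨t, rfl⟩ | ⟨t, rfl⟩
  · have e : t + t + (t + t) = 4 * t := by omega
    rw [e] at *
    rcases lt_trichotomy r t with hlt | heq | hgt
    · exact caseA1 t r (by omega) (by omega)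
    · subst heq
      exact caseA2 r (by omega)
    · exact caseA3 t r (by omega) (by omega)
  · have e : 2 * t + 1 + (2 * t + 1) = 4 * t + 2 := by omega
    rw [e] at *
    by_cases hrt : r ≤ t
    · -- r ≤ t
      by_cases ht1 : t = 1
      · subst ht1
        have : r = 1 := by omega
        subst this
        exact cert_6_3
      · by_cases h2r : 2 * r = t
        · by_cases ht2 : t = 2
          · subst ht2
            have : r = 1 := by omega
            subst this
            exact cert_10_3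
          · exact caseB1gen t r 2 (by omega) (by omega) (by omega) hrt (by omega)
        · exact caseB1gen t r 1 (by omega) (by omega) (by omega) hrt (by omega)
    · have hrt' : t + 1 ≤ r := by omega
      have ht0 : 1 ≤ t := by omega
      by_cases ht2 : t = 2
      · subst ht2
        by_cases hr3 : r = 3
        · subst hr3; exact cert_10_7
        · by_cases hr6 : r = 6
          · subst hr6
            exact caseB3gen 2 4 2 3 0 (by omega) (by omega) (by omega) (by omega) (by omega)
              (by omega) (by omega) (by omega)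
          · have := caseB3gen 2 (r - 2) 2 2 1 (by omega) (by omega) (by omega) (by omega)
              (by omega) (by omega) (by omega) (by omega)
            have e' : r - 2 + 2 = r := by omega
            rwa [e'] at this
      · by_cases hr2 : r = 2 * t + 1
        · by_cases ht1 : t = 1
          · subst ht1; subst hr2; exact cert_6_7
          · have := caseB3gen t (t + 1) t t (t - 1) (by omega) (by omega) (by omega) (by omega)
              (by omega) (by omega) (by omega) (by omega)
            have e' : t + 1 + t = r := by omega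
            rwa [e'] at this
        · have := caseB3gen t (r - 1) 1 t 0 (by omega) (by omega) (by omega) (by omega)
            (by omega) (by omega) (by omega) (by omega)
          have e' : r - 1 + 1 = r := by omega
          rwa [e'] at this

end Pool.Agent.Helper25.SEM
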