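import Pool.Agent.Helper25.SemCases

set_option autoImplicit false

namespace Pool.Agent.Helper25.SEM

/-- The existence statement of the problem. -/
def Sem (m n : ℕ) : Prop :=
  ∃ f : Fin m ⊕ Fin n → ℕ, ∃ g : Fin m ⊕ Fin n → ℕ, ∃ k : ℕ,
        Function.Injective f ∧
        Function.Injective g ∧
        (∀ v, 1 ≤ f v ∧ f v ≤ m + n) ∧
        (∀ e, m + n + 1 ≤ g e ∧ g e ≤ 2 * (m + n)) ∧
        (∀ i j : Fin m, j.val = (i.val + 1) % m →
            f (Sum.inl i) + f (Sum.inl j) + g (Sum.inl i) = k) ∧
        (∀ i j : Fin n, j.val = (i.val + 1) % n →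
            f (Sum.inr i) + f (Sum.inr j) + g (Sum.inr i) = k)

lemma csums_length (l : List ℕ) : (csums l).length = l.length := by
  unfold csums
  rw [sums_length]
  cases l with
  | nil => rfl
  | cons a t => simp

lemma csums_getElem (l : List ℕ) (i : ℕ) (hi : i < l.length) (j : ℕ) (hj : j < l.length)
    (hij : j = (i + 1) % l.length) (h : i < (csums l).length) :
    (csums l)[i] = l[i] + l[j] := by
  have hne : l ≠ [] := by
    intro h0; subst h0; simp at hi
  obtain ⟨a, t, rfl⟩ := List.exists_cons_of_ne_nil hne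
  have hA : i < ((a :: t) ++ (a :: t).head?.toList).length := by simp at hi ⊢; omega
  have hB : i + 1 < ((a :: t) ++ (a :: t).head?.toList).length := by simp at hi ⊢; omega
  have key := sums_getElem ((a :: t) ++ (a :: t).head?.toList) i h hA hB
  refine Eq.trans (show (csums (a :: t))[i] = _ from key) ?_
  congr 1
  · rw [List.getElem_append_left hi]
  · by_cases h1 : i + 1 < (a :: t).length
    · rw [List.getElem_append_left h1]
      congr 1
      rw [hij, Nat.mod_eq_of_lt h1]
    · have h2 : i + 1 = (a :: t).length := by omega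
      have h3 : j = 0 := by rw [hij, h2, Nat.mod_self]
      subst h3
      rw [List.getElem_append_right (by omega)]
      simp [h2]

lemma sem_of_cert {m n : ℕ} (h : Cert m n) : Sem m n := by
  obtain ⟨C, P, k, hC, hP, hlab, hsum⟩ := h
  subst hC; subst hP
  set p := C.length + P.length with hp
  have hcl : (csums C).length = C.length := csums_length C
  have hpl : (csums P).length = P.length := csums_length P
  -- label function
  let f : Fin C.length ⊕ Fin P.length → ℕ := fun v => match v with
    | Sum.inl i => C[i.val] + 1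
    | Sum.inr i => P[i.val] + 1
  let s : Fin C.length ⊕ Fin P.length → ℕ := fun v => match v with
    | Sum.inl i => (csums C)[i.val]'(by rw [hcl]; exact i.2)
    | Sum.inr i => (csums P)[i.val]'(by rw [hpl]; exact i.2)
  have hnd := List.nodup_append.1 hlab.1
  have hsd := List.nodup_append.1 hsum.1
  have finj : Function.Injective f := by
    rintro (i | i) (j | j) hij
    · have : C[i.val] = C[j.val] := by simpa [f] using hij
      exact congrArg _ (Fin.ext ((List.Nodup.getElem_inj_iff hnd.1).1 this))
    · have : C[i.val] = P[j.val] := by simpa [f] using hij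
      exact absurd this (hnd.2.2 _ (List.getElem_mem _) _ (List.getElem_mem _))
    · have : P[i.val] = C[j.val] := by simpa [f] using hij
      exact absurd this.symm (hnd.2.2 _ (List.getElem_mem _) _ (List.getElem_mem _))
    · have : P[i.val] = P[j.val] := by simpa [f] using hij
      exact congrArg _ (Fin.ext ((List.Nodup.getElem_inj_iff hnd.2.1).1 this))
  have sinj : Function.Injective s := by
    rintro (i | i) (j | j) hij
    · exact congrArg _ (Fin.ext ((List.Nodup.getElem_inj_iff hsd.1).1 hij))
    · exact absurd hij (hsd.2.2 _ (List.getElem_mem _) _ (List.getElem_mem _))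
    · exact absurd hij.symm (hsd.2.2 _ (List.getElem_mem _) _ (List.getElem_mem _))
    · exact congrArg _ (Fin.ext ((List.Nodup.getElem_inj_iff hsd.2.1).1 hij))
  have sbd : ∀ v, k ≤ s v ∧ s v < k + p := by
    rintro (i | i)
    · exact hsum.2 _ (List.mem_append.2 (Or.inl (List.getElem_mem _)))
    · exact hsum.2 _ (List.mem_append.2 (Or.inr (List.getElem_mem _)))
  have fbd : ∀ v, 1 ≤ f v ∧ f v ≤ p := by
    rintro (i | i)
    · have := hlab.2 _ (List.mem_append.2 (Or.inl (List.getElem_mem i.2)))
      simp only [f]; omega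
    · have := hlab.2 _ (List.mem_append.2 (Or.inr (List.getElem_mem i.2)))
      simp only [f]; omega
  refine ⟨f, fun e => 2 * p + k - s e, 2 * p + k + 2, finj, ?_, fbd, ?_, ?_, ?_⟩
  · intro a b hab
    have h1 := sbd a
    have h2 := sbd b
    apply sinj
    simp only at hab
    omega
  · intro e
    have h1 := sbd e
    simp only
    omega
  · intro i j hij
    have h1 := sbd (Sum.inl i)
    have h2 := csums_getElem C i.val i.2 j.val j.2 hij (by rw [hcl]; exact i.2)
    simp only [f]
    have h3 : s (Sum.inl i) = C[i.val] + C[j.val] := h2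
    omega
  · intro i j hij
    have h1 := sbd (Sum.inr i)
    have h2 := csums_getElem P i.val i.2 j.val j.2 hij (by rw [hpl]; exact i.2)
    simp only [f]
    have h3 : s (Sum.inr i) = P[i.val] + P[j.val] := h2
    omega

lemma sem_symm {m n : ℕ} (h : Sem m n) : Sem n m := by
  obtain ⟨f, g, k, h1, h2, h3, h4, h5, h6⟩ := h
  refine ⟨f ∘ Sum.swap, g ∘ Sum.swap, k, h1.comp Sum.swap_leftInverse.injective,
    h2.comp Sum.swap_leftInverse.injective, ?_, ?_, ?_, ?_⟩
  · intro v; have := h3 v.swap; simp only [Function.comp]; omega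
  · intro v; have := h4 v.swap; simp only [Function.comp]; omega
  · intro i j hij; exact h6 i j hij
  · intro i j hij; exact h5 i j hij

/-- an injective map from a `p`-element type into `[a + 1, a + p]` has the expected sum. -/
lemma sum_of_inj {α : Type} [Fintype α] (p a : ℕ) (hα : Fintype.card α = p) (f : α → ℕ)
    (hf : Function.Injective f) (hb : ∀ v, a + 1 ≤ f v ∧ f v ≤ a + p) :
    2 * ∑ v, f v = p * (2 * a + p + 1) := by
  have himg : Finset.univ.image f = Finset.Icc (a + 1) (a + p) := by
    apply Finset.eq_of_subset_of_card_le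
    · intro y hy
      obtain ⟨v, -, rfl⟩ := Finset.mem_image.1 hy
      exact Finset.mem_Icc.2 (hb v)
    · rw [Finset.card_image_of_injective _ hf, Finset.card_univ, hα, Nat.card_Icc]
      omega
  have h1 : ∑ v, f v = ∑ y ∈ Finset.Icc (a + 1) (a + p), y := by
    rw [← himg, Finset.sum_image (fun x _ y _ h => hf h)]
  rw [h1]
  clear h1 himg hb hf hα
  induction p with
  | zero => simp
  | succ p ih =>
    have : Finset.Icc (a + 1) (a + (p + 1)) = insert (a + (p + 1)) (Finset.Icc (a + 1) (a + p)) := by
      ext y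
      simp only [Finset.mem_Icc, Finset.mem_insert]
      omega
    rw [this, Finset.sum_insert (by simp), mul_add, ih]
    ring

lemma sum_cyc {m : ℕ} (F : Fin m → ℕ) (G : Fin m → ℕ) (k : ℕ)
    (h : ∀ i j : Fin m, j.val = (i.val + 1) % m → F i + F j + G i = k) :
    2 * ∑ i, F i + ∑ i, G i = m * k := by
  rcases Nat.eq_zero_or_pos m with rfl | hm
  · simp
  have : NeZero m := ⟨by omega⟩
  have e : ∀ i : Fin m, F i + F (finRotate m i) + G i = k := by
    intro i
    apply h
    obtain ⟨m', rfl⟩ : ∃ m', m = m' + 1 := ⟨m - 1, by omega⟩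
    rw [finRotate_apply, Fin.val_add, Fin.val_one', Nat.add_mod_mod]
  have h2 : ∑ i, (F i + F (finRotate m i) + G i) = m * k := by
    rw [Finset.sum_congr rfl (fun i _ => e i)]
    simp
  rw [Finset.sum_add_distrib, Finset.sum_add_distrib, Equiv.sum_comp (finRotate m) F] at h2
  omega

lemma odd_of_sem {m n : ℕ} (hm : 3 ≤ m) (h : Sem m n) : Odd (m + n) := by
  obtain ⟨f, g, k, h1, h2, h3, h4, h5, h6⟩ := h
  have hF := sum_of_inj (m + n) 0 (by simp) f h1 (by intro v; have := h3 v; omega)
  have hG := sum_of_inj (m + n) (m + n) (by simp) g h2 (by intro v; have := h4 v; omega)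
  have e1 := sum_cyc (fun i => f (Sum.inl i)) (fun i => g (Sum.inl i)) k h5
  have e2 := sum_cyc (fun i => f (Sum.inr i)) (fun i => g (Sum.inr i)) k h6
  rw [Fintype.sum_sum_type] at hF hG
  by_contra hodd
  rw [Nat.not_odd_iff_even] at hodd
  obtain ⟨q, hq⟩ := hodd
  -- 2 p k = 2 p (p+1) + p (3 p + 1)
  have e3 : 2 * ((m + n) * k) = 2 * ((m + n) * (2 * 0 + (m + n) + 1)) +
      (m + n) * (2 * (m + n) + (m + n) + 1) := by
    rw [← hF, ← hG]
    have : (m + n) * k = m * k + n * k := by ring
    rw [this, ← e1, ← e2]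
    ring
  have e4 : (m + n) * (2 * k) = (m + n) * (2 * (m + n + 1) + (3 * (m + n) + 1)) := by
    linarith
  have e5 := Nat.eq_of_mul_eq_mul_left (by omega) e4
  omega

theorem main (m n : ℕ) (hm : 3 ≤ m) (hn : 3 ≤ n)
    (h : ¬ ((m = 3 ∧ n = 4) ∨ (m = 4 ∧ n = 3))) : Sem m n ↔ Odd (m + n) := by
  constructor
  · exact odd_of_sem hm
  · intro hodd
    rcases Nat.even_or_odd m with he | ho
    · have hn' : Odd n := by
        rcases Nat.even_or_odd n with h1 | h1
        · exact absurd hodd (Nat.not_odd_iff_even.2 (he.add h1))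
        · exact h1
      exact sem_of_cert (cert_all m n hm hn he hn' (by tauto))
    · have hn' : Even n := by
        rcases Nat.even_or_odd n with h1 | h1
        · exact h1
        · exact absurd hodd (Nat.not_odd_iff_even.2 (ho.add_odd h1))
      exact sem_symm (sem_of_cert (cert_all n m hn hm hn' ho (by tauto)))

end Pool.Agent.Helper25.SEM
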